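import Pool.Agent.KS6_47.Frk.ForkLeaves
import Pool.Agent.KS6_47.Frk.CoreProps

/-!
# A fork-free minimal counterexample is claw-free
-/

set_option autoImplicit false

namespace Pool.Agent.KS6_47.Frk

variable {V : Type}


/-! ### auxiliary lemmas -/

/-- `v` is adjacent to `x` and `x` is complete to some minimal imperfect subset of `M v`. -/
def J7R (G : SimpleGraph V) (v x : V) : Prop :=
  G.Adj v x ∧ ∃ D, MI G D ∧ D ⊆ M G v ∧ ∀ d ∈ D, G.Adj x d

lemma J7_B5 [Fintype V] {G : SimpleGraph V} (hff : ForkFree G) {a v y : V} {D : Set V}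
    (hD : MI G D) (hDv : D ⊆ M G v) (hav : G.Adj a v) (haD : ∀ d ∈ D, G.Adj a d)
    (hya : y ∈ M G a) (hyv : G.Adj y v) : ∀ d ∈ D, G.Adj y d := by
  have hvD : v ∉ D := fun h => (hDv h).1 rfl
  rcases nbrs_MI hff hD (p := v) (u := y) hyv.symm hvD (fun d hd => (hDv hd).2) with h | h
  · exact h
  · exfalso
    refine MI.two hD h (T := {d | d ∈ D ∧ ¬ G.Adj y d}) ?_ ?_
    · intro d hd d' hd' hne
      by_contra hcon
      exact hff y v a d d' hyv hav.symm (haD d hd.1) (haD d' hd'.1) (fun h => hya.2 h.symm)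
        hd.2 hd'.2 (hDv hd.1).2 (hDv hd'.1).2 hcon hne
    · intro d hd
      by_cases hyd : G.Adj y d
      · exact Or.inl ⟨hd, hyd⟩
      · exact Or.inr ⟨hd, hyd⟩

lemma J7_exMI [Fintype V] {G : SimpleGraph V} (hc : Core G) (v : V) :
    ∃ D, D ⊆ M G v ∧ MI G D := exists_MI (hc.not_perf_M v)

lemma J7_B6 [Fintype V] {G : SimpleGraph V} (hff : ForkFree G) (hc : Core G) {v x : V}
    {D D' : Set V} (hvx : G.Adj v x) (hD : MI G D) (hDv : D ⊆ M G v) (hxD : ∀ d ∈ D, G.Adj x d)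
    (hD' : MI G D') (hDx : D' ⊆ M G x) :
    (∀ e ∈ D', G.Adj v e) ∧ ∀ d ∈ D, ∀ e ∈ D', G.Adj d e := by
  have key : ∀ d ∈ D, (∀ e ∈ D', G.Adj v e) ∧ ∀ e ∈ D', G.Adj d e := by
    intro d hd
    obtain ⟨d', hd', hne, hna⟩ := hD.nonadj hd
    have hcl : Claw G x v d d' := ⟨hvx.symm, hxD d hd, hxD d' hd', (hDv hd).2, (hDv hd').2, hna,
      fun h => (hDv hd).1 h.symm, fun h => (hDv hd').1 h.symm, hne.symm⟩
    have := claw_MI_complete hff hc hD' hcl hDx
    exact ⟨fun e he => (this e he).1, fun e he => (this e he).2.1⟩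
  obtain ⟨d0, hd0⟩ := hD.nonempty
  exact ⟨(key d0 hd0).1, fun d hd => (key d hd).2⟩

lemma J7_symm [Fintype V] {G : SimpleGraph V} (hff : ForkFree G) (hc : Core G) {v x : V}
    (h : J7R G v x) : J7R G x v := by
  obtain ⟨hvx, D, hD, hDv, hxD⟩ := h
  obtain ⟨D', hDx, hD'⟩ := J7_exMI hc x
  exact ⟨hvx.symm, D', hD', hDx, (J7_B6 hff hc hvx hD hDv hxD hD' hDx).1⟩

lemma J7_all [Fintype V] {G : SimpleGraph V} (hff : ForkFree G) (hc : Core G) {v x : V}
    (h : J7R G v x) {D2 : Set V} (hD2 : MI G D2) (hD2v : D2 ⊆ M G v) : ∀ d ∈ D2, G.Adj x d := by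
  obtain ⟨hxv, D', hD', hDx, hvD'⟩ := J7_symm hff hc h
  exact (J7_B6 hff hc hxv hD' hDx hvD' hD2 hD2v).1

lemma J7_trans [Fintype V] {G : SimpleGraph V} (hff : ForkFree G) (hc : Core G) {v x v2 : V}
    (h : J7R G v x) {D : Set V} (hD : MI G D) (hDv : D ⊆ M G v) (hv2 : v2 ∈ D) : J7R G v2 x := by
  have hxD := J7_all hff hc h hD hDv
  obtain ⟨D', hDx, hD'⟩ := J7_exMI hc x
  have h6 := J7_B6 hff hc h.1 hD hDv hxD hD' hDx
  exact J7_symm hff hc ⟨hxD v2 hv2, D', hD', hDx, h6.2 v2 hv2⟩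

lemma J7_claw [Fintype V] {G : SimpleGraph V} (hff : ForkFree G) (hc : Core G) {v a b c : V}
    (h : Claw G v a b c) : J7R G v a := by
  obtain ⟨D, hDv, hD⟩ := J7_exMI hc v
  exact ⟨h.1, D, hD, hDv, fun d hd => (claw_MI_complete hff hc hD h hDv d hd).1⟩

lemma J7_K [Fintype V] {G : SimpleGraph V} (hff : ForkFree G) (hc : Core G) {y x z : V}
    (h : J7R G y x) (hzy : G.Adj z y) (hzx : z ≠ x) : J7R G y z ∨ J7R G z x := by
  obtain ⟨hyx, D, hD, hDy, hxD⟩ := h
  by_cases hadj : G.Adj z x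
  · obtain ⟨D', hDx, hD'⟩ := J7_exMI hc x
    have hyD' := (J7_B6 hff hc hyx hD hDy hxD hD' hDx).1
    rcases nbrs_MI hff hD' (p := x) (u := z) hadj.symm (fun h => (hDx h).1 rfl)
      (fun d hd => (hDx hd).2) with h | h
    · right
      exact J7_symm hff hc ⟨hadj.symm, D', hD', hDx, h⟩
    · left
      by_contra hcon
      refine MI.two hD' h (T := {d | d ∈ D' ∧ ¬ G.Adj z d}) ?_ ?_
      · intro d1 hd1 d2 hd2 hne
        by_contra h12
        apply hcon
        refine J7_claw hff hc (b := d1) (c := d2) ⟨hzy.symm, hyD' d1 hd1.1, hyD' d2 hd2.1,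
          hd1.2, hd2.2, h12, ?_, ?_, hne⟩
        · rintro rfl
          exact (hDx hd1.1).2 hadj.symm
        · rintro rfl
          exact (hDx hd2.1).2 hadj.symm
      · intro d hd
        by_cases hzd : G.Adj z d
        · exact Or.inl ⟨hd, hzd⟩
        · exact Or.inr ⟨hd, hzd⟩
  · left
    exact ⟨hzy.symm, D, hD, hDy, J7_B5 hff hD hDy hyx.symm hxD
      ⟨hzx, fun h => hadj h.symm⟩ hzy⟩

theorem clawFree_of_core [Fintype V] {G : SimpleGraph V} (hff : ForkFree G) (hc : Core G) :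
    ClawFree G := by
  intro c0 x0 y0 z0 h1 h2 h3 h4 h5 h6 h7 h8 h9
  have hR0 : J7R G c0 x0 := J7_claw hff hc ⟨h1, h2, h3, h4, h5, h6, h7, h8, h9⟩
  -- every vertex is related to something
  have hall : ∀ y, ∃ x, J7R G y x := by
    by_contra hcon
    push Not at hcon
    obtain ⟨y1, hy1⟩ := hcon
    obtain ⟨p, ⟨x, hpx⟩, q, hq, hpq⟩ := hc.conn {y | ∃ x, J7R G y x} ⟨c0, x0, hR0⟩ (by
      intro h
      have : y1 ∈ {y | ∃ x, J7R G y x} := by rw [h]; trivial
      obtain ⟨x, hx⟩ := this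
      exact hy1 x hx)
    apply hq
    by_cases hqx : q = x
    · rw [hqx]
      exact ⟨p, J7_symm hff hc hpx⟩
    · rcases J7_K hff hc hpx hpq.symm hqx with h | h
      · exact ⟨p, J7_symm hff hc h⟩
      · exact ⟨x, h⟩
  let X : V → Set V := fun v => {x | J7R G v x}
  have : Nonempty V := ⟨c0⟩
  obtain ⟨v, hv⟩ := Finite.exists_max (fun v => (X v).ncard)
  have hmax : ∀ u, X v ⊆ X u → X u = X v := by
    intro u hu
    exact (Set.eq_of_subset_of_ncard_le hu (hv u) (Set.toFinite _)).symm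
  let E : Set V := {y | X y = X v}
  obtain ⟨D, hDv, hD⟩ := J7_exMI hc v
  obtain ⟨v2, hv2⟩ := hD.nonempty
  have hv2E : v2 ∈ E := hmax v2 fun x hx => J7_trans hff hc hx hD hDv hv2
  refine hc.prime E ⟨v, rfl, v2, hv2E, fun h => (hDv hv2).1 h.symm⟩ ?_ ?_
  · intro hE
    obtain ⟨x, hx⟩ := hall v
    have hxE : x ∈ E := by rw [hE]; trivial
    have hxX : x ∈ X x := by
      have h : X x = X v := hxE
      rw [h]
      exact hx
    exact G.loopless.irrefl x hxX.1
  · intro z _ hz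
    by_cases hno : ∀ y ∈ E, ¬ G.Adj z y
    · exact Or.inr hno
    · left
      push Not at hno
      obtain ⟨y, hyE, hzy⟩ := hno
      by_cases hzX : z ∈ X v
      · intro y' hy'
        have h : X y' = X v := hy'
        have : z ∈ X y' := by rw [h]; exact hzX
        exact this.1.symm
      · exfalso
        apply hz
        apply hmax
        intro x hx
        have h : X y = X v := hyE
        have hyx : J7R G y x := by
          have : x ∈ X y := by rw [h]; exact hx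
          exact this
        have hzx : z ≠ x := by
          rintro rfl
          exact hzX hx
        rcases J7_K hff hc hyx hzy hzx with h' | h'
        · exfalso
          apply hzX
          rw [← h]
          exact h'
        · exact h'

end Pool.Agent.KS6_47.Frk
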