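import Pool.Agent.KS6_47.Frk.MinImp

/-!
# Fork-free graphs: neighbours of minimal imperfect sets
-/

set_option autoImplicit false

namespace Pool.Agent.KS6_47.Frk

variable {V : Type}


/-- one step between distinct nonadjacent vertices of `U` -/
def aStep (G : SimpleGraph V) (U : Set V) (x y : V) : Prop :=
  x ∈ U ∧ y ∈ U ∧ x ≠ y ∧ ¬ G.Adj x y

/-- the component of `y` in the complement of the graph induced by `U` -/
def aComp (G : SimpleGraph V) (U : Set V) (y : V) : Set V :=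
  {w | Relation.ReflTransGen (aStep G U) y w}

theorem aComp_sub {G : SimpleGraph V} {U : Set V} {y : V} (hy : y ∈ U) : aComp G U y ⊆ U := by
  intro w hw
  induction hw with
  | refl => exact hy
  | tail _ h _ => exact h.2.1

theorem aComp_complete {G : SimpleGraph V} {U : Set V} {y x : V} (hy : y ∈ U) (hx : x ∈ U)
    (hxC : x ∉ aComp G U y) : ∀ c ∈ aComp G U y, G.Adj x c := by
  intro c hc
  by_contra h
  apply hxC
  have hne : c ≠ x := fun e => hxC (e ▸ hc)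
  exact Relation.ReflTransGen.tail hc ⟨aComp_sub hy hc, hx, hne, fun h' => h h'.symm⟩

theorem aComp_const {G : SimpleGraph V} {U : Set V} {y r : V}
    (h : ∀ c c', aStep G U c c' → G.Adj r c → G.Adj r c') :
    (∀ c ∈ aComp G U y, G.Adj r c) ∨ (∀ c ∈ aComp G U y, ¬ G.Adj r c) := by
  have h' : ∀ c c', aStep G U c c' → (G.Adj r c ↔ G.Adj r c') := fun c c' hs =>
    ⟨h c c' hs, h c' c ⟨hs.2.1, hs.1, hs.2.2.1.symm, fun h => hs.2.2.2 h.symm⟩⟩
  have key : ∀ c ∈ aComp G U y, (G.Adj r y ↔ G.Adj r c) := by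
    intro c hc
    induction hc with
    | refl => exact Iff.rfl
    | tail _ hs ih => exact ih.trans (h' _ _ hs)
  by_cases hy : G.Adj r y
  · exact Or.inl fun c hc => (key c hc).1 hy
  · exact Or.inr fun c hc hr => hy ((key c hc).2 hr)

theorem nbrs_MI [Fintype V] {G : SimpleGraph V} (hff : ForkFree G) {D : Set V} (hD : MI G D)
    {p u : V} (hpu : G.Adj p u) (hpD : p ∉ D) (hp : ∀ d ∈ D, ¬ G.Adj p d) :
    (∀ d ∈ D, G.Adj u d) ∨ G.IsClique {d | d ∈ D ∧ G.Adj u d} := by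
  by_contra hcon
  rw [not_or] at hcon
  obtain ⟨h1, h2⟩ := hcon
  have huD : u ∉ D := fun h => hp u h hpu
  set U : Set V := {d | d ∈ D ∧ G.Adj u d} with hU
  have h2' : ∃ y ∈ U, ∃ z ∈ U, y ≠ z ∧ ¬ G.Adj y z := by
    by_contra hno
    apply h2
    intro y hy z hz hyz
    by_contra hadj
    exact hno ⟨y, hy, z, hz, hyz, hadj⟩
  obtain ⟨y, hy, z, hz, hyz, hnadj⟩ := h2'
  have hCU : aComp G U y ⊆ U := aComp_sub hy
  refine hD.mod (X := aComp G U y) (fun c hc => (hCU hc).1) ?_ ?_ ?_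
  · exact ⟨y, Relation.ReflTransGen.refl, z, Relation.ReflTransGen.single ⟨hy, hz, hyz, hnadj⟩,
      hyz⟩
  · intro he
    apply h1
    intro d hd
    rw [← he] at hd
    exact (hCU hd).2
  · intro x hx hxC
    by_cases hxU : x ∈ U
    · exact Or.inl (aComp_complete hy hxU hxC)
    · have hxu : ¬ G.Adj u x := fun h => hxU ⟨hx, h⟩
      apply aComp_const
      rintro c c' ⟨hc, hc', hne, hna⟩ hxc
      by_contra hxc'
      exact hff x c u p c' hxc hc.2.symm hpu.symm hc'.2 (fun h => hxu h.symm)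
        (fun h => hp x hx h.symm) hxc' (fun h => hp c hc.1 h.symm) hna (hp c' hc'.1)
        (fun e => hpD (e ▸ hc'.1))

theorem hs [Fintype V] {G : SimpleGraph V} (hff : ForkFree G) (hc : Core G) {D Z : Set V}
    (hD : MI G D) (hZ : Z.Nonempty) (hZD : ∀ z ∈ Z, z ∉ D ∧ ∀ d ∈ D, ¬ G.Adj z d) :
    ∃ z ∈ Z, ∃ x, x ∉ Z ∧ G.Adj z x ∧ ∃ d ∈ D, ¬ G.Adj x d := by
  by_contra hcon
  have hall : ∀ z ∈ Z, ∀ x, x ∉ Z → G.Adj z x → ∀ d ∈ D, G.Adj x d := by
    intro z hz x hx hzx d hd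
    by_contra h
    exact hcon ⟨z, hz, x, hx, hzx, d, hd, h⟩
  set X : Set V := {x | x ∉ Z ∧ ∃ z ∈ Z, G.Adj z x} with hX
  set W : Set V := {w | w ∉ X ∧ w ∉ Z ∧ ∀ x ∈ X, G.Adj w x} with hW
  have hDW : D ⊆ W := by
    intro d hd
    refine ⟨?_, ?_, ?_⟩
    · rintro ⟨_, z, hz, hzd⟩
      exact (hZD z hz).2 d hd hzd
    · intro hdZ
      exact (hZD d hdZ).1 hd
    · rintro x ⟨hxZ, z, hz, hzx⟩
      exact (hall z hz x hxZ hzx d hd).symm
  obtain ⟨d0, hd0⟩ := hD.nonempty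
  obtain ⟨d1, hd1, hne, hna⟩ := hD.nonadj hd0
  have hCW : aComp G W d0 ⊆ W := aComp_sub (hDW hd0)
  refine hc.prime (aComp G W d0) ?_ ?_ ?_
  · exact ⟨d0, Relation.ReflTransGen.refl, d1,
      Relation.ReflTransGen.single ⟨hDW hd0, hDW hd1, hne.symm, hna⟩, hne.symm⟩
  · obtain ⟨z, hz⟩ := hZ
    intro he
    have : z ∈ aComp G W d0 := by rw [he]; exact Set.mem_univ z
    exact (hCW this).2.1 hz
  · intro r _ hrC
    by_cases hrZ : r ∈ Z
    · right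
      intro w hw hrw
      exact (hCW hw).1 ⟨(hCW hw).2.1, r, hrZ, hrw⟩
    by_cases hrX : r ∈ X
    · left
      intro w hw
      exact ((hCW hw).2.2 r hrX).symm
    by_cases hrW : r ∈ W
    · exact Or.inl (aComp_complete (hDW hd0) hrW hrC)
    · have hx : ∃ x ∈ X, ¬ G.Adj r x := by
        by_contra hno
        apply hrW
        refine ⟨hrX, hrZ, fun x hx => ?_⟩
        by_contra h
        exact hno ⟨x, hx, h⟩
      obtain ⟨x, hxX, hrx⟩ := hx
      obtain ⟨hxZ, z, hz, hzx⟩ := hxX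
      apply aComp_const
      rintro c c' ⟨hcW, hcW', hne, hna⟩ hrc
      by_contra hrc'
      have hxX' : x ∈ X := ⟨hxZ, z, hz, hzx⟩
      exact hff r c x z c' hrc (hcW.2.2 x hxX') hzx.symm (hcW'.2.2 x hxX').symm hrx
        (fun h => hrX ⟨hrZ, z, hz, h.symm⟩) hrc' (fun h => hcW.1 ⟨hcW.2.1, z, hz, h.symm⟩) hna
        (fun h => hcW'.1 ⟨hcW'.2.1, z, hz, h⟩) (fun e => hcW'.2.1 (e ▸ hz))

section ClawAux

variable {G : SimpleGraph V} {D : Set V} {v a b c : V}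

theorem Claw.swap12 (h : Claw G v a b c) : Claw G v b a c :=
  ⟨h.2.1, h.1, h.2.2.1, fun e => h.2.2.2.1 e.symm, h.2.2.2.2.2.1, h.2.2.2.2.1,
    h.2.2.2.2.2.2.1.symm, h.2.2.2.2.2.2.2.2, h.2.2.2.2.2.2.2.1⟩

theorem Claw.rot (h : Claw G v a b c) : Claw G v b c a :=
  ⟨h.2.1, h.2.2.1, h.1, h.2.2.2.2.2.1, fun e => h.2.2.2.1 e.symm, fun e => h.2.2.2.2.1 e.symm,
    h.2.2.2.2.2.2.2.2, h.2.2.2.2.2.2.1.symm, h.2.2.2.2.2.2.2.1.symm⟩

theorem claw_two (hff : ForkFree G) (hcl : Claw G v a b c) (hDv : D ⊆ M G v) {d : V}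
    (hd : d ∈ D) (hda : G.Adj a d) : G.Adj b d ∨ G.Adj c d := by
  by_contra hcon
  rw [not_or] at hcon
  obtain ⟨h1, h2, h3, h4, h5, h6, h7, h8, h9⟩ := hcl
  exact hff d a v b c hda.symm h1.symm h2 h3 (fun h => (hDv hd).2 h.symm)
    (fun h => hcon.1 h.symm) (fun h => hcon.2 h.symm) h4 h5 h6 h9

theorem claw_full [Fintype V] (hff : ForkFree G) (hD : MI G D) (hcl : Claw G v a b c)
    (hDv : D ⊆ M G v) (ha : ∀ d ∈ D, G.Adj a d) :
    ∀ d ∈ D, G.Adj c d := by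
  have hvD : v ∉ D := fun h => (hDv h).1 rfl
  have hv : ∀ d ∈ D, ¬ G.Adj v d := fun d hd => (hDv hd).2
  obtain ⟨h1, h2, h3, h4, h5, h6, h7, h8, h9⟩ := hcl
  rcases nbrs_MI hff hD h3 hvD hv with h | h
  · exact h
  · exfalso
    refine hD.two h (T := {d | d ∈ D ∧ ¬ G.Adj c d}) ?_ ?_
    · intro x hx y hy hxy
      by_contra hna
      exact hff c v a x y h3.symm h1 (ha x hx.1) (ha y hy.1) (fun e => h5 e.symm) hx.2 hy.2
        (hv x hx.1) (hv y hy.1) hna hxy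
    · intro d hd
      by_cases hcd : G.Adj c d
      · exact Or.inl ⟨hd, hcd⟩
      · exact Or.inr ⟨hd, hcd⟩

theorem claw_one [Fintype V] (hff : ForkFree G) (hD : MI G D) (hcl : Claw G v a b c)
    (hDv : D ⊆ M G v) (ha : ∀ d ∈ D, G.Adj a d) :
    ∀ d ∈ D, G.Adj a d ∧ G.Adj b d ∧ G.Adj c d := by
  have hvD : v ∉ D := fun h => (hDv h).1 rfl
  have hv : ∀ d ∈ D, ¬ G.Adj v d := fun d hd => (hDv hd).2
  rcases nbrs_MI hff hD hcl.2.1 hvD hv with h | h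
  · intro d hd
    exact ⟨ha d hd, h d hd, claw_full hff hD hcl hDv ha d hd⟩
  · rcases nbrs_MI hff hD hcl.2.2.1 hvD hv with h' | h'
    · have hcl' : Claw G v a c b := by
        obtain ⟨h1, h2, h3, h4, h5, h6, h7, h8, h9⟩ := hcl
        exact ⟨h1, h3, h2, h5, h4, fun e => h6 e.symm, h8, h7, h9.symm⟩
      intro d hd
      exact ⟨ha d hd, claw_full hff hD hcl' hDv ha d hd, h' d hd⟩
    · exfalso
      refine hD.two h h' ?_
      intro d hd
      rcases claw_two hff hcl hDv hd (ha d hd) with e | e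
      · exact Or.inl ⟨hd, e⟩
      · exact Or.inr ⟨hd, e⟩

/-- the last case, for a vertex of `D` adjacent to `a` and `b` -/
theorem claw_last [Fintype V] (hff : ForkFree G) (hD : MI G D) (hcl : Claw G v a b c)
    (hPc : G.IsClique {d | d ∈ D ∧ (G.Adj a d ∨ G.Adj b d ∨ G.Adj c d)})
    {d : V} (hd : d ∈ D) (hda : G.Adj a d) (hdb : G.Adj b d) : False := by
  have hdP : d ∈ {d | d ∈ D ∧ (G.Adj a d ∨ G.Adj b d ∨ G.Adj c d)} := ⟨hd, Or.inl hda⟩
  have he : ∃ e ∈ D, G.Adj d e ∧ ¬ (G.Adj a e ∨ G.Adj b e ∨ G.Adj c e) := by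
    by_contra hno
    have hsub : ∀ e ∈ D, G.Adj d e → (G.Adj a e ∨ G.Adj b e ∨ G.Adj c e) := by
      intro e he hde
      by_contra h
      exact hno ⟨e, he, hde, h⟩
    obtain ⟨y, hy, hyd, _⟩ := hD.nonadj hd
    obtain ⟨w, hw, hdw, _, _⟩ := hD.dom hy hd hyd
    obtain ⟨z, hz, hdz, hzw, hwz⟩ := hD.dom hw hd hdw.ne.symm
    exact hwz (hPc ⟨hw, hsub w hw hdw⟩ ⟨hz, hsub z hz hdz⟩ hzw.symm)
  obtain ⟨e, heD, hde, heP⟩ := he
  rw [not_or, not_or] at heP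
  obtain ⟨z, hz, hez, hzd, hdz⟩ := hD.dom hd heD hde.ne
  have hzP : ¬ (G.Adj a z ∨ G.Adj b z ∨ G.Adj c z) := by
    intro h
    exact hdz (hPc hdP ⟨hz, h⟩ hzd.symm)
  rw [not_or, not_or] at hzP
  obtain ⟨h1, h2, h3, h4, h5, h6, h7, h8, h9⟩ := hcl
  exact hff z e d a b hez.symm hde.symm hda.symm hdb.symm (fun h => hdz h.symm)
    (fun h => hzP.1 h.symm) (fun h => hzP.2.1 h.symm) (fun h => heP.1 h.symm)
    (fun h => heP.2.1 h.symm) h4 h7

end ClawAux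

theorem claw_MI [Fintype V] {G : SimpleGraph V} (hff : ForkFree G) {D : Set V} (hD : MI G D)
    {v a b c : V} (hcl : Claw G v a b c) (hDv : D ⊆ M G v) :
    (∀ d ∈ D, G.Adj a d ∧ G.Adj b d ∧ G.Adj c d) ∨
    (∀ d ∈ D, ¬ G.Adj a d ∧ ¬ G.Adj b d ∧ ¬ G.Adj c d) := by
  have hvD : v ∉ D := fun h => (hDv h).1 rfl
  have hv : ∀ d ∈ D, ¬ G.Adj v d := fun d hd => (hDv hd).2
  rcases nbrs_MI hff hD hcl.1 hvD hv with ha | ha
  · exact Or.inl (claw_one hff hD hcl hDv ha)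
  rcases nbrs_MI hff hD hcl.2.1 hvD hv with hb | hb
  · left
    intro d hd
    have := claw_one hff hD hcl.rot hDv hb d hd
    exact ⟨this.2.2, this.1, this.2.1⟩
  rcases nbrs_MI hff hD hcl.2.2.1 hvD hv with hc | hc
  · left
    intro d hd
    have := claw_one hff hD hcl.rot.rot hDv hc d hd
    exact ⟨this.2.1, this.2.2, this.1⟩
  by_contra hcon
  rw [not_or] at hcon
  have hPc : G.IsClique {d | d ∈ D ∧ (G.Adj a d ∨ G.Adj b d ∨ G.Adj c d)} := by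
    have t1 : ∀ d ∈ D, G.Adj a d → G.Adj b d ∨ G.Adj c d := fun d hd h =>
      claw_two hff hcl hDv hd h
    have t2 : ∀ d ∈ D, G.Adj b d → G.Adj c d ∨ G.Adj a d := fun d hd h =>
      claw_two hff hcl.rot hDv hd h
    have t3 : ∀ d ∈ D, G.Adj c d → G.Adj a d ∨ G.Adj b d := fun d hd h =>
      claw_two hff hcl.rot.rot hDv hd h
    rintro x ⟨hx, hx'⟩ y ⟨hy, hy'⟩ hxy
    have two : ∀ d ∈ D, (G.Adj a d ∨ G.Adj b d ∨ G.Adj c d) →
        (G.Adj a d ∧ G.Adj b d) ∨ (G.Adj b d ∧ G.Adj c d) ∨ (G.Adj c d ∧ G.Adj a d) := by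
      intro d hd h
      rcases h with h | h | h
      · rcases t1 d hd h with h' | h'
        · exact Or.inl ⟨h, h'⟩
        · exact Or.inr (Or.inr ⟨h', h⟩)
      · rcases t2 d hd h with h' | h'
        · exact Or.inr (Or.inl ⟨h, h'⟩)
        · exact Or.inl ⟨h', h⟩
      · rcases t3 d hd h with h' | h'
        · exact Or.inr (Or.inr ⟨h, h'⟩)
        · exact Or.inr (Or.inl ⟨h', h⟩)
    have ea : G.Adj a x → G.Adj a y → G.Adj x y := fun h h' => ha ⟨hx, h⟩ ⟨hy, h'⟩ hxy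
    have eb : G.Adj b x → G.Adj b y → G.Adj x y := fun h h' => hb ⟨hx, h⟩ ⟨hy, h'⟩ hxy
    have ec : G.Adj c x → G.Adj c y → G.Adj x y := fun h h' => hc ⟨hx, h⟩ ⟨hy, h'⟩ hxy
    rcases two x hx hx' with ⟨p1, p2⟩ | ⟨p1, p2⟩ | ⟨p1, p2⟩ <;>
      rcases two y hy hy' with ⟨q1, q2⟩ | ⟨q1, q2⟩ | ⟨q1, q2⟩
    · exact ea p1 q1
    · exact eb p2 q1
    · exact ea p1 q2
    · exact eb p1 q2
    · exact eb p1 q1
    · exact ec p2 q1
    · exact ea p2 q1
    · exact ec p1 q2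
    · exact ec p1 q1
  have hex : ∃ d ∈ D, G.Adj a d ∨ G.Adj b d ∨ G.Adj c d := by
    by_contra hno
    apply hcon.2
    intro d hd
    refine ⟨fun h => hno ⟨d, hd, Or.inl h⟩, fun h => hno ⟨d, hd, Or.inr (Or.inl h)⟩,
      fun h => hno ⟨d, hd, Or.inr (Or.inr h)⟩⟩
  have hPc2 : G.IsClique {d | d ∈ D ∧ (G.Adj b d ∨ G.Adj c d ∨ G.Adj a d)} := by
    intro x hx y hy hxy
    exact hPc ⟨hx.1, by rcases hx.2 with h | h | h <;> simp [h]⟩
      ⟨hy.1, by rcases hy.2 with h | h | h <;> simp [h]⟩ hxy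
  have hPc3 : G.IsClique {d | d ∈ D ∧ (G.Adj c d ∨ G.Adj a d ∨ G.Adj b d)} := by
    intro x hx y hy hxy
    exact hPc ⟨hx.1, by rcases hx.2 with h | h | h <;> simp [h]⟩
      ⟨hy.1, by rcases hy.2 with h | h | h <;> simp [h]⟩ hxy
  obtain ⟨d, hd, hd'⟩ := hex
  rcases hd' with h | h | h
  · rcases claw_two hff hcl hDv hd h with h' | h'
    · exact claw_last hff hD hcl hPc hd h h'
    · exact claw_last hff hD hcl.rot.rot hPc3 hd h' h
  · rcases claw_two hff hcl.rot hDv hd h with h' | h'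
    · exact claw_last hff hD hcl.rot hPc2 hd h h'
    · exact claw_last hff hD hcl hPc hd h' h
  · rcases claw_two hff hcl.rot.rot hDv hd h with h' | h'
    · exact claw_last hff hD hcl.rot.rot hPc3 hd h h'
    · exact claw_last hff hD hcl.rot hPc2 hd h' h

end Pool.Agent.KS6_47.Frk
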