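import Pool.Agent.KS6_47.Frk.Defs

/-!
# Gluing perfect sets along a clique
-/

set_option autoImplicit false

namespace Pool.Agent.KS6_47.Frk

variable {V : Type}


theorem Perf.mono {G : SimpleGraph V} {A B : Set V} (h : Perf G A) (hB : B ⊆ A) : Perf G B :=
  fun T hT k hk => h T (hT.trans hB) k hk

theorem perf_clique [Fintype V] {G : SimpleGraph V} {K : Set V} (h : G.IsClique K) : Perf G K := by
  classical
  intro T hT k hk
  have hTc : G.IsClique T := h.subset hT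
  have hcard : T.ncard ≤ k := hk T subset_rfl hTc
  have e : T ≃ Fin T.ncard := by
    have : Nat.card T = T.ncard := rfl
    rw [← this]
    exact Finite.equivFin T
  refine ⟨fun v => if hv : v ∈ T then (e ⟨v, hv⟩ : ℕ) else 0, ?_, ?_⟩
  · intro v hv
    simp only [dif_pos hv]
    exact lt_of_lt_of_le (e ⟨v, hv⟩).2 hcard
  · intro u hu v hv huv heq
    simp only [dif_pos hu, dif_pos hv] at heq
    have := e.injective (Fin.ext heq)
    exact huv.ne (congrArg Subtype.val this)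

/-- Two injections of a finite type into `Fin k` differ by a permutation of `Fin k`. -/
theorem exists_perm_comp {C : Type} {k : ℕ} (g₁ g₂ : C → Fin k) (h₁ : Function.Injective g₁)
    (h₂ : Function.Injective g₂) : ∃ π : Equiv.Perm (Fin k), ∀ c, π (g₂ c) = g₁ c := by
  classical
  let e : {x // x ∈ Set.range g₂} ≃ {x // x ∈ Set.range g₁} :=
    (Equiv.ofInjective g₂ h₂).symm.trans (Equiv.ofInjective g₁ h₁)
  refine ⟨e.extendSubtype, fun c => ?_⟩
  rw [Equiv.extendSubtype_apply_of_mem e (g₂ c) ⟨c, rfl⟩]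
  have : (Equiv.ofInjective g₂ h₂).symm ⟨g₂ c, ⟨c, rfl⟩⟩ = c := by
    rw [Equiv.symm_apply_eq]
    rfl
  simp only [e, Equiv.trans_apply, this]
  rfl

theorem perf_glue [Fintype V] {G : SimpleGraph V} {A₁ A₂ : Set V} (h₁ : Perf G A₁) (h₂ : Perf G A₂)
    (hc : G.IsClique (A₁ ∩ A₂)) (hn : ∀ a ∈ A₁, a ∉ A₂ → ∀ b ∈ A₂, b ∉ A₁ → ¬ G.Adj a b) :
    Perf G (A₁ ∪ A₂) := by
  classical
  intro T hT k hk
  obtain ⟨f₁, hf₁, hf₁'⟩ := h₁ (T ∩ A₁) Set.inter_subset_right k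
    (fun K hK hKc => hk K (hK.trans Set.inter_subset_left) hKc)
  obtain ⟨f₂, hf₂, hf₂'⟩ := h₂ (T ∩ A₂) Set.inter_subset_right k
    (fun K hK hKc => hk K (hK.trans Set.inter_subset_left) hKc)
  obtain ⟨π, hπ⟩ := exists_perm_comp (C := ↥(T ∩ (A₁ ∩ A₂)))
    (fun c => ⟨f₁ c.1, hf₁ c.1 ⟨c.2.1, c.2.2.1⟩⟩) (fun c => ⟨f₂ c.1, hf₂ c.1 ⟨c.2.1, c.2.2.2⟩⟩)
    (by
      intro a b hab
      by_contra hne
      have hne' : a.1 ≠ b.1 := fun h => hne (Subtype.ext h)
      exact hf₁' a.1 ⟨a.2.1, a.2.2.1⟩ b.1 ⟨b.2.1, b.2.2.1⟩ (hc a.2.2 b.2.2 hne')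
        (congrArg Fin.val hab))
    (by
      intro a b hab
      by_contra hne
      have hne' : a.1 ≠ b.1 := fun h => hne (Subtype.ext h)
      exact hf₂' a.1 ⟨a.2.1, a.2.2.2⟩ b.1 ⟨b.2.1, b.2.2.2⟩ (hc a.2.2 b.2.2 hne')
        (congrArg Fin.val hab))
  -- the recoloured second part
  let g : V → ℕ := fun v => if h : f₂ v < k then (π ⟨f₂ v, h⟩ : ℕ) else 0
  have hg : ∀ v (hv : v ∈ T ∩ A₂), g v = (π ⟨f₂ v, hf₂ v hv⟩ : ℕ) := by
    intro v hv
    simp only [g, dif_pos (hf₂ v hv)]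
  have hglt : ∀ v ∈ T ∩ A₂, g v < k := by
    intro v hv
    rw [hg v hv]
    exact (π _).2
  have hgne : ∀ u ∈ T ∩ A₂, ∀ v ∈ T ∩ A₂, G.Adj u v → g u ≠ g v := by
    intro u hu v hv huv heq
    rw [hg u hu, hg v hv] at heq
    have := π.injective (Fin.ext heq)
    exact hf₂' u hu v hv huv (congrArg Fin.val this)
  have hgC : ∀ v ∈ T, v ∈ A₁ → v ∈ A₂ → g v = f₁ v := by
    intro v hv hv1 hv2
    rw [hg v ⟨hv, hv2⟩]
    exact congrArg Fin.val (hπ ⟨v, hv, hv1, hv2⟩)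
  refine ⟨fun v => if v ∈ A₁ then f₁ v else g v, ?_, ?_⟩
  · intro v hv
    by_cases hv1 : v ∈ A₁
    · simp only [if_pos hv1]
      exact hf₁ v ⟨hv, hv1⟩
    · simp only [if_neg hv1]
      exact hglt v ⟨hv, (hT hv).resolve_left hv1⟩
  · -- mixed edges
    have hmix : ∀ u ∈ T, ∀ v ∈ T, G.Adj u v → u ∈ A₁ → v ∉ A₁ → f₁ u ≠ g v := by
      intro u hu v hv huv hu1 hv1
      have hv2 : v ∈ A₂ := (hT hv).resolve_left hv1
      by_cases hu2 : u ∈ A₂
      · rw [← hgC u hu hu1 hu2]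
        exact hgne u ⟨hu, hu2⟩ v ⟨hv, hv2⟩ huv
      · exact absurd huv (hn u hu1 hu2 v hv2 hv1)
    intro u hu v hv huv
    by_cases hu1 : u ∈ A₁ <;> by_cases hv1 : v ∈ A₁
    · simp only [if_pos hu1, if_pos hv1]
      exact hf₁' u ⟨hu, hu1⟩ v ⟨hv, hv1⟩ huv
    · simp only [if_pos hu1, if_neg hv1]
      exact hmix u hu v hv huv hu1 hv1
    · simp only [if_neg hu1, if_pos hv1]
      exact (hmix v hv u hu huv.symm hv1 hu1).symm
    · simp only [if_neg hu1, if_neg hv1]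
      exact hgne u ⟨hu, (hT hu).resolve_left hu1⟩ v ⟨hv, (hT hv).resolve_left hv1⟩ huv

theorem perf_insert [Fintype V] {G : SimpleGraph V} {A : Set V} {u : V} (h : Perf G A)
    (hu : ∀ x ∈ A, ∀ y ∈ A, G.Adj u x → G.Adj u y → x ≠ y → G.Adj x y) :
    Perf G (insert u A) := by
  classical
  by_cases huA : u ∈ A
  · rwa [Set.insert_eq_of_mem huA]
  have hcl : G.IsClique (insert u {x | x ∈ A ∧ G.Adj u x}) := by
    rintro a ha b hb hab
    rcases ha with rfl | ⟨ha, hua⟩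
    · rcases hb with rfl | ⟨hb, hub⟩
      · exact absurd rfl hab
      · exact hub
    · rcases hb with rfl | ⟨hb, hub⟩
      · exact hua.symm
      · exact hu a ha b hb hua hub hab
  have key := perf_glue (A₁ := A) (A₂ := insert u {x | x ∈ A ∧ G.Adj u x}) h (perf_clique hcl)
    (hcl.subset Set.inter_subset_right)
    (by
      intro a ha ha2 b hb hb1 hab
      rcases hb with rfl | hb
      · exact ha2 (Or.inr ⟨ha, hab.symm⟩)
      · exact hb1 hb.1)
  have heq : A ∪ insert u {x | x ∈ A ∧ G.Adj u x} = insert u A := by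
    ext x
    simp only [Set.mem_union, Set.mem_insert_iff, Set.mem_ofPred_eq]
    tauto
  rwa [heq] at key

end Pool.Agent.KS6_47.Frk
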