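import Pool.Agent.KS6_47.Frk.Main

/-!
# Perfect divisibility of infinite fork-free graphs, by compactness
-/

set_option autoImplicit false

namespace Pool.Agent.KS6_47.Frk

variable {V : Type}

theorem wt_finset [Fintype V] (w : V → ℕ) (K : Finset V) :
    wt w (↑K : Set V) = ∑ v ∈ K, w v := by
  classical
  unfold wt
  rw [← Finset.sum_subset (Finset.subset_univ K)]
  · exact Finset.sum_congr rfl (fun v hv => Set.indicator_of_mem (Finset.mem_coe.2 hv) w)
  · intro v _ hv
    exact Set.indicator_of_notMem (fun h => hv (Finset.mem_coe.1 h)) w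

/-- the finite theorem, for finite subsets of an arbitrary graph -/
theorem fin_part {G : SimpleGraph V} (hff : ForkFree G) (w : V → ℕ) (hw : ∀ v, 0 < w v)
    (F : Set V) (hF : F.Finite) :
    ∃ A : Set V, A ⊆ F ∧ Perf G A ∧ ∀ W : ℕ, 0 < W →
      (∀ K : Finset V, (↑K : Set V) ⊆ F → G.IsClique (↑K : Set V) → ∑ v ∈ K, w v ≤ W) →
      ∀ L : Finset V, (↑L : Set V) ⊆ F \ A → G.IsClique (↑L : Set V) → ∑ v ∈ L, w v < W := by
  classical
  rcases F.eq_empty_or_nonempty with h0 | ⟨x, hx⟩
  · subst h0
    refine ⟨∅, subset_rfl, ?_, ?_⟩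
    · intro T hT k _
      refine ⟨fun _ => 0, fun v hv => absurd (hT hv) (Set.notMem_empty v),
        fun u hu => absurd (hT hu) (Set.notMem_empty u)⟩
    · intro W hW _ L hL _
      have h1 : L = ∅ := by
        rw [Finset.eq_empty_iff_forall_notMem]
        intro v hv
        exact (hL hv).1
      rw [h1, Finset.sum_empty]
      exact hW
  · have hfin : Fintype ↥F := hF.fintype
    obtain ⟨A', -, hA', hh⟩ := main_good _ ↥F rfl ⟨⟨x, hx⟩⟩ (G.induce F) (hff.induce F)
      (fun v => w v.1) (fun v => hw v.1)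
    refine ⟨Subtype.val '' A', ?_, perf_of_induce hA', ?_⟩
    · rintro _ ⟨y, -, rfl⟩
      exact y.2
    · intro W _ hK L hL hLc
      by_contra hcon
      rw [not_lt] at hcon
      have key : ∀ K' : Finset ↥F, wt (fun v : ↥F => w v.1) (↑K' : Set ↥F) =
          ∑ v ∈ K'.map ⟨Subtype.val, Subtype.val_injective⟩, w v := by
        intro K'
        rw [wt_finset, Finset.sum_map]
        rfl
      set L' : Finset ↥F := L.subtype (fun v => v ∈ F) with hL'
      have hmap : L'.map ⟨Subtype.val, Subtype.val_injective⟩ = L := by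
        rw [hL']
        ext v
        simp only [Finset.mem_map, Finset.mem_subtype, Function.Embedding.coeFn_mk]
        constructor
        · rintro ⟨u, hu, rfl⟩
          exact hu
        · intro hv
          exact ⟨⟨v, (hL hv).1⟩, hv, rfl⟩
      obtain ⟨y, hy1, hy2⟩ := hh (↑L' : Set ↥F) ⟨Set.subset_univ _, by
        intro a ha b hb hab
        have ha' : a.1 ∈ L := by simpa [hL'] using ha
        have hb' : b.1 ∈ L := by simpa [hL'] using hb
        exact hLc ha' hb' (fun h => hab (Subtype.val_injective h)), by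
        intro K' _ hK'c
        have hK'f : K' = (↑(K'.toFinset) : Set ↥F) := by simp
        rw [hK'f, key, key, hmap]
        refine (hK _ ?_ ?_).trans hcon
        · intro v hv
          simp only [Finset.coe_map, Function.Embedding.coeFn_mk] at hv
          obtain ⟨u, _, rfl⟩ := hv
          exact u.2
        · intro a ha b hb hab
          simp only [Finset.coe_map, Function.Embedding.coeFn_mk, Set.coe_toFinset] at ha hb
          obtain ⟨u, hu, rfl⟩ := ha
          obtain ⟨v, hv, rfl⟩ := hb
          exact hK'c hu hv (fun h => hab (by rw [h]))⟩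
      have hy3 : y.1 ∈ L := by simpa [hL'] using hy1
      exact (hL hy3).2 ⟨y, hy2, rfl⟩

/-- the compactness argument -/
theorem inf_part {G : SimpleGraph V} (hff : ForkFree G) (w : V → ℕ) (hw : ∀ v, 0 < w v)
    (S : Set V) (W : ℕ) (hW0 : 0 < W)
    (hW : ∀ K : Finset V, (↑K : Set V) ⊆ S → G.IsClique (↑K : Set V) → ∑ v ∈ K, w v ≤ W) :
    ∃ A : Set V, A ⊆ S ∧ (∀ T : Set V, T.Finite → T ⊆ A → Perf G T) ∧
      ∀ L : Finset V, (↑L : Set V) ⊆ S \ A → G.IsClique (↑L : Set V) → ∑ v ∈ L, w v < W := by
  classical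
  have h := fun F : Finset V => fin_part hff w hw ((↑F : Set V) ∩ S)
    (F.finite_toSet.inter_of_left S)
  choose A hA1 hA2 hA3 using h
  set U : Ultrafilter (Finset V) := Ultrafilter.of Filter.atTop with hUdef
  have hU : (U : Filter (Finset V)) ≤ Filter.atTop := Ultrafilter.of_le _
  refine ⟨{v | v ∈ S ∧ ∀ᶠ F in (U : Filter (Finset V)), v ∈ A F}, fun v hv => hv.1, ?_, ?_⟩
  · intro T hT hTA
    have h1 : ∀ᶠ F in (U : Filter (Finset V)), ∀ v ∈ T, v ∈ A F :=
      (Filter.eventually_all_finite hT).2 (fun v hv => (hTA hv).2)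
    obtain ⟨F, hF⟩ := h1.exists
    intro T' hT' k hk
    exact hA2 F T' (hT'.trans hF) k hk
  · intro L hL hLc
    have h1 : ∀ᶠ F in (U : Filter (Finset V)), ∀ v ∈ L, v ∉ A F ∧ v ∈ F := by
      rw [Filter.eventually_all_finset]
      intro v hv
      have h2 := hL hv
      have h3 : ¬ ∀ᶠ F in (U : Filter (Finset V)), v ∈ A F := fun h => h2.2 ⟨h2.1, h⟩
      have h4 : ∀ᶠ F in (U : Filter (Finset V)), v ∈ F := by
        refine hU ?_
        filter_upwards [Filter.eventually_ge_atTop ({v} : Finset V)] with F hF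
        exact hF (Finset.mem_singleton_self v)
      exact (Ultrafilter.eventually_not.2 h3).and h4
    obtain ⟨F, hF⟩ := h1.exists
    refine hA3 F W hW0 (fun K hK hc => hW K (hK.trans Set.inter_subset_right) hc) L ?_ hLc
    intro v hv
    exact ⟨⟨(hF v hv).2, (hL hv).1⟩, (hF v hv).1⟩

/-- compactness of colourings -/
theorem col_compact {G : SimpleGraph V} (T : Set V) (k : ℕ)
    (h : ∀ T' : Set V, T'.Finite → T' ⊆ T → Col G T' k) : (G.induce T).Colorable k := by
  classical
  have key : ∀ G' : (G.induce T).Subgraph, G'.verts.Finite →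
      Nonempty (G'.coe →g (⊤ : SimpleGraph (Fin k))) := by
    intro G' hG'
    obtain ⟨f, hf1, hf2⟩ := h (Subtype.val '' G'.verts) (hG'.image _) (by
      rintro _ ⟨x, -, rfl⟩
      exact x.2)
    refine ⟨⟨fun x => ⟨f x.1.1, hf1 _ ⟨x.1, x.2, rfl⟩⟩, ?_⟩⟩
    intro a b hab
    rw [SimpleGraph.top_adj]
    intro hcon
    exact hf2 a.1.1 ⟨a.1, a.2, rfl⟩ b.1.1 ⟨b.1, b.2, rfl⟩ (G'.adj_sub hab)
      (Fin.mk.inj hcon)
  obtain ⟨c⟩ := SimpleGraph.nonempty_hom_of_forall_finite_subgraph_hom
    (G := G.induce T) (F := (⊤ : SimpleGraph (Fin k))) (fun G' hG' => (key G' hG').some)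
  exact ⟨c⟩

/-- perfection of an infinite set -/
theorem perfect_inf {G : SimpleGraph V} (A : Set V) (hA : ∀ T : Set V, T.Finite → T ⊆ A → Perf G T)
    (W : ℕ) (hW : ∀ K : Finset V, (↑K : Set V) ⊆ A → G.IsClique (↑K : Set V) → K.card ≤ W)
    (T : Set V) (hT : T ⊆ A) :
    (G.induce T).chromaticNumber = ((G.induce T).cliqueNum : ℕ∞) := by
  classical
  have hmapc : ∀ s : Finset ↥T, (G.induce T).IsClique (↑s : Set ↥T) →
      (↑(s.map ⟨Subtype.val, Subtype.val_injective⟩) : Set V) ⊆ T ∧
      G.IsClique (↑(s.map ⟨Subtype.val, Subtype.val_injective⟩) : Set V) := by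
    intro s hs
    refine ⟨?_, ?_⟩
    · intro v hv
      simp only [Finset.coe_map, Function.Embedding.coeFn_mk] at hv
      obtain ⟨u, _, rfl⟩ := hv
      exact u.2
    · intro a ha b hb hab
      simp only [Finset.coe_map, Function.Embedding.coeFn_mk] at ha hb
      obtain ⟨u, hu, rfl⟩ := ha
      obtain ⟨v, hv, rfl⟩ := hb
      exact hs hu hv (fun h => hab (by rw [h]))
  have hbdd : BddAbove {n | ∃ s, (G.induce T).IsNClique n s} := by
    refine ⟨W, ?_⟩
    rintro n ⟨s, hs⟩
    have h1 := hmapc s hs.isClique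
    have h2 := hW _ (h1.1.trans hT) h1.2
    rw [Finset.card_map, hs.card_eq] at h2
    exact h2
  refine le_antisymm ?_ (G.induce T).cliqueNum_le_chromaticNumber
  rw [SimpleGraph.chromaticNumber_le_iff_colorable]
  refine col_compact T _ (fun T' hT'f hT' => ?_)
  refine hA T' hT'f (hT'.trans hT) T' subset_rfl _ ?_
  intro K hK hKc
  have hKf : K.Finite := hT'f.subset hK
  have hKT : ∀ v ∈ K, v ∈ T := fun v hv => hT' (hK hv)
  have h3 : (G.induce T).IsNClique K.ncard (hKf.toFinset.subtype (fun v => v ∈ T)) := by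
    rw [SimpleGraph.isNClique_iff]
    constructor
    · intro a ha b hb hab
      have ha' : a.1 ∈ K := by simpa using ha
      have hb' : b.1 ∈ K := by simpa using hb
      exact hKc ha' hb' (fun h => hab (Subtype.val_injective h))
    · rw [← Finset.card_map ⟨Subtype.val, Subtype.val_injective⟩]
      have h4 : (hKf.toFinset.subtype (fun v => v ∈ T)).map
          ⟨Subtype.val, Subtype.val_injective⟩ = hKf.toFinset := by
        ext v
        simp only [Finset.mem_map, Finset.mem_subtype, Function.Embedding.coeFn_mk]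
        constructor
        · rintro ⟨u, hu, rfl⟩
          exact hu
        · intro hv
          exact ⟨⟨v, hKT v (by simpa using hv)⟩, hv, rfl⟩
      rw [h4, Set.ncard_eq_toFinset_card K hKf]
  exact le_csSup hbdd ⟨_, h3⟩

/-- the bound on the chromatic number -/
theorem chi_bound {G : SimpleGraph V} (hff : ForkFree G) : ∀ (n : ℕ) (S : Set V),
    (∀ K : Finset V, (↑K : Set V) ⊆ S → G.IsClique (↑K : Set V) → K.card ≤ n) →
    (G.induce S).Colorable ((n + 1).choose 2) := by
  classical
  intro n
  induction n with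
  | zero =>
    intro S hS
    have hempty : IsEmpty ↥S := by
      refine ⟨fun v => ?_⟩
      have h1 := hS {v.1} (by simp) (by simp)
      simp at h1
    exact SimpleGraph.Colorable.of_isEmpty _
  | succ n ih =>
    intro S hS
    obtain ⟨A, hAS, hA, hL⟩ := inf_part hff (fun _ => 1) (fun _ => Nat.one_pos) S (n + 1)
      (Nat.succ_pos n) (fun K h1 h2 => by
        rw [Finset.sum_const, smul_eq_mul, mul_one]
        exact hS K h1 h2)
    have hB : (G.induce (S \ A)).Colorable ((n + 1).choose 2) := by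
      refine ih (S \ A) (fun K h1 h2 => ?_)
      have h3 := hL K h1 h2
      rw [Finset.sum_const, smul_eq_mul, mul_one] at h3
      omega
    have hAc : (G.induce A).Colorable (n + 1) := by
      refine col_compact A _ (fun T' hT'f hT' => ?_)
      refine hA T' hT'f hT' T' subset_rfl _ ?_
      intro K hK hKc
      have hKf : K.Finite := hT'f.subset hK
      have h4 := hS hKf.toFinset (by
        rw [hKf.coe_toFinset]
        exact (hK.trans hT').trans hAS) (by rwa [hKf.coe_toFinset])
      rwa [← Set.ncard_eq_toFinset_card K hKf] at h4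
    obtain ⟨cA⟩ := hAc
    obtain ⟨cB⟩ := hB
    have hc : (G.induce S).Colorable (Fintype.card (Fin (n + 1) ⊕ Fin ((n + 1).choose 2))) := by
      refine SimpleGraph.Coloring.colorable (SimpleGraph.Coloring.mk
        (fun v : ↥S => if h : v.1 ∈ A then (Sum.inl (cA ⟨v.1, h⟩) :
          Fin (n + 1) ⊕ Fin ((n + 1).choose 2)) else Sum.inr (cB ⟨v.1, v.2, h⟩)) ?_)
      intro u v huv
      have huv' : G.Adj u.1 v.1 := huv
      by_cases hu : u.1 ∈ A
      · by_cases hv : v.1 ∈ A
        · simp only [hu, hv, dite_true]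
          intro hcon
          exact cA.valid (v := ⟨u.1, hu⟩) (w := ⟨v.1, hv⟩) huv' (Sum.inl_injective hcon)
        · simp only [hu, hv, dite_true, dite_false]
          exact Sum.inl_ne_inr
      · by_cases hv : v.1 ∈ A
        · simp only [hu, hv, dite_true, dite_false]
          exact Sum.inr_ne_inl
        · simp only [hu, hv, dite_false]
          intro hcon
          exact cB.valid (v := ⟨u.1, u.2, hu⟩) (w := ⟨v.1, v.2, hv⟩) huv'
            (Sum.inr_injective hcon)
    have hnum : (n + 1 + 1).choose 2 = Fintype.card (Fin (n + 1) ⊕ Fin ((n + 1).choose 2)) := by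
      rw [Fintype.card_sum, Fintype.card_fin, Fintype.card_fin, Nat.choose_succ_succ' (n + 1) 1,
        Nat.choose_one_right]
    rw [hnum]
    exact hc

end Pool.Agent.KS6_47.Frk
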