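import Mathlib

/-!
# The weak perfect graph theorem: a perfect graph is covered by `α` cliques (Lovász)
-/

set_option autoImplicit false

namespace Pool.Agent.KS6_47.FrkL

open Finset

/-- Perfect graphs: every induced subgraph has chromatic number equal to its clique number. -/
def IsPerfect {V : Type} (G : SimpleGraph V) : Prop :=
  ∀ S : Set V, (G.induce S).chromaticNumber = ((G.induce S).cliqueNum : ℕ∞)

variable {V : Type} {G : SimpleGraph V}

lemma perfect_colorable [Fintype V] (h : IsPerfect G) (S : Set V) (n : ℕ)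
    (hn : ∀ K : Finset V, (K : Set V) ⊆ S → G.IsClique (K : Set V) → K.card ≤ n) :
    (G.induce S).Colorable n := by
  classical
  rw [← SimpleGraph.chromaticNumber_le_iff_colorable, h S]
  obtain ⟨s, hs⟩ := (G.induce S).exists_isNClique_cliqueNum
  have h1 : ((s.map (Function.Embedding.subtype (· ∈ S)) : Finset V)).card ≤ n := by
    apply hn
    · intro v hv
      simp only [coe_map, Function.Embedding.subtype_apply, Set.mem_image] at hv
      obtain ⟨u, -, rfl⟩ := hv
      exact u.2
    · intro u hu v hv huv
      simp only [coe_map, Function.Embedding.subtype_apply, Set.mem_image] at hu hv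
      obtain ⟨u, hu, rfl⟩ := hu
      obtain ⟨v, hv, rfl⟩ := hv
      exact hs.isClique hu hv (fun h => huv (by rw [h]))
  rw [card_map, hs.card_eq] at h1
  exact_mod_cast h1

lemma sum_inter_le_one {K A : Finset V} [DecidableEq V] (hK : G.IsClique (K : Set V))
    (hA : G.IsIndepSet (A : Set V)) : ∑ v ∈ K, (if v ∈ A then 1 else 0) ≤ 1 := by
  rw [sum_boole]
  simp only [Nat.cast_id]
  rw [card_le_one]
  intro u hu v hv
  rw [mem_filter] at hu hv
  by_contra huv
  exact hA hu.2 hv.2 huv (hK hu.1 hv.1 huv)

theorem weighted [Fintype V] (h : IsPerfect G) (N : ℕ) : ∀ (w : V → ℕ), ∑ v, w v = N → ∀ m,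
    (∀ K : Finset V, G.IsClique (K : Set V) → ∑ v ∈ K, w v ≤ m) →
    ∃ A : Fin m → Finset V, (∀ i, G.IsIndepSet (A i : Set V)) ∧
      ∀ v, (open Classical in ∑ i, (if v ∈ A i then 1 else 0)) = w v := by
  classical
  induction N using Nat.strong_induction_on with
  | _ N ih =>
    intro w hw m hm
    by_cases hle : ∀ v, w v ≤ 1
    · set S : Set V := {v | w v = 1} with hS
      have hcol : (G.induce S).Colorable m := by
        apply perfect_colorable h
        intro K hK hKc
        calc K.card = ∑ v ∈ K, 1 := by simp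
          _ = ∑ v ∈ K, w v := sum_congr rfl (fun v hv => (hK hv).symm)
          _ ≤ m := hm K hKc
      obtain ⟨c⟩ := hcol
      refine ⟨fun i => univ.filter (fun v => ∃ hv : v ∈ S, c ⟨v, hv⟩ = i), ?_, ?_⟩
      · intro i u hu v hv huv hadj
        rw [mem_coe, mem_filter] at hu hv
        obtain ⟨-, hu1, hu2⟩ := hu
        obtain ⟨-, hv1, hv2⟩ := hv
        exact c.valid (show (G.induce S).Adj ⟨u, hu1⟩ ⟨v, hv1⟩ from hadj) (hu2.trans hv2.symm)
      · intro v
        by_cases hv : v ∈ S
        · rw [Finset.sum_eq_single (c ⟨v, hv⟩)]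
          · rw [if_pos]
            · exact hv.symm
            · rw [mem_filter]
              exact ⟨mem_univ _, hv, rfl⟩
          · intro i _ hi
            rw [if_neg]
            rw [mem_filter]
            rintro ⟨-, _, h2⟩
            exact hi h2.symm
          · intro h1
            exact absurd (mem_univ _) h1
        · rw [Finset.sum_eq_zero]
          · have h1 := hle v
            have h2 : w v ≠ 1 := hv
            omega
          · intro i _
            rw [if_neg]
            rw [mem_filter]
            rintro ⟨-, h1, -⟩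
            exact hv h1
    · push Not at hle
      obtain ⟨v, hv⟩ := hle
      set w' : V → ℕ := fun u => if u = v then w v - 1 else w u with hw'
      have hw'v : w' v = w v - 1 := by simp [hw']
      have hw'u : ∀ u, u ≠ v → w' u = w u := fun u hu => by simp [hw', hu]
      have hw'le : ∀ u, w' u ≤ w u := fun u => by
        by_cases hu : u = v
        · subst hu; omega
        · rw [hw'u u hu]
      have hsum' : ∑ u, w' u < N := by
        rw [← hw]
        exact sum_lt_sum (fun u _ => hw'le u) ⟨v, mem_univ _, by omega⟩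
      obtain ⟨A, hA, hAw⟩ := ih _ hsum' w' rfl m (fun K hK =>
        (sum_le_sum fun u _ => hw'le u).trans (hm K hK))
      obtain ⟨i₀, hi₀⟩ : ∃ i₀, v ∈ A i₀ := by
        by_contra hcon
        push Not at hcon
        have h1 := hAw v
        rw [Finset.sum_eq_zero (fun i _ => if_neg (hcon i))] at h1
        omega
      have hmpos : 0 < m := i₀.pos
      obtain ⟨m', rfl⟩ : ∃ m', m = m' + 1 := ⟨m - 1, by omega⟩
      set w'' : V → ℕ := fun u => if u ∈ A i₀ ∧ u ≠ v then w' u - 1 else w' u with hw''
      have hpos : ∀ u, u ∈ A i₀ → 1 ≤ w' u := fun u hu => by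
        rw [← hAw u]
        calc 1 = (if u ∈ A i₀ then 1 else 0) := by rw [if_pos hu]
          _ ≤ _ := single_le_sum (f := fun i => if u ∈ A i then 1 else 0)
            (fun i _ => Nat.zero_le _) (mem_univ i₀)
      have hw''le : ∀ u, w'' u ≤ w' u := fun u => by
        simp only [hw'']; split_ifs <;> omega
      have hsum'' : ∑ u, w'' u < N := (sum_le_sum fun u _ => hw''le u).trans_lt hsum'
      obtain ⟨B, hB, hBw⟩ := ih _ hsum'' w'' rfl m' (fun K hK => by
        by_cases hmeet : ∃ u ∈ K, u ∈ A i₀ ∧ u ≠ v
        · obtain ⟨u, huK, huA, huv⟩ := hmeet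
          have h1 : ∑ x ∈ K, w'' x < ∑ x ∈ K, w' x := by
            refine sum_lt_sum (fun x _ => hw''le x) ⟨u, huK, ?_⟩
            simp only [hw'']
            rw [if_pos ⟨huA, huv⟩]
            have := hpos u huA
            omega
          have h2 : ∑ x ∈ K, w' x ≤ m' + 1 := (sum_le_sum fun u _ => hw'le u).trans (hm K hK)
          omega
        · push Not at hmeet
          have h1 : ∑ x ∈ K, w'' x = ∑ x ∈ K, w' x := by
            refine sum_congr rfl fun x hx => ?_
            simp only [hw'']
            rw [if_neg]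
            rintro ⟨h2, h3⟩
            exact h3 (hmeet x hx h2)
          have h2 : ∑ x ∈ K, w' x = ∑ i, ∑ x ∈ K, (if x ∈ A i then 1 else 0) := by
            rw [sum_comm]
            exact sum_congr rfl fun x _ => (hAw x).symm
          by_cases hvK : v ∈ K
          · have h3 : ∑ x ∈ K, w' x < ∑ x ∈ K, w x :=
              sum_lt_sum (fun x _ => hw'le x) ⟨v, hvK, by omega⟩
            have h4 := hm K hK
            omega
          · have h3 : ∑ x ∈ K, (if x ∈ A i₀ then 1 else 0) = 0 := by
              refine sum_eq_zero fun x hx => if_neg fun hxA => ?_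
              exact hvK (hmeet x hx hxA ▸ hx)
            have h4 : ∑ i, ∑ x ∈ K, (if x ∈ A i then 1 else 0) < ∑ i : Fin (m' + 1), 1 := by
              refine sum_lt_sum (fun i _ => sum_inter_le_one hK (hA i)) ⟨i₀, mem_univ _, ?_⟩
              rw [h3]; exact Nat.one_pos
            rw [sum_const, card_univ, Fintype.card_fin, smul_eq_mul, mul_one] at h4
            omega)
      refine ⟨Fin.cons (A i₀) B, ?_, ?_⟩
      · intro i
        refine Fin.cases ?_ (fun i => ?_) i
        · exact hA i₀
        · exact hB i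
      · intro u
        rw [Fin.sum_univ_succ]
        simp only [Fin.cons_zero, Fin.cons_succ]
        rw [hBw u]
        simp only [hw'']
        by_cases huv : u = v
        · subst huv
          rw [if_pos hi₀, if_neg (fun h => h.2 rfl)]
          omega
        · by_cases huA : u ∈ A i₀
          · rw [if_pos huA, if_pos ⟨huA, huv⟩]
            have h1 := hpos u huA
            have h2 := hw'u u huv
            omega
          · rw [if_neg huA, if_neg (fun h => huA h.1), hw'u u huv, zero_add]

/-- A clique meeting all largest independent subsets. -/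
theorem exists_clique [Fintype V] (h : IsPerfect G) (n : ℕ) (S : Finset V)
    (hS : ∀ A ⊆ S, G.IsIndepSet (A : Set V) → A.card ≤ n + 1) :
    ∃ K : Finset V, G.IsClique (K : Set V) ∧ ∀ A ⊆ S, G.IsIndepSet (A : Set V) →
      Disjoint A K → A.card ≤ n := by
  classical
  by_contra hcon
  push Not at hcon
  set F : Finset (Finset V) := S.powerset.filter
    (fun A => G.IsIndepSet (A : Set V) ∧ A.card = n + 1) with hF
  have hkey : ∀ K : Finset V, G.IsClique (K : Set V) → ∃ A ∈ F, Disjoint A K := by
    intro K hK
    obtain ⟨A, hAS, hA, hAK, hAc⟩ := hcon K hK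
    refine ⟨A, ?_, hAK⟩
    rw [hF, mem_filter, mem_powerset]
    exact ⟨hAS, hA, le_antisymm (hS A hAS hA) hAc⟩
  obtain ⟨A₀, hA₀, -⟩ := hkey ∅ (by simp)
  have hFpos : 0 < F.card := card_pos.2 ⟨A₀, hA₀⟩
  obtain ⟨k, hk⟩ : ∃ k, F.card = k + 1 := ⟨F.card - 1, by omega⟩
  set f : V → ℕ := fun v => ∑ A ∈ F, (if v ∈ A then 1 else 0) with hf
  obtain ⟨B, hB, hBf⟩ := weighted h _ f rfl k (by
    intro K hK
    obtain ⟨A, hAF, hAK⟩ := hkey K hK
    have h1 : ∑ v ∈ K, f v = ∑ A ∈ F, ∑ v ∈ K, (if v ∈ A then 1 else 0) := by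
      simp only [hf]; rw [sum_comm]
    have h2 : ∑ A ∈ F, ∑ v ∈ K, (if v ∈ A then 1 else 0) < ∑ A ∈ F, 1 := by
      refine sum_lt_sum (fun A hA => ?_) ⟨A, hAF, ?_⟩
      · rw [hF, mem_filter] at hA
        exact sum_inter_le_one hK hA.2.1
      · rw [sum_eq_zero]
        · exact Nat.one_pos
        · intro v hv
          exact if_neg fun hvA => disjoint_left.1 hAK hvA hv
    rw [sum_const, smul_eq_mul, mul_one, hk] at h2
    omega)
  have h1 : ∑ v ∈ S, f v = (k + 1) * (n + 1) := by
    simp only [hf]
    rw [sum_comm]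
    have : ∀ A ∈ F, ∑ v ∈ S, (if v ∈ A then 1 else 0) = n + 1 := by
      intro A hA
      rw [hF, mem_filter, mem_powerset] at hA
      rw [sum_boole, Nat.cast_id]
      rw [filter_mem_eq_inter, inter_eq_right.2 hA.1]
      exact hA.2.2
    rw [sum_congr rfl this, sum_const, smul_eq_mul, hk]
  have h2 : ∑ v ∈ S, f v ≤ k * (n + 1) := by
    have h3 : ∑ v ∈ S, f v = ∑ i, ∑ v ∈ S, (if v ∈ B i then 1 else 0) :=
      (sum_congr rfl fun v _ => (hBf v).symm).trans sum_comm
    rw [h3]
    calc _ ≤ ∑ i : Fin k, (n + 1) := by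
          refine sum_le_sum fun i _ => ?_
          rw [sum_boole, Nat.cast_id]
          refine hS _ (filter_subset _ _) ?_
          intro u hu v hv huv
          rw [mem_coe, mem_filter] at hu hv
          exact hB i hu.2 hv.2 huv
      _ = k * (n + 1) := by rw [sum_const, card_univ, Fintype.card_fin, smul_eq_mul]
  have h3 : (k + 1) * (n + 1) = k * (n + 1) + (n + 1) := by ring
  omega

/-- The weak perfect graph theorem in the form of a clique cover. -/
theorem clique_cover [Fintype V] (h : IsPerfect G) (n : ℕ) : ∀ (S : Finset V),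
    (∀ A ⊆ S, G.IsIndepSet (A : Set V) → A.card ≤ n) →
    ∃ c : V → Fin (n + 1), ∀ u ∈ S, c u ≠ Fin.last n ∧
      ∀ v ∈ S, c u = c v → u ≠ v → G.Adj u v := by
  classical
  induction n with
  | zero =>
    intro S hS
    refine ⟨fun _ => 0, fun u hu => ?_⟩
    have := hS {u} (by simpa using hu) (by simp)
    simp at this
  | succ n ih =>
    intro S hS
    obtain ⟨K, hK, hKS⟩ := exists_clique h n S hS
    obtain ⟨c, hc⟩ := ih (S \ K) (fun A hA hAi => by
      rw [subset_sdiff] at hA
      exact hKS A hA.1 hAi hA.2)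
    refine ⟨fun v => if v ∈ K then (Fin.last n).castSucc else (c v).castSucc, fun u hu => ?_⟩
    refine ⟨?_, fun v hv huv hne => ?_⟩
    · beta_reduce
      split_ifs with h1
      · exact Fin.castSucc_ne_last _
      · exact Fin.castSucc_ne_last _
    · beta_reduce at huv
      by_cases h1 : u ∈ K
      · by_cases h2 : v ∈ K
        · exact hK h1 h2 hne
        · rw [if_pos h1, if_neg h2, Fin.castSucc_inj] at huv
          exact absurd huv.symm (hc v (mem_sdiff.2 ⟨hv, h2⟩)).1
      · by_cases h2 : v ∈ K
        · rw [if_neg h1, if_pos h2, Fin.castSucc_inj] at huv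
          exact absurd huv (hc u (mem_sdiff.2 ⟨hu, h1⟩)).1
        · rw [if_neg h1, if_neg h2, Fin.castSucc_inj] at huv
          exact (hc u (mem_sdiff.2 ⟨hu, h1⟩)).2 v (mem_sdiff.2 ⟨hv, h2⟩) huv hne

end Pool.Agent.KS6_47.FrkL
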