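import Pool.Agent.KS6_47.Frk.Glue
import Pool.Agent.KS6_47.Frk.Lovasz

/-!
# Lovász's substitution lemma
-/

set_option autoImplicit false

namespace Pool.Agent.KS6_47.Frk

variable {V : Type}


theorem weighted_sub [Fintype V] {G : SimpleGraph V} {A' : Set V} (h : Perf G A') (N : ℕ) :
    ∀ (w : V → ℕ), (∀ v, v ∉ A' → w v = 0) → ∑ v, w v = N → ∀ m,
    (∀ K : Finset V, G.IsClique (K : Set V) → ∑ v ∈ K, w v ≤ m) →
    ∃ A : Fin m → Finset V, (∀ i, G.IsIndepSet (A i : Set V)) ∧
      ∀ v, (open Classical in ∑ i, (if v ∈ A i then 1 else 0)) = w v := by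
  classical
  induction N using Nat.strong_induction_on with
  | _ N ih =>
    intro w hwA hw m hm
    by_cases hle : ∀ v, w v ≤ 1
    · set S : Set V := {v | w v = 1} with hS
      have hSA : S ⊆ A' := by
        intro v hv
        by_contra hvA
        have h1 : w v = 1 := hv
        rw [hwA v hvA] at h1
        exact zero_ne_one h1
      obtain ⟨c, hc1, hc2⟩ : Col G S m := by
        refine h S hSA m ?_
        intro K hK hKc
        have hKfin : K.Finite := Set.toFinite K
        calc K.ncard = hKfin.toFinset.card := Set.ncard_eq_toFinset_card K hKfin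
          _ = ∑ v ∈ hKfin.toFinset, 1 := by simp
          _ = ∑ v ∈ hKfin.toFinset, w v := Finset.sum_congr rfl (fun v hv => by
              have h1 : w v = 1 := hK (hKfin.mem_toFinset.1 hv)
              exact h1.symm)
          _ ≤ m := hm _ (by rw [Set.Finite.coe_toFinset]; exact hKc)
      refine ⟨fun i => Finset.univ.filter (fun v => v ∈ S ∧ c v = i.val), ?_, ?_⟩
      · intro i u hu v hv huv hadj
        rw [Finset.mem_coe, Finset.mem_filter] at hu hv
        obtain ⟨-, hu1, hu2⟩ := hu
        obtain ⟨-, hv1, hv2⟩ := hv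
        exact hc2 u hu1 v hv1 hadj (hu2.trans hv2.symm)
      · intro v
        by_cases hv : v ∈ S
        · rw [Finset.sum_eq_single (⟨c v, hc1 v hv⟩ : Fin m)]
          · rw [if_pos]
            · exact hv.symm
            · rw [Finset.mem_filter]
              exact ⟨Finset.mem_univ _, hv, rfl⟩
          · intro i _ hi
            rw [if_neg]
            rw [Finset.mem_filter]
            rintro ⟨-, _, h2⟩
            exact hi (Fin.ext h2.symm)
          · intro h1
            exact absurd (Finset.mem_univ _) h1
        · rw [Finset.sum_eq_zero]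
          · have h1 := hle v
            have h2 : w v ≠ 1 := hv
            omega
          · intro i _
            rw [if_neg]
            rw [Finset.mem_filter]
            rintro ⟨-, h1, -⟩
            exact hv h1
    · push Not at hle
      obtain ⟨v, hv⟩ := hle
      set w' : V → ℕ := fun u => if u = v then w v - 1 else w u with hw'
      have hw'v : w' v = w v - 1 := by simp [hw']
      have hw'u : ∀ u, u ≠ v → w' u = w u := fun u hu => by simp [hw', hu]
      have hw'le : ∀ u, w' u ≤ w u := fun u => by
        by_cases hu : u = v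
        · subst hu; omega
        · rw [hw'u u hu]
      have hw'A : ∀ u, u ∉ A' → w' u = 0 := fun u hu => by
        have h1 := hw'le u
        rw [hwA u hu] at h1
        omega
      have hsum' : ∑ u, w' u < N := by
        rw [← hw]
        exact Finset.sum_lt_sum (fun u _ => hw'le u) ⟨v, Finset.mem_univ _, by omega⟩
      obtain ⟨A, hA, hAw⟩ := ih _ hsum' w' hw'A rfl m (fun K hK =>
        (Finset.sum_le_sum fun u _ => hw'le u).trans (hm K hK))
      obtain ⟨i₀, hi₀⟩ : ∃ i₀, v ∈ A i₀ := by
        by_contra hcon
        push Not at hcon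
        have h1 := hAw v
        rw [Finset.sum_eq_zero (fun i _ => if_neg (hcon i))] at h1
        omega
      have hmpos : 0 < m := i₀.pos
      obtain ⟨m', rfl⟩ : ∃ m', m = m' + 1 := ⟨m - 1, by omega⟩
      set w'' : V → ℕ := fun u => if u ∈ A i₀ ∧ u ≠ v then w' u - 1 else w' u with hw''
      have hpos : ∀ u, u ∈ A i₀ → 1 ≤ w' u := fun u hu => by
        rw [← hAw u]
        calc 1 = (if u ∈ A i₀ then 1 else 0) := by rw [if_pos hu]
          _ ≤ _ := Finset.single_le_sum (f := fun i => if u ∈ A i then 1 else 0)
            (fun i _ => Nat.zero_le _) (Finset.mem_univ i₀)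
      have hw''le : ∀ u, w'' u ≤ w' u := fun u => by
        simp only [hw'']; split_ifs <;> omega
      have hw''A : ∀ u, u ∉ A' → w'' u = 0 := fun u hu => by
        have h1 := hw''le u
        rw [hw'A u hu] at h1
        omega
      have hsum'' : ∑ u, w'' u < N := (Finset.sum_le_sum fun u _ => hw''le u).trans_lt hsum'
      obtain ⟨B, hB, hBw⟩ := ih _ hsum'' w'' hw''A rfl m' (fun K hK => by
        by_cases hmeet : ∃ u ∈ K, u ∈ A i₀ ∧ u ≠ v
        · obtain ⟨u, huK, huA, huv⟩ := hmeet
          have h1 : ∑ x ∈ K, w'' x < ∑ x ∈ K, w' x := by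
            refine Finset.sum_lt_sum (fun x _ => hw''le x) ⟨u, huK, ?_⟩
            simp only [hw'']
            rw [if_pos ⟨huA, huv⟩]
            have := hpos u huA
            omega
          have h2 : ∑ x ∈ K, w' x ≤ m' + 1 :=
            (Finset.sum_le_sum fun u _ => hw'le u).trans (hm K hK)
          omega
        · push Not at hmeet
          have h1 : ∑ x ∈ K, w'' x = ∑ x ∈ K, w' x := by
            refine Finset.sum_congr rfl fun x hx => ?_
            simp only [hw'']
            rw [if_neg]
            rintro ⟨h2, h3⟩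
            exact h3 (hmeet x hx h2)
          have h2 : ∑ x ∈ K, w' x = ∑ i, ∑ x ∈ K, (if x ∈ A i then 1 else 0) := by
            rw [Finset.sum_comm]
            exact Finset.sum_congr rfl fun x _ => (hAw x).symm
          by_cases hvK : v ∈ K
          · have h3 : ∑ x ∈ K, w' x < ∑ x ∈ K, w x :=
              Finset.sum_lt_sum (fun x _ => hw'le x) ⟨v, hvK, by omega⟩
            have h4 := hm K hK
            omega
          · have h3 : ∑ x ∈ K, (if x ∈ A i₀ then 1 else 0) = 0 := by
              refine Finset.sum_eq_zero fun x hx => if_neg fun hxA => ?_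
              exact hvK (hmeet x hx hxA ▸ hx)
            have h4 : ∑ i, ∑ x ∈ K, (if x ∈ A i then 1 else 0) < ∑ i : Fin (m' + 1), 1 := by
              refine Finset.sum_lt_sum
                (fun i _ => Pool.Agent.KS6_47.FrkL.sum_inter_le_one hK (hA i))
                ⟨i₀, Finset.mem_univ _, ?_⟩
              rw [h3]; exact Nat.one_pos
            rw [Finset.sum_const, Finset.card_univ, Fintype.card_fin, smul_eq_mul, mul_one] at h4
            omega)
      refine ⟨Fin.cons (A i₀) B, ?_, ?_⟩
      · intro i
        refine Fin.cases ?_ (fun i => ?_) i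
        · exact hA i₀
        · exact hB i
      · intro u
        rw [Fin.sum_univ_succ]
        simp only [Fin.cons_zero, Fin.cons_succ]
        rw [hBw u]
        simp only [hw'']
        by_cases huv : u = v
        · subst huv
          rw [if_pos hi₀, if_neg (fun h => h.2 rfl)]
          omega
        · by_cases huA : u ∈ A i₀
          · rw [if_pos huA, if_pos ⟨huA, huv⟩]
            have h1 := hpos u huA
            have h2 := hw'u u huv
            omega
          · rw [if_neg huA, if_neg (fun h => huA h.1), hw'u u huv, zero_add]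

theorem perf_subst [Fintype V] {G : SimpleGraph V} {A X : Set V} (hX : X ⊆ A) (hm : Mod G A X)
    {x : V} (hx : x ∈ X) (h₁ : Perf G (insert x (A \ X))) (h₂ : Perf G X) : Perf G A := by
  classical
  intro T hTA m hTm
  by_cases hTX : T ∩ X = ∅
  · refine h₁ T ?_ m hTm
    intro v hv
    right
    refine ⟨hTA hv, fun hvX => ?_⟩
    have : v ∈ T ∩ X := ⟨hv, hvX⟩
    rw [hTX] at this
    exact this
  · obtain ⟨y₀, hy₀⟩ := Set.nonempty_iff_ne_empty.2 hTX
    have hex : ∃ k, CB G (T ∩ X) k := ⟨m, fun K hK hKc => hTm K (hK.trans Set.inter_subset_left) hKc⟩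
    set k := Nat.find hex with hk
    have hkCB : CB G (T ∩ X) k := Nat.find_spec hex
    have hkpos : 0 < k := by
      rcases Nat.eq_zero_or_pos k with h0 | h0
      · exfalso
        have h1 := hkCB {y₀} (Set.singleton_subset_iff.2 hy₀) (SimpleGraph.isClique_singleton y₀)
        rw [Set.ncard_singleton, h0] at h1
        omega
      · exact h0
    obtain ⟨K₀, hK₀X, hK₀c, hK₀n⟩ : ∃ K₀ : Set V, K₀ ⊆ T ∩ X ∧ G.IsClique K₀ ∧ k ≤ K₀.ncard := by
      have h1 : ¬ CB G (T ∩ X) (k - 1) := Nat.find_min hex (by omega)
      unfold CB at h1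
      push Not at h1
      obtain ⟨K, hK1, hK2, hK3⟩ := h1
      exact ⟨K, hK1, hK2, by omega⟩
    obtain ⟨g, hg1, hg2⟩ := h₂ (T ∩ X) Set.inter_subset_right k hkCB
    set w : V → ℕ := fun v => if v = x then k else if v ∈ T ∧ v ∉ X then 1 else 0 with hw
    have hwx : w x = k := by simp [hw]
    have hw1 : ∀ v, v ∈ T → v ∉ X → w v = 1 := by
      intro v hv hvX
      have hne : v ≠ x := fun h => hvX (h ▸ hx)
      simp only [hw]
      rw [if_neg hne, if_pos ⟨hv, hvX⟩]
    have hw0 : ∀ v, v ≠ x → ¬ (v ∈ T ∧ v ∉ X) → w v = 0 := by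
      intro v hv hvT
      simp only [hw]
      rw [if_neg hv, if_neg hvT]
    have hcompl : ∀ v, v ∈ T → v ∉ X → ∀ y ∈ X, G.Adj v y → ∀ y' ∈ X, G.Adj v y' := by
      intro v hv hvX y hy hadj
      rcases hm v (hTA hv) hvX with h3 | h3
      · exact h3
      · exact absurd hadj (h3 y hy)
    obtain ⟨B, hB, hBw⟩ := weighted_sub h₁ _ w (by
      intro v hv
      refine hw0 v (fun h => hv (Or.inl h)) ?_
      rintro ⟨h3, h4⟩
      exact hv (Or.inr ⟨hTA h3, h4⟩)) rfl m (by
      intro K hK
      set K₁ : Finset V := K.filter (fun v => v ∈ T ∧ v ∉ X) with hK₁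
      have hK₁c : G.IsClique (K₁ : Set V) := by
        intro a ha b hb hab
        rw [Finset.mem_coe, hK₁, Finset.mem_filter] at ha hb
        exact hK ha.1 hb.1 hab
      have hsumK : ∑ v ∈ K, w v = (if x ∈ K then k else 0) + K₁.card := by
        have e1 : ∀ v ∈ K, w v = (if v = x then k else 0) +
            (if v ∈ T ∧ v ∉ X then 1 else 0) := by
          intro v _
          by_cases hvx : v = x
          · rw [hvx, hwx, if_pos rfl, if_neg (fun h => h.2 hx), add_zero]
          · rw [if_neg hvx, zero_add]
            by_cases hvT : v ∈ T ∧ v ∉ X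
            · rw [hw1 v hvT.1 hvT.2, if_pos hvT]
            · rw [hw0 v hvx hvT, if_neg hvT]
        rw [Finset.sum_congr rfl e1, Finset.sum_add_distrib, Finset.sum_ite_eq', ← Finset.sum_filter,
          Finset.card_eq_sum_ones]
      rw [hsumK]
      by_cases hxK : x ∈ K
      · rw [if_pos hxK]
        have hK₀fin : K₀.Finite := Set.toFinite _
        have hclique : G.IsClique (K₀ ∪ (K₁ : Set V)) := by
          have hcross : ∀ a ∈ K₁, ∀ b ∈ K₀, G.Adj a b := by
            intro a ha b hb
            rw [hK₁, Finset.mem_filter] at ha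
            have hax : a ≠ x := fun h => ha.2.2 (h ▸ hx)
            exact hcompl a ha.2.1 ha.2.2 x hx (hK ha.1 hxK hax) b (hK₀X hb).2
          intro a ha b hb hab
          rcases ha with ha | ha <;> rcases hb with hb | hb
          · exact hK₀c ha hb hab
          · exact (hcross b hb a ha).symm
          · exact hcross a ha b hb
          · exact hK₁c ha hb hab
        have hsub : K₀ ∪ (K₁ : Set V) ⊆ T := by
          intro a ha
          rcases ha with ha | ha
          · exact (hK₀X ha).1
          · rw [Finset.mem_coe, hK₁, Finset.mem_filter] at ha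
            exact ha.2.1
        have hcard := hTm _ hsub hclique
        rw [Set.ncard_union_eq (by
          rw [Set.disjoint_left]
          intro a ha hb
          rw [Finset.mem_coe, hK₁, Finset.mem_filter] at hb
          exact hb.2.2 (hK₀X ha).2) hK₀fin (Finset.finite_toSet _), Set.ncard_coe_finset] at hcard
        omega
      · rw [if_neg hxK, zero_add]
        have hsub : (K₁ : Set V) ⊆ T := by
          intro a ha
          rw [Finset.mem_coe, hK₁, Finset.mem_filter] at ha
          exact ha.2.1
        have hcard := hTm _ hsub hK₁c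
        rwa [Set.ncard_coe_finset] at hcard)
    set I : Finset (Fin m) := Finset.univ.filter (fun i => x ∈ B i) with hI
    have hIcard : I.card = k := by
      have h3 := hBw x
      rw [← hwx, ← h3, hI, Finset.card_filter]
    have hidx : ∀ v, v ∈ T → v ∉ X → ∃ i : Fin m, v ∈ B i := by
      intro v hv hvX
      by_contra hcon
      push Not at hcon
      have h3 := hBw v
      rw [hw1 v hv hvX, Finset.sum_eq_zero (fun i _ => if_neg (hcon i))] at h3
      exact zero_ne_one h3
    set e := I.orderEmbOfFin hIcard with he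
    have heI : ∀ j, e j ∈ I := fun j => I.orderEmbOfFin_mem hIcard j
    set col : V → ℕ := fun v => if h3 : v ∈ T ∧ v ∉ X then (hidx v h3.1 h3.2).choose.val else
      if h4 : v ∈ T ∩ X then (e ⟨g v, hg1 v h4⟩).val else 0 with hcol
    have hcol1 : ∀ v (h3 : v ∈ T ∧ v ∉ X), col v = (hidx v h3.1 h3.2).choose.val := by
      intro v h3
      simp only [hcol]
      rw [dif_pos h3]
    have hcol2 : ∀ v (h4 : v ∈ T ∩ X), col v = (e ⟨g v, hg1 v h4⟩).val := by
      intro v h4
      simp only [hcol]
      rw [dif_neg (fun h3 => h3.2 h4.2), dif_pos h4]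
    have hcross : ∀ u v, u ∈ T → u ∉ X → v ∈ T → v ∈ X → G.Adj u v → col u ≠ col v := by
      intro u v hu huX hv hvX hadj heq
      rw [hcol1 u ⟨hu, huX⟩, hcol2 v ⟨hv, hvX⟩] at heq
      have h3 := Fin.ext heq
      have h4 := (hidx u hu huX).choose_spec
      rw [h3] at h4
      have h5 := heI ⟨g v, hg1 v ⟨hv, hvX⟩⟩
      rw [hI, Finset.mem_filter] at h5
      have h6 := hcompl u hu huX v hvX hadj x hx
      exact hB _ h4 h5.2 h6.ne h6
    refine ⟨col, ?_, ?_⟩
    · intro v hv
      by_cases hvX : v ∈ X
      · rw [hcol2 v ⟨hv, hvX⟩]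
        exact (e _).2
      · rw [hcol1 v ⟨hv, hvX⟩]
        exact ((hidx v hv hvX).choose).2
    · intro u hu v hv hadj
      by_cases huX : u ∈ X <;> by_cases hvX : v ∈ X
      · intro heq
        rw [hcol2 u ⟨hu, huX⟩, hcol2 v ⟨hv, hvX⟩] at heq
        have h3 := e.injective (Fin.ext heq)
        exact hg2 u ⟨hu, huX⟩ v ⟨hv, hvX⟩ hadj (congrArg Fin.val h3)
      · exact fun heq => hcross v u hv hvX hu huX hadj.symm heq.symm
      · exact hcross u v hu huX hv hvX hadj
      · intro heq
        rw [hcol1 u ⟨hu, huX⟩, hcol1 v ⟨hv, hvX⟩] at heq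
        have h3 := Fin.ext heq
        have h4 := (hidx u hu huX).choose_spec
        have h5 := (hidx v hv hvX).choose_spec
        rw [h3] at h4
        exact hB _ h4 h5 hadj.ne hadj

end Pool.Agent.KS6_47.Frk
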