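import Pool.Agent.KS6_47.Frk.Glue

/-!
# Quasi-line part: covering triples
-/

set_option autoImplicit false

namespace Pool.Agent.KS6_47.Frk

variable {V : Type}


/-- `A` contains a stable set of three vertices. -/
def HasTriple (G : SimpleGraph V) (A : Set V) : Prop :=
  ∃ x ∈ A, ∃ y ∈ A, ∃ z ∈ A, x ≠ y ∧ x ≠ z ∧ y ≠ z ∧ ¬ G.Adj x y ∧ ¬ G.Adj x z ∧ ¬ G.Adj y z

/-- The situation of step C: `A` is a heaviest perfect set with a stable triple and `K` a heavy clique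
disjoint from it. -/
structure QL [Fintype V] (G : SimpleGraph V) (w : V → ℕ) (A K : Set V) : Prop where
  cf : ClawFree G
  nw : NoWheel G
  pos : ∀ v, 0 < w v
  nc : ∀ v, ∃ c ∈ M G v, ∃ c' ∈ M G v, c ≠ c' ∧ ¬ G.Adj c c'
  perf : Perf G A
  trip : HasTriple G A
  max : ∀ A' : Set V, Perf G A' → HasTriple G A' → wt w A' ≤ wt w A
  heavy : Heavy G w Set.univ K
  disj : ∀ x ∈ K, x ∉ A

theorem wt_insert [Fintype V] (w : V → ℕ) {A : Set V} {u : V} (hu : u ∉ A) :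
    wt w (insert u A) = w u + wt w A := by
  classical
  unfold wt
  have : ∀ v, Set.indicator (insert u A) w v = (if v = u then w u else 0) + Set.indicator A w v := by
    intro v
    by_cases hv : v = u
    · subst hv
      rw [Set.indicator_of_mem (Set.mem_insert _ _), if_pos rfl, Set.indicator_of_notMem hu,
        add_zero]
    · rw [if_neg hv, zero_add]
      by_cases hA : v ∈ A
      · rw [Set.indicator_of_mem (Set.mem_insert_of_mem _ hA), Set.indicator_of_mem hA]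
      · rw [Set.indicator_of_notMem hA, Set.indicator_of_notMem]
        intro h
        rcases h with h | h
        · exact hv h
        · exact hA h
  simp only [this, Finset.sum_add_distrib, Finset.sum_ite_eq', Finset.mem_univ, if_true]

theorem QL.two_nbrs [Fintype V] {G : SimpleGraph V} {w : V → ℕ} {A K : Set V} (h : QL G w A K)
    {u : V} (hu : u ∉ A) :
    ∃ a ∈ A, ∃ b ∈ A, a ≠ b ∧ ¬ G.Adj a b ∧ G.Adj u a ∧ G.Adj u b := by
  by_contra hcon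
  have hp : Perf G (insert u A) := by
    refine perf_insert h.perf fun x hx y hy hux huy hne => ?_
    by_contra hxy
    exact hcon ⟨x, hx, y, hy, hne, hxy, hux, huy⟩
  obtain ⟨x, hx, y, hy, z, hz, hrest⟩ := h.trip
  have := h.max _ hp ⟨x, Or.inr hx, y, Or.inr hy, z, Or.inr hz, hrest⟩
  rw [wt_insert w hu] at this
  have := h.pos u
  omega

theorem QL.not_complete [Fintype V] {G : SimpleGraph V} {w : V → ℕ} {A K : Set V} (h : QL G w A K)
    {a : V} (ha : a ∈ A) : ∃ k ∈ K, ¬ G.Adj a k := by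
  by_contra hcon
  push Not at hcon
  have haK : a ∉ K := fun h' => h.disj a h' ha
  have hcl : G.IsClique (insert a K) := by
    rw [SimpleGraph.isClique_insert]
    exact ⟨h.heavy.2.1, fun b hb _ => hcon b hb⟩
  have := h.heavy.2.2 _ (Set.subset_univ _) hcl
  rw [wt_insert w haK] at this
  have := h.pos a
  omega

theorem QL.dich [Fintype V] {G : SimpleGraph V} {w : V → ℕ} {A K : Set V} (h : QL G w A K)
    {a b : V} (hab : ¬ G.Adj a b) (hne : a ≠ b) (ha : a ∈ A) (hb : b ∈ A) {k : V} (hk : k ∈ K)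
    (hka : G.Adj a k) (hkb : G.Adj b k) : ∀ k' ∈ K, G.Adj a k' ∨ G.Adj b k' := by
  intro k' hk'
  by_contra hcon
  push Not at hcon
  have hne' : k ≠ k' := fun h' => hcon.1 (h' ▸ hka)
  exact h.cf k a b k' hka.symm hkb.symm (h.heavy.2.1 hk hk' hne') hab hcon.1 hcon.2 hne
    (fun h' => h.disj k' hk' (h' ▸ ha)) (fun h' => h.disj k' hk' (h' ▸ hb))

theorem QL.third [Fintype V] {G : SimpleGraph V} {w : V → ℕ} {A K : Set V} (h : QL G w A K)
    {a b c : V} (ha : a ∈ A) (hb : b ∈ A) (hc : c ∈ A) (hab : ¬ G.Adj a b) (hac : ¬ G.Adj a c)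
    (hbc : ¬ G.Adj b c) (hab' : a ≠ b) (hac' : a ≠ c) (hbc' : b ≠ c) (hcK : ∃ k ∈ K, G.Adj c k)
    (hcov : ∀ k ∈ K, G.Adj a k ∨ G.Adj b k) :
    (∀ k ∈ K, (G.Adj a k ∧ G.Adj b k ∧ ¬ G.Adj c k) ∨ (G.Adj a k ∧ ¬ G.Adj b k ∧ G.Adj c k) ∨
      (¬ G.Adj a k ∧ G.Adj b k ∧ G.Adj c k)) := by
  have key : ∀ a b : V, a ∈ A → b ∈ A → ¬ G.Adj a c → ¬ G.Adj b c → a ≠ c → b ≠ c →
      (∀ k ∈ K, G.Adj a k ∨ G.Adj b k) → ∀ k ∈ K, G.Adj a k ∨ G.Adj c k := by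
    intro a b ha hb hac hbc hac' hbc' hcov
    by_cases hex : ∃ k ∈ K, G.Adj c k ∧ G.Adj a k
    · obtain ⟨k, hk, hck, hak⟩ := hex
      exact h.dich hac hac' ha hc hk hak hck
    · exfalso
      push Not at hex
      obtain ⟨k0, hk0, hck0⟩ := hcK
      have hbk0 : G.Adj b k0 := (hcov k0 hk0).resolve_left (hex k0 hk0 hck0)
      have hd := h.dich hbc hbc' hb hc hk0 hbk0 hck0
      obtain ⟨k', hk', hbk'⟩ := h.not_complete hb
      have hck' := (hd k' hk').resolve_left hbk'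
      rcases hcov k' hk' with h1 | h1
      · exact hex k' hk' hck' h1
      · exact hbk' h1
  have h1 := key a b ha hb hac hbc hac' hbc' hcov
  have h2 := key b a hb ha hbc hac hbc' hac' (fun k hk => (hcov k hk).symm)
  intro k hk
  have h3 : ¬ (G.Adj a k ∧ G.Adj b k ∧ G.Adj c k) := fun ⟨e1, e2, e3⟩ =>
    h.cf k a b c e1.symm e2.symm e3.symm hab hac hbc hab' hac' hbc'
  have h1' := h1 k hk
  have h2' := h2 k hk
  have h0' := hcov k hk
  tauto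

/-- the assumption that no stable triple has a covering pair -/
def NoCov (G : SimpleGraph V) (A K : Set V) : Prop :=
  ∀ a ∈ A, ∀ b ∈ A, ∀ c ∈ A, a ≠ b → a ≠ c → b ≠ c → ¬ G.Adj a b → ¬ G.Adj a c → ¬ G.Adj b c →
    (∃ k ∈ K, G.Adj c k) → ¬ ∀ k ∈ K, G.Adj a k ∨ G.Adj b k

/-- a stable triple of vertices of `A` with neighbours in `K` -/
structure TrN (G : SimpleGraph V) (A K : Set V) (c1 c2 c3 : V) : Prop where
  m1 : c1 ∈ A
  m2 : c2 ∈ A
  m3 : c3 ∈ A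
  n1 : ∃ k ∈ K, G.Adj c1 k
  n2 : ∃ k ∈ K, G.Adj c2 k
  n3 : ∃ k ∈ K, G.Adj c3 k
  d12 : c1 ≠ c2
  d13 : c1 ≠ c3
  d23 : c2 ≠ c3
  e12 : ¬ G.Adj c1 c2
  e13 : ¬ G.Adj c1 c3
  e23 : ¬ G.Adj c2 c3

theorem TrN.s12 {G : SimpleGraph V} {A K : Set V} {c1 c2 c3 : V} (t : TrN G A K c1 c2 c3) :
    TrN G A K c2 c1 c3 :=
  ⟨t.m2, t.m1, t.m3, t.n2, t.n1, t.n3, t.d12.symm, t.d23, t.d13, fun h => t.e12 h.symm, t.e23,
    t.e13⟩

theorem TrN.s23 {G : SimpleGraph V} {A K : Set V} {c1 c2 c3 : V} (t : TrN G A K c1 c2 c3) :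
    TrN G A K c1 c3 c2 :=
  ⟨t.m1, t.m3, t.m2, t.n1, t.n3, t.n2, t.d13, t.d12, t.d23.symm, t.e13, t.e12,
    fun h => t.e23 h.symm⟩

/-- disjointness of the neighbourhoods in `K` -/
theorem QL.dj [Fintype V] {G : SimpleGraph V} {w : V → ℕ} {A K : Set V} (h : QL G w A K)
    (H : NoCov G A K) {c1 c2 c3 : V} (t : TrN G A K c1 c2 c3) {k : V} (hk : k ∈ K)
    (h1 : G.Adj c1 k) (h2 : G.Adj c2 k) : False :=
  H c1 t.m1 c2 t.m2 c3 t.m3 t.d12 t.d13 t.d23 t.e12 t.e13 t.e23 t.n3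
    (h.dich t.e12 t.d12 t.m1 t.m2 hk h1 h2)

/-- the property (*) -/
theorem QL.star [Fintype V] {G : SimpleGraph V} {w : V → ℕ} {A K : Set V} (h : QL G w A K)
    {c1 c2 c3 : V} (t : TrN G A K c1 c2 c3) {a : V} (h1 : G.Adj a c1)
    (h2 : G.Adj a c2) {k : V} (hk : k ∈ K) (hak : G.Adj a k) : G.Adj c1 k ∨ G.Adj c2 k := by
  by_contra hcon
  push Not at hcon
  exact h.cf a c1 c2 k h1 h2 hak t.e12 hcon.1 hcon.2 t.d12
    (fun h' => h.disj k hk (h' ▸ t.m1)) (fun h' => h.disj k hk (h' ▸ t.m2))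

/-- if `b` is not adjacent to `c1` but adjacent to `c3` then `K_b` and `K_c1` are disjoint -/
theorem QL.sub [Fintype V] {G : SimpleGraph V} {w : V → ℕ} {A K : Set V} (h : QL G w A K)
    (H : NoCov G A K) {c1 c2 c3 : V} (t : TrN G A K c1 c2 c3) {b : V} (hb : b ∈ A)
    (hb1 : b ≠ c1) (hb2 : b ≠ c2) (hbc3 : G.Adj b c3) (hbc1 : ¬ G.Adj b c1) {k : V} (hk : k ∈ K)
    (hbk : G.Adj b k) (hck : G.Adj c1 k) : False := by
  have hcov := h.dich hbc1 hb1 hb t.m1 hk hbk hck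
  have hbc2 : G.Adj b c2 := by
    by_contra hbc2
    exact H b hb c1 t.m1 c2 t.m2 hb1 hb2 t.d12 hbc1 hbc2 t.e12 t.n2 hcov
  rcases h.star (t.s12.s23 : TrN G A K c2 c3 c1) hbc2 hbc3 hk hbk with h2 | h3
  · exact h.dj H t hk hck h2
  · exact h.dj H t.s23 hk hck h3

/-- the final configuration -/
theorem QL.fin [Fintype V] {G : SimpleGraph V} {w : V → ℕ} {A K : Set V} (h : QL G w A K)
    (H : NoCov G A K) {c1 c2 c3 : V} (t : TrN G A K c1 c2 c3) {a b : V} (_ha : a ∈ A) (hb : b ∈ A)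
    (_hab : a ≠ b) (nab : ¬ G.Adj a b)
    (hb1 : b ≠ c1) (hb2 : b ≠ c2)
    (hac1 : G.Adj a c1) (hac2 : G.Adj a c2) (hbc3 : G.Adj b c3)
    (hcov : ∀ k ∈ K, G.Adj a k ∨ G.Adj b k) {k : V} (hk : k ∈ K) (hak : G.Adj a k)
    (hbk : G.Adj b k) (hck : G.Adj c1 k) : False := by
  have hbc1 : G.Adj b c1 := by
    by_contra hbc1
    exact h.sub H t hb hb1 hb2 hbc3 hbc1 hk hbk hck
  have hbc2 : ¬ G.Adj b c2 := fun hbc2 =>
    h.cf b c1 c2 c3 hbc1 hbc2 hbc3 t.e12 t.e13 t.e23 t.d12 t.d13 t.d23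
  obtain ⟨k2, hk2, hck2⟩ := t.n2
  obtain ⟨k3, hk3, hck3⟩ := t.n3
  have hbk2 : ¬ G.Adj b k2 := fun h' =>
    h.sub H t.s12 hb hb2 hb1 hbc3 hbc2 hk2 h' hck2
  have hak2 : G.Adj a k2 := (hcov k2 hk2).resolve_right hbk2
  have hak3 : ¬ G.Adj a k3 := fun h' => by
    rcases h.star t hac1 hac2 hk3 h' with h1 | h1
    · exact h.dj H t.s23 hk3 h1 hck3
    · exact h.dj H t.s12.s23 hk3 h1 hck3
  have hbk3 : G.Adj b k3 := (hcov k3 hk3).resolve_left hak3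
  have hc1k3 : ¬ G.Adj c1 k3 := fun h1 => h.dj H t.s23 hk3 h1 hck3
  have hc1k2 : ¬ G.Adj c1 k2 := fun h1 => h.dj H t hk2 h1 hck2
  have hkk3 : k ≠ k3 := fun h' => hc1k3 (h' ▸ hck)
  have hkk2 : k ≠ k2 := fun h' => hc1k2 (h' ▸ hck)
  have hk32 : k3 ≠ k2 := fun h' => hbk2 (h' ▸ hbk3)
  have a1 : G.Adj k k3 := h.heavy.2.1 hk hk3 hkk3
  have a2 : G.Adj k k2 := h.heavy.2.1 hk hk2 hkk2
  have a3 : G.Adj k3 k2 := h.heavy.2.1 hk3 hk2 hk32
  refine h.nw k (![a, c1, b, k3, k2] : Fin 5 → V) ?_ ?_ ?_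
  · intro i
    change Fin 5 at i
    fin_cases i
    · exact hak.symm
    · exact hck.symm
    · exact hbk.symm
    · exact a1
    · exact a2
  · intro i
    change Fin 5 at i
    fin_cases i
    · exact hac1
    · exact hbc1.symm
    · exact hbk3
    · exact a3
    · exact hak2.symm
  · intro i
    change Fin 5 at i
    fin_cases i
    · exact nab
    · exact hc1k3
    · exact hbk2
    · exact fun h' => hak3 h'.symm
    · exact fun h' => hc1k2 h'.symm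

/-- the case in which two of the `c_i` are adjacent to `a` -/
theorem QL.fin' [Fintype V] {G : SimpleGraph V} {w : V → ℕ} {A K : Set V} (h : QL G w A K)
    (H : NoCov G A K) {c1 c2 c3 : V} (t : TrN G A K c1 c2 c3) {a b : V} (ha : a ∈ A) (hb : b ∈ A)
    (hab : a ≠ b) (nab : ¬ G.Adj a b)
    (hb1 : b ≠ c1) (hb2 : b ≠ c2)
    (hac1 : G.Adj a c1) (hac2 : G.Adj a c2) (hbc3 : G.Adj b c3)
    (hcov : ∀ k ∈ K, G.Adj a k ∨ G.Adj b k) {k : V} (hk : k ∈ K) (hak : G.Adj a k)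
    (hbk : G.Adj b k) : False := by
  rcases h.star t hac1 hac2 hk hak with h1 | h1
  · exact h.fin H t ha hb hab nab hb1 hb2 hac1 hac2 hbc3 hcov hk hak hbk h1
  · exact h.fin H t.s12 ha hb hab nab hb2 hb1 hac2 hac1 hbc3 hcov hk hak hbk h1

/-- `a` is not one of the `c_i` -/
theorem QL.notc [Fintype V] {G : SimpleGraph V} {w : V → ℕ} {A K : Set V} (h : QL G w A K)
    (H : NoCov G A K) {c1 c2 c3 : V} (t : TrN G A K c1 c2 c3) {b : V} (hb : b ∈ A)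
    (hab : c1 ≠ b) (nab : ¬ G.Adj c1 b)
    (hcov : ∀ k ∈ K, G.Adj c1 k ∨ G.Adj b k) {k : V} (hk : k ∈ K) (hak : G.Adj c1 k)
    (hbk : G.Adj b k) : False := by
  have key : ∀ {c1 c2 c3 : V}, TrN G A K c1 c2 c3 → c1 ≠ b → ¬ G.Adj c1 b →
      (∀ k ∈ K, G.Adj c1 k ∨ G.Adj b k) → b ≠ c2 ∧ G.Adj b c2 := by
    intro c1 c2 c3 t hab nab hcov
    have hb2 : b ≠ c2 := by
      rintro rfl
      exact H c1 t.m1 b t.m2 c3 t.m3 t.d12 t.d13 t.d23 t.e12 t.e13 t.e23 t.n3 hcov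
    refine ⟨hb2, ?_⟩
    by_contra hbc2
    exact H c1 t.m1 b hb c2 t.m2 hab t.d12 hb2 nab t.e12 hbc2 t.n2 hcov
  obtain ⟨-, h2⟩ := key t hab nab hcov
  obtain ⟨-, h3⟩ := key t.s23 hab nab hcov
  rcases h.star (t.s12.s23 : TrN G A K c2 c3 c1) h2 h3 hk hbk with h4 | h4
  · exact h.dj H t hk hak h4
  · exact h.dj H t.s23 hk hak h4

theorem QL.covTriple [Fintype V] {G : SimpleGraph V} {w : V → ℕ} {A K : Set V} (h : QL G w A K)
    (ht : HasTriple G {a | a ∈ A ∧ ∃ k ∈ K, G.Adj a k}) :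
    ∃ a ∈ A, ∃ b ∈ A, ∃ c ∈ A, a ≠ b ∧ a ≠ c ∧ b ≠ c ∧ ¬ G.Adj a b ∧ ¬ G.Adj a c ∧ ¬ G.Adj b c ∧
      (∀ k ∈ K, (G.Adj a k ∧ G.Adj b k ∧ ¬ G.Adj c k) ∨ (G.Adj a k ∧ ¬ G.Adj b k ∧ G.Adj c k) ∨
        (¬ G.Adj a k ∧ G.Adj b k ∧ G.Adj c k)) := by
  by_contra hcon
  have H : NoCov G A K := by
    intro a ha b hb c hc hab hac hbc nab nac nbc hn hcov
    exact hcon ⟨a, ha, b, hb, c, hc, hab, hac, hbc, nab, nac, nbc,
      h.third ha hb hc nab nac nbc hab hac hbc hn hcov⟩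
  obtain ⟨c1, ⟨m1, n1⟩, c2, ⟨m2, n2⟩, c3, ⟨m3, n3⟩, d12, d13, d23, e12, e13, e23⟩ := ht
  have t : TrN G A K c1 c2 c3 := ⟨m1, m2, m3, n1, n2, n3, d12, d13, d23, e12, e13, e23⟩
  obtain ⟨k, hk, -⟩ := id n1
  have hkA : k ∉ A := h.disj k hk
  obtain ⟨a, ha, b, hb, hab, nab, hka, hkb⟩ := h.two_nbrs hkA
  have hcov := h.dich nab hab ha hb hk hka.symm hkb.symm
  have hcov' : ∀ k ∈ K, G.Adj b k ∨ G.Adj a k := fun k hk => (hcov k hk).symm
  have nba : ¬ G.Adj b a := fun h' => nab h'.symm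
  have ha1 : a ≠ c1 := by
    rintro rfl
    exact h.notc H t hb hab nab hcov hk hka.symm hkb.symm
  have ha2 : a ≠ c2 := by
    rintro rfl
    exact h.notc H t.s12 hb hab nab hcov hk hka.symm hkb.symm
  have ha3 : a ≠ c3 := by
    rintro rfl
    exact h.notc H t.s23.s12 hb hab nab hcov hk hka.symm hkb.symm
  have hb1 : b ≠ c1 := by
    rintro rfl
    exact h.notc H t ha hab.symm nba hcov' hk hkb.symm hka.symm
  have hb2 : b ≠ c2 := by
    rintro rfl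
    exact h.notc H t.s12 ha hab.symm nba hcov' hk hkb.symm hka.symm
  have hb3 : b ≠ c3 := by
    rintro rfl
    exact h.notc H t.s23.s12 ha hab.symm nba hcov' hk hkb.symm hka.symm
  have key : ∀ c ∈ A, (∃ k ∈ K, G.Adj c k) → a ≠ c → b ≠ c → G.Adj a c ∨ G.Adj b c := by
    intro c hc hn hac hbc
    by_contra hcon
    push Not at hcon
    exact H a ha b hb c hc hab hac hbc nab hcon.1 hcon.2 hn hcov
  rcases key c1 m1 n1 ha1 hb1 with h1 | h1 <;> rcases key c2 m2 n2 ha2 hb2 with h2 | h2 <;>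
    rcases key c3 m3 n3 ha3 hb3 with h3 | h3
  · exact h.cf a c1 c2 c3 h1 h2 h3 e12 e13 e23 d12 d13 d23
  · exact h.fin' H t ha hb hab nab hb1 hb2 h1 h2 h3 hcov hk hka.symm hkb.symm
  · exact h.fin' H t.s23 ha hb hab nab hb1 hb3 h1 h3 h2 hcov hk hka.symm hkb.symm
  · exact h.fin' H t.s12.s23 hb ha hab.symm nba ha2 ha3 h2 h3 h1 hcov' hk hkb.symm hka.symm
  · exact h.fin' H t.s12.s23 ha hb hab nab hb2 hb3 h2 h3 h1 hcov hk hka.symm hkb.symm
  · exact h.fin' H t.s23 hb ha hab.symm nba ha1 ha3 h1 h3 h2 hcov' hk hkb.symm hka.symm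
  · exact h.fin' H t hb ha hab.symm nba ha1 ha2 h1 h2 h3 hcov' hk hkb.symm hka.symm
  · exact h.cf b c1 c2 c3 h1 h2 h3 e12 e13 e23 d12 d13 d23

end Pool.Agent.KS6_47.Frk
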