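import Pool.Agent.KS6_47.Frk.QLTriple

/-!
# Quasi-line part: conclusion
-/

set_option autoImplicit false

namespace Pool.Agent.KS6_47.Frk

variable {V : Type}


lemma wt_unionE [Fintype V] (w : V → ℕ) {X Y : Set V} (h : ∀ x ∈ X, x ∉ Y) :
    wt w (X ∪ Y) = wt w X + wt w Y := by
  unfold wt
  rw [Set.indicator_union_of_disjoint (Set.disjoint_left.2 h), ← Finset.sum_add_distrib]

lemma wt_single [Fintype V] (w : V → ℕ) (v : V) : wt w {v} = w v := by
  classical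
  unfold wt
  rw [Finset.sum_eq_single v]
  · simp
  · intro b _ hb
    simp [hb]
  · intro hv; exact absurd (Finset.mem_univ v) hv

lemma wt_insertE [Fintype V] (w : V → ℕ) {X : Set V} {v : V} (h : v ∉ X) :
    wt w (insert v X) = w v + wt w X := by
  rw [Set.insert_eq, wt_unionE, wt_single]
  intro x hx
  rw [Set.mem_singleton_iff] at hx
  rwa [hx]

lemma HasTriple.mono {G : SimpleGraph V} {A B : Set V} (h : HasTriple G A) (hAB : A ⊆ B) :
    HasTriple G B := by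
  obtain ⟨x, hx, y, hy, z, hz, h'⟩ := h
  exact ⟨x, hAB hx, y, hAB hy, z, hAB hz, h'⟩

lemma no_triple_two {G : SimpleGraph V} {S T : Set V} (hS : G.IsClique S) (hT : G.IsClique T) :
    ¬ HasTriple G (S ∪ T) := by
  rintro ⟨x, hx, y, hy, z, hz, hxy, hxz, hyz, nxy, nxz, nyz⟩
  rcases hx with hx | hx <;> rcases hy with hy | hy <;> rcases hz with hz | hz
  · exact nxy (hS hx hy hxy)
  · exact nxy (hS hx hy hxy)
  · exact nxz (hS hx hz hxz)
  · exact nyz (hT hy hz hyz)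
  · exact nyz (hS hy hz hyz)
  · exact nxz (hT hx hz hxz)
  · exact nxy (hT hx hy hxy)
  · exact nxy (hT hx hy hxy)

/-- the two cliques which cover the part of `A` with neighbours in `K` -/
structure ST (G : SimpleGraph V) (A K S T : Set V) : Prop where
  cS : G.IsClique S
  cT : G.IsClique T
  dis : ∀ x ∈ S, x ∉ T
  un : ∀ x, (x ∈ S ∨ x ∈ T) ↔ x ∈ A ∧ ∃ k ∈ K, G.Adj x k

lemma ST.symm {G : SimpleGraph V} {A K S T : Set V} (s : ST G A K S T) : ST G A K T S where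
  cS := s.cT
  cT := s.cS
  dis := fun x hx hx' => s.dis x hx' hx
  un := fun x => by rw [or_comm]; exact s.un x

section

variable [Fintype V] {G : SimpleGraph V} {w : V → ℕ} {A K S T : Set V}

lemma QL.K_ne (h : QL G w A K) : K.Nonempty := by
  obtain ⟨x, _⟩ := h.trip
  by_contra hK
  rw [Set.not_nonempty_iff_eq_empty] at hK
  have h1 := h.heavy.2.2 {x} (Set.subset_univ _) (by simp)
  rw [wt_single, hK] at h1
  have h2 := h.pos x
  have h3 : wt w (∅ : Set V) = 0 := by simp [wt]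
  omega

lemma QL.nbrs (h : QL G w A K) (s : ST G A K S T) {k : V} (hk : k ∈ K) :
    (∃ a ∈ S, G.Adj k a) ∧ ∃ a ∈ T, G.Adj k a := by
  obtain ⟨a, ha, b, hb, hab, nab, hka, hkb⟩ := h.two_nbrs (h.disj k hk)
  have h1 := (s.un a).2 ⟨ha, k, hk, hka.symm⟩
  have h2 := (s.un b).2 ⟨hb, k, hk, hkb.symm⟩
  rcases h1 with h1 | h1 <;> rcases h2 with h2 | h2
  · exact absurd (s.cS h1 h2 hab) nab
  · exact ⟨⟨a, h1, hka⟩, ⟨b, h2, hkb⟩⟩
  · exact ⟨⟨b, h2, hkb⟩, ⟨a, h1, hka⟩⟩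
  · exact absurd (s.cT h1 h2 hab) nab

lemma QL.A0_ne (h : QL G w A K) : ∃ a ∈ A, ∀ k ∈ K, ¬ G.Adj a k := by
  by_contra hc
  push Not at hc
  exact h.noTriple (h.trip.mono fun a ha => ⟨ha, hc a ha⟩)

lemma QL.perf1 (h : QL G w A K) (s : ST G A K S T) : Perf G ((A \ S) ∪ K) := by
  have e : (A \ S) ∪ K = ({a | a ∈ A ∧ ∀ k ∈ K, ¬ G.Adj a k} ∪ T) ∪ (T ∪ K) := by
    ext x
    simp only [Set.mem_union, Set.mem_diff, Set.mem_setOf_eq]
    constructor
    · rintro (⟨hx, hxS⟩ | hx)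
      · by_cases hxN : ∃ k ∈ K, G.Adj x k
        · rcases (s.un x).2 ⟨hx, hxN⟩ with h1 | h1
          · exact absurd h1 hxS
          · exact Or.inl (Or.inr h1)
        · push Not at hxN
          exact Or.inl (Or.inl ⟨hx, hxN⟩)
      · exact Or.inr (Or.inr hx)
    · rintro ((⟨hx, hx0⟩ | hx) | (hx | hx))
      · refine Or.inl ⟨hx, fun hxS => ?_⟩
        obtain ⟨_, k, hk, hxk⟩ := (s.un x).1 (Or.inl hxS)
        exact hx0 k hk hxk
      · exact Or.inl ⟨((s.un x).1 (Or.inr hx)).1, fun hxS => s.dis x hxS hx⟩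
      · exact Or.inl ⟨((s.un x).1 (Or.inr hx)).1, fun hxS => s.dis x hxS hx⟩
      · exact Or.inr hx
  rw [e]
  have hsubA : ({a | a ∈ A ∧ ∀ k ∈ K, ¬ G.Adj a k} ∪ T) ⊆ A := by
    rintro x (hx | hx)
    · exact hx.1
    · exact ((s.un x).1 (Or.inr hx)).1
  apply perf_glue (h.perf.mono hsubA) (perf_two_cliques s.cT h.heavy.2.1)
  · intro x hx y hy hxy
    have aux : ∀ z, z ∈ ({a | a ∈ A ∧ ∀ k ∈ K, ¬ G.Adj a k} ∪ T) ∩ (T ∪ K) → z ∈ T := by
      rintro z ⟨hz1, hz2 | hz2⟩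
      · exact hz2
      · exact absurd (hsubA hz1) (h.disj z hz2)
    exact s.cT (aux x hx) (aux y hy) hxy
  · intro a ha ha' b hb hb' hab
    rcases ha with ha | ha
    · rcases hb with hb | hb
      · exact hb' (Or.inr hb)
      · exact ha.2 b hb hab
    · exact ha' (Or.inl ha)

lemma QL.trip1 (h : QL G w A K) (s : ST G A K S T) : HasTriple G ((A \ S) ∪ K) := by
  by_contra hc
  obtain ⟨k0, hk0⟩ := h.K_ne
  have hA0S : ∀ a ∈ A, (∀ k ∈ K, ¬ G.Adj a k) → a ∈ (A \ S) ∪ K := by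
    intro a ha ha0
    refine Or.inl ⟨ha, fun haS => ?_⟩
    obtain ⟨_, k, hk, hxk⟩ := (s.un a).1 (Or.inl haS)
    exact ha0 k hk hxk
  have hTm : ∀ t ∈ T, t ∈ (A \ S) ∪ K := fun t ht =>
    Or.inl ⟨((s.un t).1 (Or.inr ht)).1, fun htS => s.dis t htS ht⟩
  have hKne : ∀ a ∈ A, ∀ k ∈ K, a ≠ k := fun a ha k hk hak => h.disj k hk (hak ▸ ha)
  have hcl : G.IsClique (T ∪ {a | a ∈ A ∧ ∀ k ∈ K, ¬ G.Adj a k}) := by
    have h1 : ∀ a, a ∈ A → (∀ k ∈ K, ¬ G.Adj a k) → ∀ t ∈ T, G.Adj a t := by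
      intro a ha ha0 t ht
      by_contra hat
      have htA := ((s.un t).1 (Or.inr ht)).1
      obtain ⟨k, hk, htk⟩ := h.not_complete htA
      refine hc ⟨a, hA0S a ha ha0, t, hTm t ht, k, Or.inr hk, ?_, hKne a ha k hk,
        hKne t htA k hk, hat, ha0 k hk, htk⟩
      rintro rfl
      obtain ⟨_, k', hk', hxk'⟩ := (s.un a).1 (Or.inr ht)
      exact ha0 k' hk' hxk'
    rintro x (hx | hx) y (hy | hy) hxy
    · exact s.cT hx hy hxy
    · exact (h1 y hy.1 hy.2 x hx).symm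
    · exact h1 x hx.1 hx.2 y hy
    · by_contra hat
      exact hc ⟨x, hA0S x hx.1 hx.2, y, hA0S y hy.1 hy.2, k0, Or.inr hk0, hxy,
        hKne x hx.1 k0 hk0, hKne y hy.1 k0 hk0, hat, hx.2 k0 hk0, hy.2 k0 hk0⟩
  refine no_triple_two s.cS hcl (h.trip.mono ?_)
  intro x hx
  by_cases hxN : ∃ k ∈ K, G.Adj x k
  · rcases (s.un x).2 ⟨hx, hxN⟩ with h1 | h1
    · exact Or.inl h1
    · exact Or.inr (Or.inl h1)
  · push Not at hxN
    exact Or.inr (Or.inr ⟨hx, hxN⟩)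

lemma QL.wt1 (h : QL G w A K) (s : ST G A K S T) : wt w S = wt w K := by
  apply le_antisymm
  · exact h.heavy.2.2 S (Set.subset_univ _) s.cS
  · have h1 := h.max _ (h.perf1 s) (h.trip1 s)
    rw [wt_unionE w (fun x hx hxK => h.disj x hxK hx.1)] at h1
    have h2 : wt w A = wt w (A \ S) + wt w S := by
      rw [← wt_unionE w (fun x hx => hx.2)]
      congr 1
      ext x
      simp only [Set.mem_union, Set.mem_diff]
      constructor
      · intro hx
        by_cases hxS : x ∈ S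
        · exact Or.inr hxS
        · exact Or.inl ⟨hx, hxS⟩
      · rintro (hx | hx)
        · exact hx.1
        · exact ((s.un x).1 (Or.inl hx)).1
    omega

lemma QL.swap (h : QL G w A K) (s : ST G A K S T) : QL G w ((A \ S) ∪ K) S where
  cf := h.cf
  nw := h.nw
  pos := h.pos
  nc := h.nc
  perf := h.perf1 s
  trip := h.trip1 s
  max := by
    intro A' h1 h2
    refine (h.max A' h1 h2).trans ?_
    rw [wt_unionE w (fun x hx hxK => h.disj x hxK hx.1), ← h.wt1 s,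
      ← wt_unionE w (fun x hx => hx.2)]
    have : A = A \ S ∪ S := by
      ext x
      simp only [Set.mem_union, Set.mem_diff]
      constructor
      · intro hx
        by_cases hxS : x ∈ S
        · exact Or.inr hxS
        · exact Or.inl ⟨hx, hxS⟩
      · rintro (hx | hx)
        · exact hx.1
        · exact ((s.un x).1 (Or.inl hx)).1
    rw [← this]
  heavy := by
    refine ⟨Set.subset_univ _, s.cS, fun K' hK' hc => ?_⟩
    rw [h.wt1 s]
    exact h.heavy.2.2 K' hK' hc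
  disj := by
    rintro x hx (hx' | hx')
    · exact hx'.2 hx
    · exact h.disj x hx' ((s.un x).1 (Or.inl hx)).1

/-- steps (4), (5), (6) -/
lemma QL.final (h : QL G w A K) (s : ST G A K S T) {x t0 : V} (hxA : x ∈ A)
    (hx0 : ∀ k ∈ K, ¬ G.Adj x k) (ht0 : t0 ∈ T) (hxt : G.Adj x t0) : False := by
  classical
  have hKne : ∀ a ∈ A, ∀ k ∈ K, a ≠ k := fun a ha k hk hak => h.disj k hk (hak ▸ ha)
  have hSA : ∀ a ∈ S, a ∈ A := fun a ha => ((s.un a).1 (Or.inl ha)).1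
  have hTA : ∀ a ∈ T, a ∈ A := fun a ha => ((s.un a).1 (Or.inr ha)).1
  have hxS : x ∉ S := by
    intro hx
    obtain ⟨_, k, hk, hxk⟩ := (s.un x).1 (Or.inl hx)
    exact hx0 k hk hxk
  have hxT : x ∉ T := by
    intro hx
    obtain ⟨_, k, hk, hxk⟩ := (s.un x).1 (Or.inr hx)
    exact hx0 k hk hxk
  -- (4)
  have h4 : ∀ y ∈ S, (∃ t ∈ T, G.Adj y t) → G.Adj x y := by
    intro y hy hyT
    by_contra hxy
    obtain ⟨k, hk, hyk⟩ := h.not_complete (hSA y hy)
    have hq := (h.swap s.symm).noTriple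
    apply hq
    refine ⟨x, ⟨Or.inl ⟨hxA, hxT⟩, t0, ht0, hxt⟩, y,
      ⟨Or.inl ⟨hSA y hy, s.dis y hy⟩, hyT⟩, k, ⟨Or.inr hk, (h.nbrs s hk).2⟩, ?_,
      hKne x hxA k hk, hKne y (hSA y hy) k hk, hxy, hx0 k hk, hyk⟩
    rintro rfl
    exact hxS hy
  -- (5)
  obtain ⟨t, ht, htmin⟩ : ∃ t ∈ T, ∀ t' ∈ T,
      {k | k ∈ K ∧ G.Adj t k}.ncard ≤ {k | k ∈ K ∧ G.Adj t' k}.ncard := by
    have hTf : T.Finite := Set.toFinite T
    obtain ⟨t, ht, h'⟩ := hTf.exists_minimalFor (fun t => {k | k ∈ K ∧ G.Adj t k}.ncard) T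
      ⟨t0, ht0⟩
    refine ⟨t, ht, fun t' ht' => ?_⟩
    by_contra hlt
    rw [not_le] at hlt
    exact absurd (h' ht' hlt.le) (not_le.2 hlt)
  have h5 : ∀ y ∈ S, (∀ t ∈ T, ¬ G.Adj y t) → ∀ k ∈ K, G.Adj t k → ¬ G.Adj y k := by
    intro y hy hyT k hk htk hyk
    have hne : ∀ t' ∈ T, y ≠ t' := fun t' ht' e => s.dis y hy (e ▸ ht')
    have hd := h.dich (hyT t ht) (hne t ht) (hSA y hy) (hTA t ht) hk hyk htk
    by_cases hall : ∀ t' ∈ T, ∃ k' ∈ K, G.Adj t' k' ∧ G.Adj y k'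
    · obtain ⟨k1, hk1, hyk1⟩ := h.not_complete (hSA y hy)
      have hcl : G.IsClique (insert k1 T) := by
        rw [SimpleGraph.isClique_insert]
        refine ⟨s.cT, fun t' ht' _ => ?_⟩
        obtain ⟨k', hk', e1, e2⟩ := hall t' ht'
        rcases h.dich (hyT t' ht') (hne t' ht') (hSA y hy) (hTA t' ht') hk' e2 e1 k1 hk1 with
          e | e
        · exact absurd e hyk1
        · exact e.symm
      have h6 := h.heavy.2.2 _ (Set.subset_univ _) hcl
      rw [wt_insertE w (fun hk1T => h.disj k1 hk1 (hTA k1 hk1T)), ← h.wt1 s.symm] at h6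
      have := h.pos k1
      omega
    · push Not at hall
      obtain ⟨t', ht', hall'⟩ := hall
      have hss : {k | k ∈ K ∧ G.Adj t' k} ⊂ {k | k ∈ K ∧ G.Adj t k} := by
        rw [Set.ssubset_iff_of_subset]
        · exact ⟨k, ⟨hk, htk⟩, fun hk' => hall' k hk hk'.2 hyk⟩
        · rintro k' ⟨hk', e⟩
          refine ⟨hk', ?_⟩
          rcases hd k' hk' with e' | e'
          · exact absurd e' (hall' k' hk' e)
          · exact e'
      have := Set.ncard_lt_ncard hss (Set.toFinite _)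
      have := htmin t' ht'
      omega
  -- (6)
  obtain ⟨_, k, hk, htk⟩ := (s.un t).1 (Or.inr ht)
  obtain ⟨s1, hs1, hks1⟩ := (h.nbrs s hk).1
  have hs1T : ∃ t' ∈ T, G.Adj s1 t' := by
    by_contra hc
    push Not at hc
    exact h5 s1 hs1 hc k hk htk hks1.symm
  have hxs1 := h4 s1 hs1 hs1T
  have hcomp : ∀ y ∈ S, G.Adj x y := by
    intro y hy
    by_cases hyT : ∃ t' ∈ T, G.Adj y t'
    · exact h4 y hy hyT
    · by_contra hxy
      have hyT' : ∀ t' ∈ T, ¬ G.Adj y t' := by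
        intro t' ht' e
        exact hyT ⟨t', ht', e⟩
      have hs1y : s1 ≠ y := by
        rintro rfl
        exact hyT hs1T
      have hyk := h5 y hy hyT' k hk htk
      refine h.cf s1 x k y hxs1.symm hks1.symm (s.cS hs1 hy hs1y) (hx0 k hk) hxy
        (fun e => hyk e.symm) (hKne x hxA k hk) ?_ (hKne y (hSA y hy) k hk).symm
      rintro rfl
      exact hxS hy
  have hcl : G.IsClique (insert x S) := by
    rw [SimpleGraph.isClique_insert]
    exact ⟨s.cS, fun y hy _ => hcomp y hy⟩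
  have h6 := h.heavy.2.2 _ (Set.subset_univ _) hcl
  rw [wt_insertE w hxS, h.wt1 s] at h6
  have := h.pos x
  omega

/-- step (3) -/
lemma QL.exists_edge (h : QL G w A K) (conn : ∀ P : Set V, P.Nonempty → P ≠ Set.univ →
    ∃ p ∈ P, ∃ q, q ∉ P ∧ G.Adj p q) :
    ∃ x ∈ A, (∀ k ∈ K, ¬ G.Adj x k) ∧ ∃ y ∈ A, (∃ k ∈ K, G.Adj y k) ∧ G.Adj x y := by
  by_contra hc
  push Not at hc
  have hA : ∀ a ∈ A, (∀ k ∈ K, ¬ G.Adj a k) ∨ ∃ k ∈ K, G.Adj a k := by
    intro a _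
    by_cases h1 : ∃ k ∈ K, G.Adj a k
    · exact Or.inr h1
    · push Not at h1
      exact Or.inl h1
  have hne : ∀ a b, (∀ k ∈ K, ¬ G.Adj a k) → (∃ k ∈ K, G.Adj b k) → a ≠ b := by
    rintro a b h1 ⟨k, hk, h2⟩ rfl
    exact h1 k hk h2
  -- a vertex outside cannot have neighbours in both parts
  have key : ∀ u, u ∉ A → ∀ a ∈ A, (∀ k ∈ K, ¬ G.Adj a k) → G.Adj u a →
      ∀ b ∈ A, (∃ k ∈ K, G.Adj b k) → ¬ G.Adj u b := by
    intro u hu a ha ha0 hua b hb hbN hub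
    have p1 : Perf G (insert u {a | a ∈ A ∧ ∀ k ∈ K, ¬ G.Adj a k}) := by
      apply perf_insert (h.perf.mono fun a ha => ha.1)
      intro c hc' d hd huc hud hcd
      by_contra hncd
      exact h.cf u c d b huc hud hub hncd (hc c hc'.1 hc'.2 b hb hbN) (hc d hd.1 hd.2 b hb hbN)
        hcd (hne c b hc'.2 hbN) (hne d b hd.2 hbN)
    have p2 : Perf G (insert u {a | a ∈ A ∧ ∃ k ∈ K, G.Adj a k}) := by
      apply perf_insert (h.perf.mono fun a ha => ha.1)
      intro c hc' d hd huc hud hcd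
      by_contra hncd
      exact h.cf u a c d hua huc hud (hc a ha ha0 c hc'.1 hc'.2) (hc a ha ha0 d hd.1 hd.2) hncd
        (hne a c ha0 hc'.2) (hne a d ha0 hd.2) hcd
    have p3 := perf_glue p1 p2 (by
      have aux : ∀ z, z ∈ insert u {a | a ∈ A ∧ ∀ k ∈ K, ¬ G.Adj a k} ∩
          insert u {a | a ∈ A ∧ ∃ k ∈ K, G.Adj a k} → z = u := by
        rintro z ⟨hz1, hz2⟩
        rcases hz1 with rfl | hz1
        · rfl
        · rcases hz2 with rfl | hz2
          · rfl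
          · exact absurd rfl (hne z z hz1.2 hz2.2)
      intro z hz z' hz' hzz
      exact absurd ((aux z hz).trans (aux z' hz').symm) hzz) (by
      intro z hz hz' y hy hy' hzy
      rcases hz with rfl | hz
      · exact hz' (Set.mem_insert _ _)
      · rcases hy with rfl | hy
        · exact hy' (Set.mem_insert _ _)
        · exact hc z hz.1 hz.2 y hy.1 hy.2 hzy)
    have p4 : Perf G (insert u A) := by
      apply p3.mono
      rintro z (rfl | hz)
      · exact Or.inl (Set.mem_insert _ _)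
      · rcases hA z hz with h1 | h1
        · exact Or.inl (Or.inr ⟨hz, h1⟩)
        · exact Or.inr (Or.inr ⟨hz, h1⟩)
    have h5 := h.max _ p4 (h.trip.mono (Set.subset_insert _ _))
    rw [wt_insertE w hu] at h5
    have := h.pos u
    omega
  obtain ⟨a0, ha0, ha0'⟩ := h.A0_ne
  obtain ⟨k0, hk0⟩ := h.K_ne
  obtain ⟨p, hp, q, hq, hpq⟩ := conn
    ({a | a ∈ A ∧ ∀ k ∈ K, ¬ G.Adj a k} ∪
      {u | u ∉ A ∧ ∃ a ∈ A, (∀ k ∈ K, ¬ G.Adj a k) ∧ G.Adj u a})
    ⟨a0, Or.inl ⟨ha0, ha0'⟩⟩ (by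
      intro he
      have hk : k0 ∈ ({a | a ∈ A ∧ ∀ k ∈ K, ¬ G.Adj a k} ∪
        {u | u ∉ A ∧ ∃ a ∈ A, (∀ k ∈ K, ¬ G.Adj a k) ∧ G.Adj u a}) := by
        rw [he]; exact Set.mem_univ _
      rcases hk with hk | ⟨_, a, _, ha', hka⟩
      · exact h.disj k0 hk0 hk.1
      · exact ha' k0 hk0 hka.symm)
  rcases hp with ⟨hpA, hp0⟩ | ⟨hpA, a, haA, ha', hpa⟩
  · by_cases hqA : q ∈ A
    · rcases hA q hqA with h1 | h1
      · exact hq (Or.inl ⟨hqA, h1⟩)
      · exact hc p hpA hp0 q hqA h1 hpq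
    · exact hq (Or.inr ⟨hqA, p, hpA, hp0, hpq.symm⟩)
  · have hpN := key p hpA a haA ha' hpa
    have hqA : q ∉ A := by
      intro hqA
      rcases hA q hqA with h1 | h1
      · exact hq (Or.inl ⟨hqA, h1⟩)
      · exact hpN q hqA h1 hpq
    obtain ⟨c, hcA, d, hdA, hcd, hncd, hpc, hpd⟩ := h.two_nbrs hpA
    have hc0 : ∀ k ∈ K, ¬ G.Adj c k := by
      rcases hA c hcA with h1 | h1
      · exact h1
      · exact absurd hpc (hpN c hcA h1)
    have hd0 : ∀ k ∈ K, ¬ G.Adj d k := by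
      rcases hA d hdA with h1 | h1
      · exact h1
      · exact absurd hpd (hpN d hdA h1)
    refine h.cf p c d q hpc hpd hpq hncd ?_ ?_ hcd ?_ ?_
    · intro hcq
      exact hq (Or.inr ⟨hqA, c, hcA, hc0, hcq.symm⟩)
    · intro hdq
      exact hq (Or.inr ⟨hqA, d, hdA, hd0, hdq.symm⟩)
    · rintro rfl
      exact hqA hcA
    · rintro rfl
      exact hqA hdA

end

theorem QL.false [Fintype V] {G : SimpleGraph V} {w : V → ℕ} {A K : Set V} (h : QL G w A K)
    (conn : ∀ P : Set V, P.Nonempty → P ≠ Set.univ → ∃ p ∈ P, ∃ q, q ∉ P ∧ G.Adj p q) : False := by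
  classical
  have hnt := h.noTriple
  obtain ⟨S, T, hS, hT, hST, hun⟩ := two_cliques_of_perf
    (A := {a | a ∈ A ∧ ∃ k ∈ K, G.Adj a k}) (h.perf.mono fun a ha => ha.1) (by
      intro x hx y hy z hz hxy hxz hyz
      by_contra hc
      push Not at hc
      exact hnt ⟨x, hx, y, hy, z, hz, hxy, hxz, hyz, hc.1, hc.2.1, hc.2.2⟩)
  have s : ST G A K S T :=
    { cS := hS
      cT := hT
      dis := fun x hx => Set.disjoint_left.1 hST hx
      un := fun x => by
        have := Set.ext_iff.1 hun x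
        simpa only [Set.mem_union, Set.mem_setOf_eq] using this }
  obtain ⟨x, hxA, hx0, y, hyA, hyN, hxy⟩ := h.exists_edge conn
  rcases (s.un y).2 ⟨hyA, hyN⟩ with hy | hy
  · exact h.final s.symm hxA hx0 hy hxy
  · exact h.final s hxA hx0 hy hxy

end Pool.Agent.KS6_47.Frk
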