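import Pool.Agent.KS6_47.Frk.QLEnd
import Pool.Agent.KS6_47.Frk.CoreProps

/-!
# Claw-free minimal counterexamples contain 5-wheels
-/

set_option autoImplicit false

namespace Pool.Agent.KS6_47.Frk

variable {V : Type}

theorem goodSet_of_noWheel [Fintype V] [Nonempty V] {G : SimpleGraph V} {w : V → ℕ}
    (hcf : ClawFree G) (hc : Core G) (hnw : NoWheel G) (hw : ∀ v, 0 < w v) :
    GoodSet G w Set.univ := by
  classical
  have hnc : ∀ v, ∃ c ∈ M G v, ∃ c' ∈ M G v, c ≠ c' ∧ ¬ G.Adj c c' := by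
    intro v
    by_contra hcon
    push Not at hcon
    exact hc.not_perf_M v (perf_clique (fun x hx y hy hxy => hcon x hx y hy hxy))
  have hex : ∃ A : Set V, Perf G A ∧ HasTriple G A := by
    obtain ⟨v⟩ := ‹Nonempty V›
    obtain ⟨c, hc1, c', hc2, hne, hadj⟩ := hnc v
    refine ⟨insert v (insert c {c'}), ?_, ?_⟩
    · refine perf_insert (perf_insert (perf_clique ?_) ?_) ?_
      · simp
      · intro x hx y hy _ _ hxy
        rw [Set.mem_singleton_iff] at hx hy
        exact absurd (hx.trans hy.symm) hxy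
      · intro x hx y hy h1 h2 hxy
        rcases hx with rfl | hx
        · exact absurd h1 hc1.2
        · rw [Set.mem_singleton_iff] at hx
          subst hx
          exact absurd h1 hc2.2
    · exact ⟨v, by simp, c, by simp, c', by simp, hc1.1.symm, hc2.1.symm, hne, hc1.2, hc2.2, hadj⟩
  have hfin : Set.Finite {A : Set V | Perf G A ∧ HasTriple G A} := Set.toFinite _
  obtain ⟨A, hA, hmax⟩ := Set.exists_max_image _ (wt w) hfin hex
  by_contra hbad
  have hK : ∃ K, Heavy G w Set.univ K ∧ ¬ (K ∩ A).Nonempty := by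
    by_contra hcon
    push Not at hcon
    exact hbad ⟨A, Set.subset_univ _, hA.1, hcon⟩
  obtain ⟨K, hK1, hK2⟩ := hK
  exact QL.false (A := A) (K := K) ⟨hcf, hnw, hw, hnc, hA.1, hA.2, fun A' h1 h2 => hmax A' ⟨h1, h2⟩, hK1,
    fun x hx hxA => hK2 ⟨x, hx, hxA⟩⟩ hc.conn

end Pool.Agent.KS6_47.Frk
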