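import Pool.Agent.KS6_47.Frk.QLCov
import Pool.Agent.KS6_47.Frk.TwoCliques

/-!
# Quasi-line part: no stable triple among the attachments
-/

set_option autoImplicit false

namespace Pool.Agent.KS6_47.Frk

variable {V : Type}


section NoTripleAux

theorem noWheel5 {G : SimpleGraph V} (h : NoWheel G) {v a b c d e : V} (va : G.Adj v a)
    (vb : G.Adj v b) (vc : G.Adj v c) (vd : G.Adj v d) (ve : G.Adj v e) (ab : G.Adj a b)
    (bc : G.Adj b c) (cd : G.Adj c d) (de : G.Adj d e) (ea : G.Adj e a) (ac : ¬ G.Adj a c)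
    (bd : ¬ G.Adj b d) (ce : ¬ G.Adj c e) (da : ¬ G.Adj d a) (eb : ¬ G.Adj e b) : False := by
  refine h v (![a, b, c, d, e] : Fin 5 → V) ?_ ?_ ?_
  · intro i
    change Fin 5 at i
    fin_cases i <;> assumption
  · intro i
    change Fin 5 at i
    fin_cases i <;> assumption
  · intro i
    change Fin 5 at i
    fin_cases i <;> assumption

theorem wt_union [Fintype V] (w : V → ℕ) {S T : Set V} (h : Disjoint S T) :
    wt w (S ∪ T) = wt w S + wt w T := by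
  unfold wt
  rw [← Finset.sum_add_distrib]
  refine Finset.sum_congr rfl fun v _ => ?_
  rw [Set.indicator_union_of_disjoint h]

theorem wt_mono [Fintype V] (w : V → ℕ) {S T : Set V} (h : S ⊆ T) : wt w S ≤ wt w T := by
  unfold wt
  refine Finset.sum_le_sum fun v _ => ?_
  exact Set.indicator_le_indicator_of_subset h (fun _ => Nat.zero_le _) v

theorem wt_pos [Fintype V] {w : V → ℕ} (hw : ∀ v, 0 < w v) {S : Set V} (h : S.Nonempty) :
    0 < wt w S := by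
  obtain ⟨x, hx⟩ := h
  have h1 : wt w {x} ≤ wt w S := wt_mono w (Set.singleton_subset_iff.2 hx)
  have h2 : wt w {x} = w x := by
    unfold wt
    rw [Finset.sum_eq_single x]
    · simp
    · intro b _ hb
      simp [hb]
    · simp
  have := hw x
  omega

/-- the situation of `covTriple` -/
structure T3 (G : SimpleGraph V) (A K : Set V) (s1 s2 s3 : V) : Prop where
  m1 : s1 ∈ A
  m2 : s2 ∈ A
  m3 : s3 ∈ A
  d12 : s1 ≠ s2
  d13 : s1 ≠ s3
  d23 : s2 ≠ s3
  n12 : ¬ G.Adj s1 s2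
  n13 : ¬ G.Adj s1 s3
  n23 : ¬ G.Adj s2 s3
  ex : ∀ k ∈ K, (G.Adj s1 k ∧ G.Adj s2 k ∧ ¬ G.Adj s3 k) ∨
    (G.Adj s1 k ∧ ¬ G.Adj s2 k ∧ G.Adj s3 k) ∨ (¬ G.Adj s1 k ∧ G.Adj s2 k ∧ G.Adj s3 k)

variable {G : SimpleGraph V} {A K : Set V} {s1 s2 s3 : V}

theorem T3.rot (t : T3 G A K s1 s2 s3) : T3 G A K s2 s3 s1 := by
  obtain ⟨m1, m2, m3, d12, d13, d23, n12, n13, n23, ex⟩ := t
  refine ⟨m2, m3, m1, d23, d12.symm, d13.symm, n23, fun h => n12 h.symm, fun h => n13 h.symm, ?_⟩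
  intro k hk
  rcases ex k hk with ⟨h1, h2, h3⟩ | ⟨h1, h2, h3⟩ | ⟨h1, h2, h3⟩
  · exact Or.inr (Or.inl ⟨h2, h3, h1⟩)
  · exact Or.inr (Or.inr ⟨h2, h3, h1⟩)
  · exact Or.inl ⟨h2, h3, h1⟩

theorem T3.swap (t : T3 G A K s1 s2 s3) : T3 G A K s2 s1 s3 := by
  obtain ⟨m1, m2, m3, d12, d13, d23, n12, n13, n23, ex⟩ := t
  refine ⟨m2, m1, m3, d12.symm, d23, d13, fun h => n12 h.symm, n23, n13, ?_⟩
  intro k hk
  rcases ex k hk with ⟨h1, h2, h3⟩ | ⟨h1, h2, h3⟩ | ⟨h1, h2, h3⟩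
  · exact Or.inl ⟨h2, h1, h3⟩
  · exact Or.inr (Or.inr ⟨h2, h1, h3⟩)
  · exact Or.inr (Or.inl ⟨h2, h1, h3⟩)

/-- vertices of `A` with a neighbour in `K`, complete to the neighbours of `s` in `K` -/
def XX (G : SimpleGraph V) (A K : Set V) (s : V) : Set V :=
  {a | a ∈ A ∧ (∃ k ∈ K, G.Adj a k) ∧ ∀ k ∈ K, G.Adj s k → G.Adj a k}

section
variable [Fintype V] {w : V → ℕ}

/-- an element of `K` not adjacent to `s3` (hence adjacent to `s1`, `s2`) -/
theorem T3.k12 (h : QL G w A K) (t : T3 G A K s1 s2 s3) :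
    ∃ k ∈ K, G.Adj s1 k ∧ G.Adj s2 k ∧ ¬ G.Adj s3 k := by
  obtain ⟨k, hk, hn⟩ := h.not_complete t.m3
  refine ⟨k, hk, ?_⟩
  rcases t.ex k hk with h1 | h1 | h1
  · exact h1
  · exact absurd h1.2.2 hn
  · exact absurd h1.2.2 hn

theorem T3.self (h : QL G w A K) (t : T3 G A K s1 s2 s3) : s1 ∈ XX G A K s1 := by
  obtain ⟨k, hk, h1, _⟩ := t.k12 h
  exact ⟨t.m1, ⟨k, hk, h1⟩, fun _ _ h => h⟩

theorem T3.i1 (h : QL G w A K) (t : T3 G A K s1 s2 s3) {a : V} (ha : a ∈ A)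
    (hK : ∃ k ∈ K, G.Adj a k) (e1 : a ≠ s1) (e2 : a ≠ s2) (n1 : ¬ G.Adj a s1)
    (n2 : ¬ G.Adj a s2) : a ∈ XX G A K s3 := by
  have h3 := h.third t.m1 t.m2 ha t.n12 (fun h => n1 h.symm) (fun h => n2 h.symm) t.d12
    e1.symm e2.symm hK (by
      intro k hk
      rcases t.ex k hk with h1 | h1 | h1
      · exact Or.inl h1.1
      · exact Or.inl h1.1
      · exact Or.inr h1.2.1)
  refine ⟨ha, hK, fun k hk hs => ?_⟩
  rcases t.ex k hk with h1 | h1 | h1
  · exact absurd hs h1.2.2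
  · rcases h3 k hk with h2 | h2 | h2
    · exact absurd h2.2.1 h1.2.1
    · exact h2.2.2
    · exact h2.2.2
  · rcases h3 k hk with h2 | h2 | h2
    · exact absurd h2.1 h1.1
    · exact h2.2.2
    · exact h2.2.2

theorem T3.i2 (h : QL G w A K) (t : T3 G A K s1 s2 s3) {a : V} (ha : a ∈ A)
    (hK : ∃ k ∈ K, G.Adj a k) (e1 : a ≠ s1) (n1 : ¬ G.Adj a s1)
    (n2 : G.Adj a s2) (n3 : G.Adj a s3) : a ∈ XX G A K s2 ∨ a ∈ XX G A K s3 := by
  have hKc := h.heavy.2.1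
  -- the claim (**)
  have star : ∀ k ∈ K, ¬ G.Adj s1 k → G.Adj a k →
      (∀ k' ∈ K, ¬ G.Adj s3 k' → G.Adj a k') ∨ (∀ k' ∈ K, ¬ G.Adj s2 k' → G.Adj a k') := by
    intro k hk hk1 hak
    by_contra hcon
    rw [not_or] at hcon
    obtain ⟨c1, c2⟩ := hcon
    push Not at c1 c2
    obtain ⟨k', hk', h3, ha'⟩ := c1
    obtain ⟨k'', hk'', h2, ha''⟩ := c2
    have p : G.Adj s2 k ∧ G.Adj s3 k := by
      rcases t.ex k hk with h1 | h1 | h1
      · exact absurd h1.1 hk1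
      · exact absurd h1.1 hk1
      · exact h1.2
    have p' : G.Adj s1 k' ∧ G.Adj s2 k' := by
      rcases t.ex k' hk' with h1 | h1 | h1
      · exact ⟨h1.1, h1.2.1⟩
      · exact absurd h1.2.2 h3
      · exact absurd h1.2.2 h3
    have p'' : G.Adj s1 k'' ∧ G.Adj s3 k'' := by
      rcases t.ex k'' hk'' with h1 | h1 | h1
      · exact absurd h1.2.1 h2
      · exact ⟨h1.1, h1.2.2⟩
      · exact absurd h1.2.1 h2
    have q1 : k ≠ k' := fun e => ha' (e ▸ hak)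
    have q2 : k ≠ k'' := fun e => ha'' (e ▸ hak)
    have q3 : k' ≠ k'' := fun e => h2 (e ▸ p'.2)
    exact noWheel5 h.nw (v := k) (a := s2) (b := k') (c := k'') (d := s3) (e := a)
      p.1.symm (hKc hk hk' q1) (hKc hk hk'' q2) p.2.symm hak.symm p'.2
      (hKc hk' hk'' q3) p''.2.symm n3.symm n2 h2 (fun h => h3 h.symm) (fun h => ha'' h.symm)
      (fun h => t.n23 h.symm) ha'
  by_cases hcom : ∃ k ∈ K, G.Adj a k ∧ G.Adj s1 k
  · obtain ⟨k, hk, hak, hsk⟩ := hcom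
    have hd := h.dich n1 e1 ha t.m1 hk hak hsk
    obtain ⟨k1, hk1, hh1, hh2, hh3⟩ := t.rot.k12 h
    have hak1 : G.Adj a k1 := (hd k1 hk1).resolve_right hh3
    rcases star k1 hk1 hh3 hak1 with hs | hs
    · left
      refine ⟨ha, hK, fun k' hk' hs2 => ?_⟩
      by_cases h3 : G.Adj s3 k'
      · have : ¬ G.Adj s1 k' := by
          rcases t.ex k' hk' with h1 | h1 | h1
          · exact absurd h3 h1.2.2
          · exact absurd hs2 h1.2.1
          · exact h1.1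
        exact (hd k' hk').resolve_right this
      · exact hs k' hk' h3
    · right
      refine ⟨ha, hK, fun k' hk' hs3 => ?_⟩
      by_cases h2 : G.Adj s2 k'
      · have : ¬ G.Adj s1 k' := by
          rcases t.ex k' hk' with h1 | h1 | h1
          · exact absurd hs3 h1.2.2
          · exact absurd h2 h1.2.1
          · exact h1.1
        exact (hd k' hk').resolve_right this
      · exact hs k' hk' h2
  · exfalso
    push Not at hcom
    obtain ⟨k, hk, hak⟩ := hK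
    have hk1 := hcom k hk hak
    rcases star k hk hk1 hak with hs | hs
    · obtain ⟨k', hk', h1, h2, h3⟩ := t.k12 h
      exact hcom k' hk' (hs k' hk' h3) h1
    · obtain ⟨k', hk', h1, h2, h3⟩ := t.rot.rot.k12 h
      exact hcom k' hk' (hs k' hk' h3) h2

theorem T3.cover (h : QL G w A K) (t : T3 G A K s1 s2 s3) {a : V} (ha : a ∈ A)
    (hK : ∃ k ∈ K, G.Adj a k) : a ∈ XX G A K s1 ∨ a ∈ XX G A K s2 ∨ a ∈ XX G A K s3 := by
  by_cases e1 : a = s1
  · subst e1; exact Or.inl (t.self h)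
  by_cases e2 : a = s2
  · subst e2; exact Or.inr (Or.inl (t.rot.self h))
  by_cases e3 : a = s3
  · subst e3; exact Or.inr (Or.inr (t.rot.rot.self h))
  by_cases n1 : G.Adj a s1
  · by_cases n2 : G.Adj a s2
    · by_cases n3 : G.Adj a s3
      · exact (h.cf a s1 s2 s3 n1 n2 n3 t.n12 t.n13 t.n23 t.d12 t.d13 t.d23).elim
      · -- `a ~ s1, s2`, not `s3`
        rcases t.rot.rot.i2 h ha hK e3 n3 n1 n2 with hh | hh
        · exact Or.inl hh
        · exact Or.inr (Or.inl hh)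
    · by_cases n3 : G.Adj a s3
      · rcases t.rot.i2 h ha hK e2 n2 n3 n1 with hh | hh
        · exact Or.inr (Or.inr hh)
        · exact Or.inl hh
      · exact Or.inl (t.rot.i1 h ha hK e2 e3 n2 n3)
  · by_cases n2 : G.Adj a s2
    · by_cases n3 : G.Adj a s3
      · exact Or.inr (t.i2 h ha hK e1 n1 n2 n3)
      · exact Or.inr (Or.inl (t.rot.rot.i1 h ha hK e3 e1 n3 n1))
    · exact Or.inr (Or.inr (t.i1 h ha hK e1 e2 n1 n2))

theorem T3.disj (h : QL G w A K) (t : T3 G A K s1 s2 s3) {a : V} (h1 : a ∈ XX G A K s1)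
    (h2 : a ∈ XX G A K s2) : False := by
  obtain ⟨k, hk, hn⟩ := h.not_complete h1.1
  rcases t.ex k hk with hh | hh | hh
  · exact hn (h1.2.2 k hk hh.1)
  · exact hn (h1.2.2 k hk hh.1)
  · exact hn (h2.2.2 k hk hh.2.1)

/-- (ii), the asymmetric part -/
theorem T3.clq_aux (h : QL G w A K) (t : T3 G A K s1 s2 s3) {a b : V} (ha : a ∈ XX G A K s3)
    (hb : b ∈ XX G A K s3) (hab : ¬ G.Adj a b) (hne : a ≠ b) (ha3 : G.Adj a s3)
    (hb3 : G.Adj b s3) (ha2 : G.Adj a s2) (hb2 : ¬ G.Adj b s2) : False := by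
  have hKc := h.heavy.2.1
  obtain ⟨k, hk, hak⟩ := h.not_complete ha.1
  have hs3k : ¬ G.Adj s3 k := fun hh => hak (ha.2.2 k hk hh)
  have hs12 : G.Adj s1 k ∧ G.Adj s2 k := by
    rcases t.ex k hk with hh | hh | hh
    · exact ⟨hh.1, hh.2.1⟩
    · exact absurd hh.2.2 hs3k
    · exact absurd hh.2.2 hs3k
  obtain ⟨k', hk', p1, p2, p3⟩ := t.rot.k12 h
  -- `k'` is adjacent to `s2`, `s3`
  have hd := h.dich hab hne ha.1 hb.1 hk' (ha.2.2 k' hk' p2) (hb.2.2 k' hk' p2)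
  have hbk : G.Adj b k := (hd k hk).resolve_left hak
  have hkk : k' ≠ k := fun e => p3 (e ▸ hs12.1)
  exact noWheel5 h.nw (v := k') (a := k) (b := b) (c := s3) (d := a) (e := s2)
    (hKc hk' hk hkk) (hb.2.2 k' hk' p2).symm p2.symm (ha.2.2 k' hk' p2).symm p1.symm
    hbk.symm hb3 ha3.symm ha2 hs12.2 (fun h => hs3k h.symm) (fun h => hab h.symm)
    (fun h => t.n23 h.symm) hak (fun h => hb2 h.symm)

theorem T3.clq (h : QL G w A K) (t : T3 G A K s1 s2 s3) : G.IsClique (XX G A K s3) := by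
  intro a ha b hb hne
  by_contra hab
  have adj3 : ∀ x ∈ XX G A K s3, x ≠ s3 → G.Adj x s3 := by
    intro x hx hx3
    by_contra hn
    obtain ⟨k, hk, p1, p2, p3⟩ := t.rot.k12 h
    have hd := h.dich hn hx3 hx.1 t.m3 hk (hx.2.2 k hk p2) p2
    obtain ⟨k', hk', hn'⟩ := h.not_complete hx.1
    rcases hd k' hk' with hh | hh
    · exact hn' hh
    · exact hn' (hx.2.2 k' hk' hh)
  have ea : a ≠ s3 := fun e => hab (e ▸ (adj3 b hb (fun e' => hne (e.trans e'.symm))).symm)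
  have eb : b ≠ s3 := fun e => hab (e ▸ adj3 a ha ea)
  have ha3 := adj3 a ha ea
  have hb3 := adj3 b hb eb
  have nclaw : ∀ x, G.Adj x s3 → G.Adj x s1 → ¬ G.Adj x s2 := fun x h3 h1 h2 =>
    h.cf x s1 s2 s3 h1 h2 h3 t.n12 t.n13 t.n23 t.d12 t.d13 t.d23
  -- elements of `XX s3` differ from `s1`, `s2`
  obtain ⟨k23, hk23, p1, p2, p3⟩ := t.rot.k12 h
  obtain ⟨k13, hk13, q1, q2, q3⟩ := t.rot.rot.k12 h
  have ne1 : ∀ x ∈ XX G A K s3, x ≠ s1 := fun x hx e => p3 (e ▸ hx.2.2 k23 hk23 p2)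
  have ne2 : ∀ x ∈ XX G A K s3, x ≠ s2 := fun x hx e => q3 (e ▸ hx.2.2 k13 hk13 q1)
  have or1 : G.Adj a s1 ∨ G.Adj b s1 := by
    by_contra hno
    rw [not_or] at hno
    exact h.cf k13 a b s1 (ha.2.2 k13 hk13 q1).symm (hb.2.2 k13 hk13 q1).symm q2.symm hab
      hno.1 hno.2 hne (ne1 a ha) (ne1 b hb)
  have or2 : G.Adj a s2 ∨ G.Adj b s2 := by
    by_contra hno
    rw [not_or] at hno
    exact h.cf k23 a b s2 (ha.2.2 k23 hk23 p2).symm (hb.2.2 k23 hk23 p2).symm p1.symm hab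
      hno.1 hno.2 hne (ne2 a ha) (ne2 b hb)
  rcases or1 with h1 | h1
  · have h2 := nclaw a ha3 h1
    have h3 := or2.resolve_left h2
    exact t.clq_aux h hb ha (fun h => hab h.symm) hne.symm hb3 ha3 h3 h2
  · have h2 := nclaw b hb3 h1
    have h3 := or2.resolve_right h2
    exact t.clq_aux h ha hb hab hne ha3 hb3 h3 h2

/-- weight of `XX s3` is at most the weight of the part of `K` not adjacent to `s3` -/
theorem T3.wt_le (h : QL G w A K) (t : T3 G A K s1 s2 s3) :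
    wt w (XX G A K s3) ≤ wt w {k | k ∈ K ∧ ¬ G.Adj s3 k} := by
  have hKc := h.heavy.2.1
  have hcl : G.IsClique (XX G A K s3 ∪ {k | k ∈ K ∧ G.Adj s3 k}) := by
    rintro x (hx | hx) y (hy | hy) hxy
    · exact t.clq h hx hy hxy
    · exact hx.2.2 y hy.1 hy.2
    · exact (hy.2.2 x hx.1 hx.2).symm
    · exact hKc hx.1 hy.1 hxy
  have h1 := h.heavy.2.2 _ (Set.subset_univ _) hcl
  have hd : Disjoint (XX G A K s3) {k | k ∈ K ∧ G.Adj s3 k} := by
    rw [Set.disjoint_left]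
    intro x hx hx'
    exact h.disj x hx'.1 hx.1
  have hK : K = {k | k ∈ K ∧ ¬ G.Adj s3 k} ∪ {k | k ∈ K ∧ G.Adj s3 k} := by
    ext k
    by_cases hh : G.Adj s3 k <;> simp [hh]
  have hd2 : Disjoint {k | k ∈ K ∧ ¬ G.Adj s3 k} {k | k ∈ K ∧ G.Adj s3 k} := by
    rw [Set.disjoint_left]
    intro x hx hx'
    exact hx.2 hx'.2
  rw [wt_union w hd] at h1
  have h2 : wt w K = wt w {k | k ∈ K ∧ ¬ G.Adj s3 k} + wt w {k | k ∈ K ∧ G.Adj s3 k} := by
    conv_lhs => rw [hK]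
    exact wt_union w hd2
  omega

theorem T3.wtK (t : T3 G A K s1 s2 s3) :
    wt w K = wt w {k | k ∈ K ∧ ¬ G.Adj s1 k} + wt w {k | k ∈ K ∧ ¬ G.Adj s2 k}
      + wt w {k | k ∈ K ∧ ¬ G.Adj s3 k} := by
  have hd1 : Disjoint {k | k ∈ K ∧ ¬ G.Adj s1 k} {k | k ∈ K ∧ ¬ G.Adj s2 k} := by
    rw [Set.disjoint_left]
    intro x hx hx'
    rcases t.ex x hx.1 with h | h | h
    · exact hx.2 h.1
    · exact hx.2 h.1
    · exact hx'.2 h.2.1
  have hd2 : Disjoint ({k | k ∈ K ∧ ¬ G.Adj s1 k} ∪ {k | k ∈ K ∧ ¬ G.Adj s2 k})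
      {k | k ∈ K ∧ ¬ G.Adj s3 k} := by
    rw [Set.disjoint_left]
    intro x hx hx'
    rcases t.ex x hx'.1 with h | h | h
    · rcases hx with hx | hx
      · exact hx.2 h.1
      · exact hx.2 h.2.1
    · exact hx'.2 h.2.2
    · exact hx'.2 h.2.2
  rw [← wt_union w hd1, ← wt_union w hd2]
  congr 1
  ext k
  constructor
  · intro hk
    rcases t.ex k hk with h | h | h
    · exact Or.inr ⟨hk, h.2.2⟩
    · exact Or.inl (Or.inr ⟨hk, h.2.1⟩)
    · exact Or.inl (Or.inl ⟨hk, h.1⟩)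
  · rintro ((h | h) | h) <;> exact h.1

/-- every vertex of `A` without neighbours in `K` is adjacent to `s3` -/
theorem T3.adj0 (h : QL G w A K) (t : T3 G A K s1 s2 s3) {a0 : V} (ha0 : a0 ∈ A)
    (hn : ∀ k ∈ K, ¬ G.Adj a0 k) : G.Adj a0 s3 := by
  by_contra hna
  have hKc := h.heavy.2.1
  -- the modified set
  set B : Set V := A \ (XX G A K s1 ∪ XX G A K s2) with hB
  have hX3B : XX G A K s3 ⊆ B := by
    intro x hx
    refine ⟨hx.1, ?_⟩
    rintro (hx' | hx')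
    · exact t.rot.rot.disj h hx hx'
    · exact t.rot.disj h hx' hx
  have hperf : Perf G (B ∪ (XX G A K s3 ∪ K)) := by
    apply perf_glue (h.perf.mono Set.sdiff_subset) (perf_two_cliques (t.clq h) hKc)
    · refine (t.clq h).subset ?_
      rintro x ⟨hx, hx' | hx'⟩
      · exact hx'
      · exact (h.disj x hx' hx.1).elim
    · intro a ha ha' b hb hb' hadj
      have hbK : b ∈ K := by
        rcases hb with hb | hb
        · exact (hb' (hX3B hb)).elim
        · exact hb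
      have haX : a ∉ XX G A K s3 := fun hh => ha' (Or.inl hh)
      rcases t.cover h ha.1 ⟨b, hbK, hadj⟩ with hh | hh | hh
      · exact ha.2 (Or.inl hh)
      · exact ha.2 (Or.inr hh)
      · exact haX hh
  obtain ⟨k, hk, p1, p2, p3⟩ := t.k12 h
  have hs3 : s3 ∈ XX G A K s3 := t.rot.rot.self h
  have htrip : HasTriple G (B ∪ (XX G A K s3 ∪ K)) := by
    refine ⟨a0, Or.inl ⟨ha0, ?_⟩, s3, Or.inr (Or.inl hs3), k, Or.inr (Or.inr hk), ?_, ?_, ?_,
      hna, hn k hk, p3⟩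
    · rintro (⟨_, ⟨k', hk', hh⟩, _⟩ | ⟨_, ⟨k', hk', hh⟩, _⟩)
      · exact hn k' hk' hh
      · exact hn k' hk' hh
    · rintro rfl
      obtain ⟨_, ⟨k', hk', hh⟩, _⟩ := hs3
      exact hn k' hk' hh
    · rintro rfl
      exact h.disj _ hk ha0
    · rintro rfl
      exact h.disj _ hk t.m3
  have hmax := h.max _ hperf htrip
  -- weights
  have hd12 : Disjoint (XX G A K s1) (XX G A K s2) := by
    rw [Set.disjoint_left]; exact fun x hx hx' => t.disj h hx hx'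
  have hA : A = B ∪ (XX G A K s1 ∪ XX G A K s2) := by
    rw [hB, Set.sdiff_union_of_subset]
    rintro x (hx | hx) <;> exact hx.1
  have hdB : Disjoint B (XX G A K s1 ∪ XX G A K s2) := Set.disjoint_sdiff_left
  have wA : wt w A = wt w B + (wt w (XX G A K s1) + wt w (XX G A K s2)) := by
    conv_lhs => rw [hA]
    rw [wt_union w hdB, wt_union w hd12]
  have hdBK : Disjoint B K := by
    rw [Set.disjoint_left]; exact fun x hx hx' => h.disj x hx' hx.1
  have e : B ∪ (XX G A K s3 ∪ K) = B ∪ K := by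
    rw [← Set.union_assoc, Set.union_eq_self_of_subset_right hX3B]
  rw [e, wt_union w hdBK, wA] at hmax
  have w1 : wt w (XX G A K s1) ≤ wt w {k | k ∈ K ∧ ¬ G.Adj s1 k} := t.rot.wt_le h
  have w2 : wt w (XX G A K s2) ≤ wt w {k | k ∈ K ∧ ¬ G.Adj s2 k} := t.rot.rot.wt_le h
  have w3 := t.wtK (w := w)
  have w4 : 0 < wt w {k | k ∈ K ∧ ¬ G.Adj s3 k} := wt_pos h.pos ⟨k, hk, p3⟩
  omega

end

end NoTripleAux

theorem QL.noTriple [Fintype V] {G : SimpleGraph V} {w : V → ℕ} {A K : Set V} (h : QL G w A K) :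
    ¬ HasTriple G {a | a ∈ A ∧ ∃ k ∈ K, G.Adj a k} := by
  intro ht
  obtain ⟨s1, m1, s2, m2, s3, m3, d12, d13, d23, n12, n13, n23, ex⟩ := h.covTriple ht
  have t : T3 G A K s1 s2 s3 := ⟨m1, m2, m3, d12, d13, d23, n12, n13, n23, ex⟩
  have hKc := h.heavy.2.1
  -- every vertex of `A` has a neighbour in `K`
  have hN : ∀ a ∈ A, ∃ k ∈ K, G.Adj a k := by
    intro a ha
    by_contra hno
    push Not at hno
    have a3 := t.adj0 h ha hno
    have a1 := t.rot.adj0 h ha hno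
    have a2 := t.rot.rot.adj0 h ha hno
    exact h.cf a s1 s2 s3 a1 a2 a3 n12 n13 n23 d12 d13 d23
  have hA : A ⊆ XX G A K s1 ∪ (XX G A K s2 ∪ XX G A K s3) := by
    intro a ha
    rcases t.cover h ha (hN a ha) with hh | hh | hh
    · exact Or.inl hh
    · exact Or.inr (Or.inl hh)
    · exact Or.inr (Or.inr hh)
  have d1 : Disjoint (XX G A K s2) (XX G A K s3) := by
    rw [Set.disjoint_left]; exact fun x hx hx' => t.rot.disj h hx hx'
  have d2 : Disjoint (XX G A K s1) (XX G A K s2 ∪ XX G A K s3) := by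
    rw [Set.disjoint_left]
    rintro x hx (hx' | hx')
    · exact t.disj h hx hx'
    · exact t.rot.rot.disj h hx' hx
  have wA := wt_mono w hA
  rw [wt_union w d2, wt_union w d1] at wA
  have w1 : wt w (XX G A K s1) ≤ wt w {k | k ∈ K ∧ ¬ G.Adj s1 k} := t.rot.wt_le h
  have w2 : wt w (XX G A K s2) ≤ wt w {k | k ∈ K ∧ ¬ G.Adj s2 k} := t.rot.rot.wt_le h
  have w3 : wt w (XX G A K s3) ≤ wt w {k | k ∈ K ∧ ¬ G.Adj s3 k} := t.wt_le h
  have w4 := t.wtK (w := w)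
  obtain ⟨k, hk, _⟩ := t.k12 h
  obtain ⟨c, hc, c', hc', hcc, hna⟩ := h.nc k
  have hcK : c ∉ K := fun hh => hc.2 (hKc hk hh hc.1.symm)
  have hcK' : c' ∉ K := fun hh => hc'.2 (hKc hk hh hc'.1.symm)
  have p1 : Perf G (insert c K) := perf_insert (perf_clique hKc)
    fun x hx y hy _ _ hxy => hKc hx hy hxy
  have p2 : Perf G (insert c' (insert c K)) := by
    refine perf_insert p1 fun x hx y hy hcx hcy hxy => ?_
    rcases hx with rfl | hx
    · exact (hna hcx.symm).elim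
    · rcases hy with rfl | hy
      · exact (hna hcy.symm).elim
      · exact hKc hx hy hxy
  have p3 : HasTriple G (insert c' (insert c K)) :=
    ⟨k, by simp [hk], c, by simp, c', by simp, hc.1.symm, hc'.1.symm, hcc, hc.2, hc'.2, hna⟩
  have hmax := h.max _ p2 p3
  have hsub : K ∪ {c} ⊆ insert c' (insert c K) := by
    rintro x (hx | hx)
    · simp [hx]
    · rw [Set.mem_singleton_iff] at hx
      simp [hx]
  have hd : Disjoint K {c} := by
    rw [Set.disjoint_singleton_right]; exact hcK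
  have w5 := wt_mono w hsub
  rw [wt_union w hd] at w5
  have w6 : 0 < wt w {c} := wt_pos h.pos ⟨c, rfl⟩
  omega

end Pool.Agent.KS6_47.Frk
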