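import Pool.Agent.KS6_47.Frk.WheelNonempty

/-!
# 5-wheels: classes at distance two are anticomplete
-/

set_option autoImplicit false

namespace Pool.Agent.KS6_47.Frk

variable {V : Type}


theorem anti_aux1 {G : SimpleGraph V} (hcf : ClawFree G) {v : V} {f : ZMod 5 → V}
    (hw : Wheel G v f) {i : ZMod 5} {x y z : V} (hx : x ∈ E G v f i) (hy : y ∈ E G v f (i + 2))
    (hxy : G.Adj x y) (hz : z ∈ E G v f (i + 4)) : G.Adj y z := by
  have e1 : i + 4 + 1 = i := (by decide : ∀ i : ZMod 5, i + 4 + 1 = i) i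
  have e2 : i + 4 + 2 = i + 1 := (by decide : ∀ i : ZMod 5, i + 4 + 2 = i + 1) i
  have e3 : i + 4 + 3 = i + 2 := (by decide : ∀ i : ZMod 5, i + 4 + 3 = i + 2) i
  have e4 : i + 2 + 4 = i + 1 := (by decide : ∀ i : ZMod 5, i + 2 + 4 = i + 1) i
  have hzx : G.Adj z x := E.next hcf hw hz (by rw [e1]; exact hx)
  have h1 : ¬ G.Adj y (f (i + 1)) := by rw [← e4]; exact hy.2.2.2.2.2
  have h2 : ¬ G.Adj z (f (i + 1)) := by rw [← e2]; exact hz.2.2.2.1
  have h3 : ¬ G.Adj z (f (i + 2)) := by rw [← e3]; exact hz.2.2.2.2.1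
  by_contra hyz
  refine hcf x (f (i + 1)) y z hx.2.2.1 hxy hzx.symm (fun h => h1 h.symm) (fun h => h2 h.symm) hyz
    ?_ ?_ ?_
  · intro h
    exact hy.1.2.1 (by rw [← h]; exact hw.hub _)
  · intro h
    exact hz.1.2.1 (by rw [← h]; exact hw.hub _)
  · intro h
    exact h3 (by rw [← h]; exact hy.2.1)

theorem anti_aux2 {G : SimpleGraph V} (hcf : ClawFree G) {v : V} {f : ZMod 5 → V}
    (hw : Wheel G v f) {i : ZMod 5} {x y z : V} (hx : x ∈ E G v f i) (hy : y ∈ E G v f (i + 2))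
    (hxy : G.Adj x y) (hz : z ∈ E G v f (i + 3)) : G.Adj x z := by
  have e1 : i + 2 + 1 = i + 3 := (by decide : ∀ i : ZMod 5, i + 2 + 1 = i + 3) i
  have e2 : i + 3 + 2 = i := (by decide : ∀ i : ZMod 5, i + 3 + 2 = i) i
  have e3 : i + 3 + 4 = i + 2 := (by decide : ∀ i : ZMod 5, i + 3 + 4 = i + 2) i
  have hyz : G.Adj y z := E.next hcf hw hy (by rw [e1]; exact hz)
  have h1 : ¬ G.Adj x (f (i + 2)) := hx.2.2.2.1
  have h2 : ¬ G.Adj z (f (i + 2)) := by rw [← e3]; exact hz.2.2.2.2.2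
  have h3 : ¬ G.Adj z (f i) := by
    have := hz.2.2.2.1
    rwa [e2] at this
  by_contra hxz
  refine hcf y (f (i + 2)) x z hy.2.1 hxy.symm hyz (fun h => h1 h.symm) (fun h => h2 h.symm) hxz
    ?_ ?_ ?_
  · intro h
    exact hx.1.2.1 (by rw [← h]; exact hw.hub _)
  · intro h
    exact hz.1.2.1 (by rw [← h]; exact hw.hub _)
  · intro h
    exact h3 (by rw [← h]; exact hx.2.1)

/-- one edge between `E i` and `E (i + 2)` makes these classes complete to each other -/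
theorem anti_aux3 {G : SimpleGraph V} (hcf : ClawFree G) {v : V} {f : ZMod 5 → V}
    (hw : Wheel G v f) (hne : ∀ j, (E G v f j).Nonempty) {i : ZMod 5} {x y : V}
    (hx : x ∈ E G v f i) (hy : y ∈ E G v f (i + 2)) (hxy : G.Adj x y) :
    ∀ x' ∈ E G v f i, ∀ y' ∈ E G v f (i + 2), G.Adj x' y' := by
  have e1 : i + 2 + 2 = i + 4 := (by decide : ∀ i : ZMod 5, i + 2 + 2 = i + 4) i
  have e2 : i + 2 + 3 = i := (by decide : ∀ i : ZMod 5, i + 2 + 3 = i) i
  have e3 : i + 3 + 2 = i := (by decide : ∀ i : ZMod 5, i + 3 + 2 = i) i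
  have e4 : i + 3 + 4 = i + 2 := (by decide : ∀ i : ZMod 5, i + 3 + 4 = i + 2) i
  have hA : ∀ a ∈ E G v f i, ∀ b ∈ E G v f (i + 2), G.Adj a b →
      ∀ x' ∈ E G v f i, G.Adj b x' := by
    intro a ha b hb hab x' hx'
    obtain ⟨z, hz⟩ := hne (i + 4)
    have h1 : G.Adj b z := anti_aux1 hcf hw ha hb hab hz
    exact anti_aux2 hcf hw (i := i + 2) hb (by rw [e1]; exact hz) h1 (by rw [e2]; exact hx')
  have hB : ∀ a ∈ E G v f i, ∀ b ∈ E G v f (i + 2), G.Adj a b →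
      ∀ y' ∈ E G v f (i + 2), G.Adj a y' := by
    intro a ha b hb hab y' hy'
    obtain ⟨w, hw'⟩ := hne (i + 3)
    have h1 : G.Adj a w := anti_aux2 hcf hw ha hb hab hw'
    exact anti_aux1 hcf hw (i := i + 3) hw' (by rw [e3]; exact ha) h1.symm (by rw [e4]; exact hy')
  intro x' hx' y' hy'
  have h1 : G.Adj y x' := hA x hx y hy hxy x' hx'
  exact hB x' hx' y hy h1.symm y' hy'

theorem Wheel.anticomplete [Fintype V] {G : SimpleGraph V} (hcf : ClawFree G) (hc : Core G) {v : V}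
    {f : ZMod 5 → V} (hw : Wheel G v f) (i : ZMod 5) :
    ∀ x ∈ E G v f i, ∀ y ∈ E G v f (i + 2), ¬ G.Adj x y := by
  intro x hx y hy hxy
  have hne : ∀ j, (E G v f j).Nonempty := fun j => hw.E_nonempty hcf hc j
  have hstep : ∀ j, (∀ a ∈ E G v f j, ∀ b ∈ E G v f (j + 2), G.Adj a b) →
      ∀ a ∈ E G v f (j + 2), ∀ b ∈ E G v f (j + 2 + 2), G.Adj a b := by
    intro j hj
    obtain ⟨a, ha⟩ := hne j
    obtain ⟨b, hb⟩ := hne (j + 2)
    obtain ⟨z, hz⟩ := hne (j + 4)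
    have e1 : j + 2 + 2 = j + 4 := (by decide : ∀ j : ZMod 5, j + 2 + 2 = j + 4) j
    have h1 : G.Adj b z := anti_aux1 hcf hw ha hb (hj a ha b hb) hz
    exact anti_aux3 hcf hw hne hb (by rw [e1]; exact hz) h1
  have h0 := anti_aux3 hcf hw hne hx hy hxy
  have h1 := hstep _ h0
  have h2 := hstep _ h1
  have h3 := hstep _ h2
  have h4 := hstep _ h3
  have hall : ∀ j, ∀ a ∈ E G v f j, ∀ b ∈ E G v f (j + 2), G.Adj a b := by
    intro j
    have hj : j = i ∨ j = i + 2 ∨ j = i + 2 + 2 ∨ j = i + 2 + 2 + 2 ∨ j = i + 2 + 2 + 2 + 2 :=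
      (by decide : ∀ i j : ZMod 5, j = i ∨ j = i + 2 ∨ j = i + 2 + 2 ∨ j = i + 2 + 2 + 2 ∨
        j = i + 2 + 2 + 2 + 2) i j
    rcases hj with rfl | rfl | rfl | rfl | rfl
    · exact h0
    · exact h1
    · exact h2
    · exact h3
    · exact h4
  set U : Set V := {a | ∃ j, a ∈ E G v f j} with hU
  have hUc : G.IsClique U := by
    rintro a ⟨j, ha⟩ b ⟨k, hb⟩ hab
    have hk : k = j ∨ k = j + 1 ∨ k = j + 2 ∨ j = k + 1 ∨ j = k + 2 :=
      (by decide : ∀ j k : ZMod 5, k = j ∨ k = j + 1 ∨ k = j + 2 ∨ j = k + 1 ∨ j = k + 2) j k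
    rcases hk with rfl | rfl | rfl | rfl | rfl
    · exact E.clique hcf hw _ ha hb hab
    · exact E.next hcf hw ha hb
    · exact hall _ a ha b hb
    · exact (E.next hcf hw hb ha).symm
    · exact (hall _ b hb a ha).symm
  set W : Set V := {a | a ∈ N2 G v ∧ ∃ j, G.Adj a (f j) ∧ G.Adj a (f (j + 1)) ∧
    G.Adj a (f (j + 2))} with hW
  have hWc : G.IsClique W := by
    rintro a ⟨ha, j, ha0, ha1, ha2⟩ b ⟨hb, k, hb0, hb1, hb2⟩ hab
    have hcommon : ∃ l, G.Adj a (f l) ∧ G.Adj b (f l) := by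
      have hk : (k = j ∨ k = j + 1 ∨ k = j + 2 ∨ k + 1 = j ∨ k + 2 = j) :=
        (by decide : ∀ j k : ZMod 5,
          (k = j ∨ k = j + 1 ∨ k = j + 2 ∨ k + 1 = j ∨ k + 2 = j)) j k
      rcases hk with h | h | h | h | h
      · exact ⟨k, by rw [h]; exact ha0, hb0⟩
      · exact ⟨k, by rw [h]; exact ha1, hb0⟩
      · exact ⟨k, by rw [h]; exact ha2, hb0⟩
      · exact ⟨j, ha0, by rw [← h]; exact hb1⟩
      · exact ⟨j, ha0, by rw [← h]; exact hb2⟩
    obtain ⟨l, hl1, hl2⟩ := hcommon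
    exact adj_of_common hcf (hw.hub l) ⟨ha.1, ha.2.1⟩ ⟨hb.1, hb.2.1⟩ hl1.symm hl2.symm hab
  have hN2 : N2 G v ⊆ U ∪ W := by
    intro a ha
    rcases hw.type hcf ha with h | h
    · left; exact h
    · right; exact ⟨ha, h⟩
  have hXS : G.IsClique (XS G v) := by
    refine Set.Pairwise.mono ?_ hUc
    intro a ha
    exact hw.xs_type hcf ha
  exact not_perf_N2 hcf hc (hw.same_NY hcf hc) hXS ((perf_two_cliques hUc hWc).mono hN2)

end Pool.Agent.KS6_47.Frk
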