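import Pool.Agent.KS6_47.Frk.WheelFacts
import Pool.Agent.KS6_47.Frk.CoreProps

/-!
# 5-wheels: the cut lemma
-/

set_option autoImplicit false

namespace Pool.Agent.KS6_47.Frk

variable {V : Type}


/-- Every vertex is `v`, a neighbour of `v`, in `N2` or in `Y`. -/
theorem cases_vertex (G : SimpleGraph V) (v z : V) :
    z = v ∨ G.Adj v z ∨ z ∈ N2 G v ∨ z ∈ Y G v := by
  by_cases h1 : z = v
  · exact Or.inl h1
  by_cases h2 : G.Adj v z
  · exact Or.inr (Or.inl h2)
  by_cases h3 : ∃ p, G.Adj v p ∧ G.Adj p z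
  · exact Or.inr (Or.inr (Or.inl ⟨h1, h2, h3⟩))
  · push Not at h3
    exact Or.inr (Or.inr (Or.inr ⟨h1, h2, h3⟩))

theorem lemmaL [Fintype V] {G : SimpleGraph V} (hcf : ClawFree G) (hc : Core G) {v g g' : V}
    (hg : G.Adj v g) (hg' : G.Adj v g') (hgg : ¬ G.Adj g g') (hne : g ≠ g')
    (hN : ∀ x ∈ N2 G v, G.Adj x g ∨ G.Adj x g') :
    ∃ h x x', G.Adj v h ∧ x ∈ XS G v ∧ x' ∈ XS G v ∧ G.Adj h x ∧ G.Adj h x' ∧
      G.Adj x g ∧ ¬ G.Adj x g' ∧ G.Adj x' g' ∧ ¬ G.Adj x' g := by
  classical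
  by_contra hcon
  -- the sets of the argument
  let W : Set V := {h | h ∈ N2 G v ∧ h ∉ XS G v ∧ G.Adj h g ∧ G.Adj h g'}
  let H : Set V := {h | h ∉ Y G v ∧ h ∉ XS G v ∧ h ∉ W}
  let R : Set V := {r | r ∈ H ∧ r ≠ g ∧ ¬ G.Adj r g}
  have hNH : ∀ p, G.Adj v p → p ∈ H := fun p hp =>
    ⟨fun h => h.2.1 hp, fun h => h.1.2.1 hp, fun h => h.1.2.1 hp⟩
  have hgH : g ∈ H := hNH g hg
  have hRH : R ⊆ H := fun r hr => hr.1
  -- F1: no edges between `Y` and `H`
  have hYH : ∀ y ∈ Y G v, ∀ h ∈ H, ¬ G.Adj y h := by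
    intro y hy h hh hyh
    rcases cases_vertex G v h with rfl | hv | h2 | hY
    · exact hy.2.1 hyh.symm
    · exact hy.2.2 h hv hyh.symm
    · exact hh.2.1 ⟨h2, y, hy, hyh.symm⟩
    · exact hh.1 hY
  -- dichotomy for `x ∈ XS` and `t ∈ N2 ∖ XS`
  have hdich : ∀ x ∈ XS G v, ∀ t ∈ N2 G v, t ∉ XS G v → G.Adj x t →
      ∀ p, G.Adj v p → G.Adj p x → G.Adj p t := by
    intro x hx t ht htX hxt
    rcases XS.dich hcf hx ht hxt with h | h
    · obtain ⟨y, hy, hxy⟩ := hx.2
      have := h (show y ∈ NY G v x from ⟨hy, hxy⟩)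
      exact absurd ⟨ht, y, hy, this.2⟩ htX
    · exact h
  -- members outside `H`
  have hout : ∀ b, b ∉ H → b ∈ Y G v ∨ b ∈ XS G v ∨ b ∈ W := by
    intro b hb
    by_contra hcon'
    push Not at hcon'
    exact hb hcon'
  have hM : ∀ x ∈ N2 G v, x ∈ M G v := fun x hx => ⟨hx.1, hx.2.1⟩
  have hcl2 : ∀ q, G.Adj v q → G.IsClique {z | z ∈ N2 G v ∧ G.Adj q z} := by
    intro q hq x hx y hy hxy
    exact adj_of_common hcf hq (hM x hx.1) (hM y hy.1) hx.2 hy.2 hxy
  refine hc.cut H (insert g R) ⟨g, hgH⟩ (Set.insert_subset hgH hRH) ?_ ?_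
  · -- (a)
    intro B hB hBp
    let C : Set V := {b | b ∈ B ∧ ∃ r ∈ R, G.Adj b r}
    have hCsub : C ⊆ {z | z ∈ N2 G v ∧ G.Adj g' z} := by
      rintro b ⟨hb, r, hr, hbr⟩
      rcases hout b (hB b hb) with hbY | hbX | hbW
      · exact absurd hbr (hYH b hbY r (hRH hr))
      · have hnot : ¬ G.Adj b g := by
          intro hbg
          rcases cases_vertex G v r with rfl | hv | h2 | hY
          · exact hbX.1.2.1 hbr.symm
          · exact hr.2.2 (XS.clique hcf hbX hv hg hbr.symm hbg.symm hr.2.1)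
          · exact hr.2.2 (hdich b hbX r h2 hr.1.2.1 hbr g hg hbg.symm).symm
          · exact hr.1.1 hY
        exact ⟨hbX.1, ((hN b hbX.1).resolve_left hnot).symm⟩
      · exact ⟨hbW.1, hbW.2.2.2.symm⟩
    have hCcl : G.IsClique C := (hcl2 g' hg').subset hCsub
    have hScl : G.IsClique {z | z ∈ R ∧ G.Adj v z} := by
      intro p hp q hq hpq
      by_contra hnad
      rcases adj_or_of_nonadj hcf hp.2 hq.2 hg hnad hpq (Ne.symm hp.1.2.1) (Ne.symm hq.1.2.1) with h | h
      · exact hp.1.2.2 h.symm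
      · exact hq.1.2.2 h.symm
    have hRC : Perf G (R ∪ C) := by
      refine (perf_two_cliques hScl (hcl2 g' hg')).mono ?_
      rintro z (hz | hz)
      · rcases cases_vertex G v z with rfl | hv | h2 | hY
        · exact absurd hg hz.2.2
        · exact Or.inl ⟨hz, hv⟩
        · exact Or.inr ⟨h2, ((hN z h2).resolve_left hz.2.2).symm⟩
        · exact absurd hY hz.1.1
      · exact Or.inr (hCsub hz)
    have hRB : Perf G (R ∪ C ∪ B) := by
      refine perf_glue hRC hBp ?_ ?_
      · refine hCcl.subset ?_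
        rintro z ⟨hz | hz, hzB⟩
        · exact absurd (hRH hz) (hB z hzB)
        · exact hz
      · intro a ha haB b hb hbn hab
        rcases ha with ha | ha
        · exact hbn (Or.inr ⟨hb, a, ha, hab.symm⟩)
        · exact haB ha.1
    have hRB' : Perf G (R ∪ B) := hRB.mono (by
      rintro z (hz | hz)
      · exact Or.inl (Or.inl hz)
      · exact Or.inr hz)
    have hins : Perf G (insert g (R ∪ B)) := by
      refine perf_insert hRB' ?_
      have aux : ∀ x ∈ R ∪ B, G.Adj g x → x ∈ N2 G v := by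
        rintro x (hx | hx) hgx
        · exact absurd hgx.symm hx.2.2
        · rcases hout x (hB x hx) with h | h | h
          · exact absurd hgx.symm (hYH x h g hgH)
          · exact h.1
          · exact h.1
      intro x hx y hy hgx hgy hxy
      exact hcl2 g hg ⟨aux x hx hgx, hgx⟩ ⟨aux y hy hgy, hgy⟩ hxy
    rwa [Set.insert_union]
  · -- (b)
    rintro K ⟨hK, hmax⟩ ⟨h0, hh0K, hh0H⟩
    by_contra hdisj
    rw [Set.not_nonempty_iff_eq_empty] at hdisj
    have hKA : ∀ z ∈ K, z ∉ insert g R := by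
      intro z hz hz'
      have : z ∈ K ∩ insert g R := ⟨hz, hz'⟩
      rw [hdisj] at this
      exact this
    have hgK : g ∉ K := fun h => hKA g h (Set.mem_insert _ _)
    have hKH : ∀ z ∈ K, z ∈ H → G.Adj z g := by
      intro z hz hzH
      by_contra hnad
      refine hKA z hz (Or.inr ⟨hzH, ?_, hnad⟩)
      rintro rfl
      exact hgK hz
    have hKY : ∀ z ∈ K, z ∉ Y G v := by
      intro z hz hzY
      have hne0 : z ≠ h0 := by
        rintro rfl
        exact hh0H.1 hzY
      exact hYH z hzY h0 hh0H (hK hz hh0K hne0)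
    obtain ⟨x', hx'K, hx'X, hx'g⟩ : ∃ x' ∈ K, x' ∈ XS G v ∧ ¬ G.Adj x' g := by
      by_contra hno
      push Not at hno
      apply hgK
      apply hmax
      intro z hz _
      by_cases hzH : z ∈ H
      · exact (hKH z hz hzH).symm
      · rcases hout z hzH with h | h | h
        · exact absurd h (hKY z hz)
        · exact (hno z hz h).symm
        · exact h.2.2.1.symm
    have hx'g' : G.Adj x' g' := (hN x' hx'X.1).resolve_left hx'g
    have hvK : v ∉ K := by
      intro hv
      exact hx'X.1.2.1 (hK hv hx'K hx'X.1.1.symm)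
    obtain ⟨x, hxK, hxX, hxg'⟩ : ∃ x ∈ K, x ∈ XS G v ∧ ¬ G.Adj x g' := by
      by_contra hno
      push Not at hno
      have hg'K : g' ∈ K := by
        apply hmax
        intro z hz hzne
        by_cases hzH : z ∈ H
        · have hzx' : z ≠ x' := by
            rintro rfl
            exact hzH.2.1 hx'X
          rcases cases_vertex G v z with rfl | hv | h2 | hY
          · exact absurd hz hvK
          · exact (XS.clique hcf hx'X hv hg' (hK hz hx'K hzx') hx'g'.symm (Ne.symm hzne)).symm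
          · exact hdich x' hx'X z h2 hzH.2.1 (hK hx'K hz hzx'.symm) g' hg' hx'g'.symm
          · exact absurd hY hzH.1
        · rcases hout z hzH with h | h | h
          · exact absurd h (hKY z hz)
          · exact (hno z hz h).symm
          · exact h.2.2.2.symm
      exact hKA g' hg'K (Or.inr ⟨hNH g' hg', Ne.symm hne, fun h => hgg h.symm⟩)
    have hxg : G.Adj x g := (hN x hxX.1).resolve_right hxg'
    have hh0x : h0 ≠ x := by
      rintro rfl
      exact hh0H.2.1 hxX
    have hh0x' : h0 ≠ x' := by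
      rintro rfl
      exact hh0H.2.1 hx'X
    have hvh0 : G.Adj v h0 := by
      rcases cases_vertex G v h0 with rfl | hv | h2 | hY
      · exact absurd hh0K hvK
      · exact hv
      · exfalso
        apply hh0H.2.2
        exact ⟨h2, hh0H.2.1,
          (hdich x hxX h0 h2 hh0H.2.1 (hK hxK hh0K hh0x.symm) g hg hxg.symm).symm,
          (hdich x' hx'X h0 h2 hh0H.2.1 (hK hx'K hh0K hh0x'.symm) g' hg' hx'g'.symm).symm⟩
      · exact absurd hY hh0H.1
    exact hcon ⟨h0, x, x', hvh0, hxX, hx'X, hK hh0K hxK hh0x, hK hh0K hx'K hh0x', hxg, hxg', hx'g',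
      hx'g⟩

end Pool.Agent.KS6_47.Frk
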