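import Pool.Agent.KS6_47.Frk.WheelCut

/-!
# 5-wheels: same neighbours at distance three
-/

set_option autoImplicit false

namespace Pool.Agent.KS6_47.Frk

variable {V : Type}


theorem jz_cases (i j : ZMod 5) : j = i ∨ j = i + 1 ∨ j = i + 2 ∨ j = i + 3 ∨ j = i + 4 := by
  revert i j; decide

theorem jz_ne (i : ZMod 5) : i ≠ i + 1 ∧ i ≠ i + 2 ∧ i ≠ i + 3 ∧ i ≠ i + 4 := by
  revert i; decide

theorem jz_add (i : ZMod 5) : i + 1 + 1 = i + 2 ∧ i + 1 + 2 = i + 3 ∧ i + 1 + 3 = i + 4 ∧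
    i + 1 + 4 = i ∧ i + 2 + 1 = i + 3 ∧ i + 2 + 2 = i + 4 ∧ i + 2 + 3 = i ∧ i + 2 + 4 = i + 1 ∧
    i + 3 + 1 = i + 4 ∧ i + 3 + 2 = i ∧ i + 3 + 3 = i + 1 ∧ i + 3 + 4 = i + 2 ∧
    i + 4 + 1 = i ∧ i + 4 + 2 = i + 1 ∧ i + 4 + 3 = i + 2 ∧ i + 4 + 4 = i + 3 := by
  revert i; decide

theorem E.mk0 {G : SimpleGraph V} {v : V} {f : ZMod 5 → V} {i : ZMod 5} {x : V}
    (h : x ∈ E G v f i) : x ∈ N2 G v ∧ G.Adj x (f i) ∧ G.Adj x (f (i + 1)) ∧
      ¬ G.Adj x (f (i + 2)) ∧ ¬ G.Adj x (f (i + 3)) ∧ ¬ G.Adj x (f (i + 4)) := h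

theorem sameNext {G : SimpleGraph V} (hcf : ClawFree G) {v : V}
    {f : ZMod 5 → V} (hw : Wheel G v f) {i : ZMod 5} {x y : V} (hx : x ∈ E G v f i)
    (hxs : x ∈ XS G v) (hy : y ∈ E G v f (i + 1)) : y ∈ XS G v ∧ NY G v x = NY G v y :=
  E.same hcf hw (jz_ne i).1 hx hy (E.next hcf hw hx hy) hxs

theorem samePrev {G : SimpleGraph V} (hcf : ClawFree G) {v : V}
    {f : ZMod 5 → V} (hw : Wheel G v f) {i : ZMod 5} {x y : V} (hx : x ∈ E G v f i)
    (hxs : x ∈ XS G v) (hy : y ∈ E G v f (i + 4)) : y ∈ XS G v ∧ NY G v x = NY G v y := by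
  have e : i + 4 + 1 = i := by
    obtain ⟨_, _, _, _, _, _, _, _, _, _, _, _, h, _⟩ := jz_add i
    exact h
  have hx2 : x ∈ E G v f (i + 4 + 1) := by rw [e]; exact hx
  exact E.same hcf hw (jz_ne i).2.2.2 hx hy (E.next hcf hw hy hx2).symm hxs

theorem step1_two {G : SimpleGraph V} (hcf : ClawFree G) {v : V}
    {f : ZMod 5 → V} (hw : Wheel G v f)
    (hno : ∀ i, ∀ x ∈ XS G v, x ∈ E G v f i → (∃ e, e ∈ E G v f (i + 1)) ∨
      ∃ e, e ∈ E G v f (i + 4)) {i : ZMod 5} {x z : V} (hx : x ∈ E G v f i)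
    (hxs : x ∈ XS G v) (hz : z ∈ E G v f (i + 2)) (hzs : z ∈ XS G v) :
    NY G v x = NY G v z := by
  obtain ⟨e11, e12, e13, e14, e21, e22, e23, e24, e31, e32, e33, e34, e41, e42, e43, e44⟩ :=
    jz_add i
  by_cases h1 : ∃ e, e ∈ E G v f (i + 1)
  · obtain ⟨e, he⟩ := h1
    obtain ⟨hes, h2⟩ := sameNext hcf hw hx hxs he
    have hz2 : z ∈ E G v f (i + 1 + 1) := by rw [e11]; exact hz
    exact h2.trans (sameNext hcf hw he hes hz2).2
  · obtain ⟨e, he⟩ := (hno i x hxs hx).resolve_left h1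
    have h3 : ∃ e, e ∈ E G v f (i + 2 + 1) := by
      refine (hno (i + 2) z hzs hz).resolve_right ?_
      rw [e24]; exact h1
    obtain ⟨e2, he2⟩ := h3
    obtain ⟨hes2, h4⟩ := sameNext hcf hw hz hzs he2
    obtain ⟨hes, h5⟩ := samePrev hcf hw hx hxs he
    have he3 : e ∈ E G v f (i + 2 + 1 + 1) := by rw [e21, e31]; exact he
    have h6 := (sameNext hcf hw he2 hes2 he3).2
    exact h5.trans (h6.symm.trans h4.symm)

theorem step1 {G : SimpleGraph V} (hcf : ClawFree G) {v : V}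
    {f : ZMod 5 → V} (hw : Wheel G v f)
    (hno : ∀ i, ∀ x ∈ XS G v, x ∈ E G v f i → (∃ e, e ∈ E G v f (i + 1)) ∨
      ∃ e, e ∈ E G v f (i + 4)) {x z : V} (hxs : x ∈ XS G v) (hzs : z ∈ XS G v) :
    NY G v x = NY G v z := by
  obtain ⟨i, hx⟩ := Wheel.xs_type hcf hw hxs
  obtain ⟨k, hz⟩ := Wheel.xs_type hcf hw hzs
  obtain ⟨e11, e12, e13, e14, e21, e22, e23, e24, e31, e32, e33, e34, e41, e42, e43, e44⟩ :=
    jz_add i
  rcases jz_cases i k with h | h | h | h | h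
  · subst h
    rcases hno k x hxs hx with ⟨e, he⟩ | ⟨e, he⟩
    · exact (sameNext hcf hw hx hxs he).2.trans (sameNext hcf hw hz hzs he).2.symm
    · exact (samePrev hcf hw hx hxs he).2.trans (samePrev hcf hw hz hzs he).2.symm
  · subst h
    exact (sameNext hcf hw hx hxs hz).2
  · subst h
    exact step1_two hcf hw hno hx hxs hz hzs
  · subst h
    have hx2 : x ∈ E G v f (i + 3 + 2) := by rw [e32]; exact hx
    exact (step1_two hcf hw hno hz hzs hx2 hxs).symm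
  · subst h
    exact (samePrev hcf hw hx hxs hz).2

theorem step3 {G : SimpleGraph V} (hcf : ClawFree G) {v : V}
    {f : ZMod 5 → V} (hw : Wheel G v f) {i : ZMod 5} {h x x2 : V} (hvh : G.Adj v h)
    (hx : x ∈ E G v f i) (hxs : x ∈ XS G v) (hx2 : x2 ∈ E G v f (i + 2)) (hxs2 : x2 ∈ XS G v)
    (hhx : G.Adj h x) (hhx2 : G.Adj h x2) {e e2 : V} (he : e ∈ E G v f i)
    (he2 : e2 ∈ E G v f (i + 2)) : G.Adj e e2 := by
  obtain ⟨e11, e12, e13, e14, e21, e22, e23, e24, e31, e32, e33, e34, e41, e42, e43, e44⟩ :=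
    jz_add i
  obtain ⟨n1, n2, n3, n4⟩ := jz_ne i
  obtain ⟨a0, a1, a2, a3, a4, a5⟩ := E.mk0 hx
  obtain ⟨b0, b1, b2, b3, b4, b5⟩ := E.mk0 hx2
  obtain ⟨c0, c1, c2, c3, c4, c5⟩ := E.mk0 he
  obtain ⟨d0, d1, d2, d3, d4, d5⟩ := E.mk0 he2
  rw [e21] at b2 d2
  rw [e22] at b3 d3
  rw [e23] at b4 d4
  rw [e24] at b5 d5
  have hf : ∀ j, G.Adj v (f j) := hw.hub
  have hn2 : ∀ y ∈ N2 G v, ∀ p, G.Adj v p → p ≠ y := by
    intro y hy p hp hpy
    subst hpy
    exact hy.2.1 hp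
  have ne1 : h ≠ f i := by rintro rfl; exact b4 hhx2.symm
  have ne2 : h ≠ f (i + 2) := by rintro rfl; exact a3 hhx.symm
  have ne3 : h ≠ f (i + 3) := by rintro rfl; exact a4 hhx.symm
  have ne4 : h ≠ f (i + 4) := by rintro rfl; exact a5 hhx.symm
  have h1 : G.Adj h (f i) := XS.clique hcf hxs hvh (hf _) hhx a1.symm ne1
  have h2 : G.Adj h (f (i + 2)) := XS.clique hcf hxs2 hvh (hf _) hhx2 b1.symm ne2
  have h3 : G.Adj h (f (i + 3)) := XS.clique hcf hxs2 hvh (hf _) hhx2 b2.symm ne3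
  have r42 : ¬ G.Adj (f (i + 4)) (f (i + 2)) := by
    rw [hw.adj_iff]
    rw [e41, e44]
    rintro (h | h)
    · exact n2 h.symm
    · revert h; clear * -; revert i; decide
  have ne42 : f (i + 4) ≠ f (i + 2) := by
    apply hw.ne
    clear * -; revert i; decide
  have h4 : ¬ G.Adj h (f (i + 4)) := by
    intro h4
    exact hcf h (f (i + 4)) x (f (i + 2)) h4 hhx h2 (fun h => a5 h.symm) r42 a3
      (hn2 x a0 _ (hf _)) ne42 (hn2 x a0 _ (hf _)).symm
  have hhe : G.Adj h e := by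
    by_contra hne
    have r1 : G.Adj (f i) (f (i + 4)) := by
      have := hw.rim (i + 4)
      rw [e41] at this
      exact this.symm
    exact hcf (f i) (f (i + 4)) h e r1 h1.symm c1.symm (fun h => h4 h.symm)
      (fun h => c5 h.symm) hne ne4.symm (hn2 e c0 _ (hf _)) (hn2 e c0 _ hvh)
  have hhe2 : G.Adj h e2 := by
    by_contra hne
    have r1 : G.Adj (f (i + 3)) (f (i + 4)) := by
      have := hw.rim (i + 3)
      rw [e31] at this
      exact this
    exact hcf (f (i + 3)) (f (i + 4)) h e2 r1 h3.symm d2.symm (fun h => h4 h.symm)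
      (fun h => d3 h.symm) hne ne4.symm (hn2 e2 d0 _ (hf _)) (hn2 e2 d0 _ hvh)
  refine adj_of_common hcf hvh ⟨c0.1, c0.2.1⟩ ⟨d0.1, d0.2.1⟩ hhe hhe2 ?_
  rintro rfl
  exact d4 c1

theorem Wheel.same_NY [Fintype V] {G : SimpleGraph V} (hcf : ClawFree G) (hc : Core G) {v : V}
    {f : ZMod 5 → V} (hw : Wheel G v f) : ∀ x ∈ XS G v, ∀ z ∈ XS G v, NY G v x = NY G v z := by
  by_cases hno : ∀ i, ∀ x ∈ XS G v, x ∈ E G v f i → (∃ e, e ∈ E G v f (i + 1)) ∨
      ∃ e, e ∈ E G v f (i + 4)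
  · intro x hx z hz
    exact step1 hcf hw hno hx hz
  push Not at hno
  obtain ⟨i, x1, hx1, hx1e, hE1, hE4⟩ := hno
  obtain ⟨e11, e12, e13, e14, e21, e22, e23, e24, e31, e32, e33, e34, e41, e42, e43, e44⟩ :=
    jz_add i
  obtain ⟨n1, n2, n3, n4⟩ := jz_ne i
  have hnadj : ¬ G.Adj (f i) (f (i + 3)) := by
    rw [hw.adj_iff]
    clear * -; revert i; decide
  have hN : ∀ x ∈ N2 G v, G.Adj x (f i) ∨ G.Adj x (f (i + 3)) := by
    intro x hx
    rcases Wheel.type hcf hw hx with ⟨j, hj⟩ | ⟨j, hj1, hj2, hj3⟩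
    · have hj0 := E.mk0 hj
      rcases jz_cases i j with h | h | h | h | h
      · subst h; exact Or.inl hj0.2.1
      · subst h; exact absurd hj (hE1 x)
      · subst h; rw [e21] at hj0; exact Or.inr hj0.2.2.1
      · subst h; exact Or.inr hj0.2.1
      · subst h; exact absurd hj (hE4 x)
    · rcases jz_cases i j with h | h | h | h | h
      · subst h; exact Or.inl hj1
      · subst h; rw [e12] at hj3; exact Or.inr hj3
      · subst h; rw [e21] at hj2; exact Or.inr hj2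
      · subst h; exact Or.inr hj1
      · subst h; rw [e41] at hj2; exact Or.inl hj2
  obtain ⟨h, x, x2, hvh, hxs, hxs2, hhx, hhx2, hxg, hxg2, hx2g2, hx2g⟩ :=
    lemmaL hcf hc (hw.hub i) (hw.hub (i + 3)) hnadj (hw.ne n3) hN
  have hx : x ∈ E G v f i := by
    obtain ⟨j, hj⟩ := Wheel.xs_type hcf hw hxs
    have hj0 := E.mk0 hj
    rcases jz_cases i j with h | h | h | h | h
    · subst h; exact hj
    · subst h; exact absurd hj (hE1 x)
    · subst h; rw [e23] at hj0; exact absurd hxg hj0.2.2.2.2.1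
    · subst h; exact absurd hj0.2.1 hxg2
    · subst h; exact absurd hj (hE4 x)
  have hx2 : x2 ∈ E G v f (i + 2) ∨ x2 ∈ E G v f (i + 3) := by
    obtain ⟨j, hj⟩ := Wheel.xs_type hcf hw hxs2
    have hj0 := E.mk0 hj
    rcases jz_cases i j with h | h | h | h | h
    · subst h; exact absurd hj0.2.1 hx2g
    · subst h; exact absurd hj (hE1 x2)
    · subst h; exact Or.inl hj
    · subst h; exact Or.inr hj
    · subst h; exact absurd hj (hE4 x2)
  have key : ∀ z ∈ XS G v, NY G v z = NY G v x2 := by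
    intro z hzs
    obtain ⟨j, hj⟩ := Wheel.xs_type hcf hw hzs
    rcases hx2 with hx2 | hx2
    · have hcomp : ∀ e e2, e ∈ E G v f i → e2 ∈ E G v f (i + 2) → G.Adj e e2 :=
        fun e e2 he he2 => step3 hcf hw hvh hx hxs hx2 hxs2 hhx hhx2 he he2
      rcases jz_cases i j with h | h | h | h | h
      · subst h
        exact (E.same hcf hw n2 hj hx2 (hcomp _ _ hj hx2) hzs).2
      · subst h; exact absurd hj (hE1 z)
      · subst h
        have h1 := (E.same hcf hw n2 hx hj (hcomp _ _ hx hj) hxs).2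
        have h2 := (E.same hcf hw n2 hx hx2 (hcomp _ _ hx hx2) hxs).2
        exact h1.symm.trans h2
      · subst h
        have hj2 : z ∈ E G v f (i + 2 + 1) := by rw [e21]; exact hj
        exact (sameNext hcf hw hx2 hxs2 hj2).2.symm
      · subst h; exact absurd hj (hE4 z)
    · have hx3 : x ∈ E G v f (i + 3 + 2) := by rw [e32]; exact hx
      have hcomp : ∀ e e2, e ∈ E G v f (i + 3) → e2 ∈ E G v f (i + 3 + 2) → G.Adj e e2 :=
        fun e e2 he he2 => step3 hcf hw hvh hx2 hxs2 hx3 hxs hhx2 hhx he he2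
      have n35 : i + 3 ≠ i + 3 + 2 := by rw [e32]; exact n3.symm
      rcases jz_cases i j with h | h | h | h | h
      · subst h
        have hj3 : z ∈ E G v f (j + 3 + 2) := by rw [e32]; exact hj
        exact (E.same hcf hw n35 hx2 hj3 (hcomp _ _ hx2 hj3) hxs2).2.symm
      · subst h; exact absurd hj (hE1 z)
      · subst h
        have hx4 : x2 ∈ E G v f (i + 2 + 1) := by rw [e21]; exact hx2
        exact (sameNext hcf hw hj hzs hx4).2
      · subst h
        have h1 := (E.same hcf hw n35 hj hx3 (hcomp _ _ hj hx3) hzs).2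
        have h2 := (E.same hcf hw n35 hx2 hx3 (hcomp _ _ hx2 hx3) hxs2).2
        exact h1.trans h2.symm
      · subst h; exact absurd hj (hE4 z)
  intro a ha b hb
  exact (key a ha).trans (key b hb).symm

end Pool.Agent.KS6_47.Frk
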